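import Pool.Agent.MP_e4fe74_an.Defs
import Mathlib

section

noncomputable section

namespace Pool.Agent.MP_e4fe74_an

open MeasureTheory

variable {E : Type} [NormedAddCommGroup E] [InnerProductSpace ℝ E] [FiniteDimensional ℝ E]
  [MeasurableSpace E] [BorelSpace E] [Fact (Module.finrank ℝ E = 3)]

set_option linter.unusedSectionVars false


/-- time coordinate -/
def x0 (x : E) : ℝ := √(1 + ‖x‖ ^ 2)

lemma x0_sq (x : E) : x0 x ^ 2 = 1 + ‖x‖ ^ 2 := by
  unfold x0; rw [Real.sq_sqrt]; positivity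

lemma one_le_x0 (x : E) : 1 ≤ x0 x := by
  unfold x0
  rw [Real.le_sqrt (by norm_num) (by positivity)]
  nlinarith [sq_nonneg ‖x‖]

lemma x0_pos (x : E) : 0 < x0 x := lt_of_lt_of_le one_pos (one_le_x0 x)

lemma norm_lt_x0 (x : E) : ‖x‖ < x0 x := by
  have h := x0_sq x
  have h2 := x0_pos x
  nlinarith [norm_nonneg x]

lemma continuous_x0 : Continuous (x0 : E → ℝ) := by
  unfold x0; fun_prop

@[simp] lemma lift_fst (x : E) : (lift x).1 = x0 x := rfl
@[simp] lemma lift_snd (x : E) : (lift x).2 = x := rfl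

lemma continuous_lift : Continuous (lift : E → ℝ × E) := by
  unfold lift; fun_prop

lemma lift_zero : lift (0 : E) = (1, 0) := by simp [lift]

lemma lor_comm (u v : (ℝ × E)) : lor u v = lor v u := by
  unfold lor; rw [real_inner_comm, mul_comm]

lemma lor_add_left (u v w : (ℝ × E)) : lor (u + v) w = lor u w + lor v w := by
  simp [lor, inner_add_left]; ring

lemma lor_add_right (u v w : (ℝ × E)) : lor u (v + w) = lor u v + lor u w := by
  simp [lor, inner_add_right]; ring

lemma lor_smul_left (c : ℝ) (u v : (ℝ × E)) : lor (c • u) v = c * lor u v := by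
  simp [lor, inner_smul_left]; ring

lemma lor_smul_right (c : ℝ) (u v : (ℝ × E)) : lor u (c • v) = c * lor u v := by
  simp [lor, inner_smul_right]; ring

lemma lor_neg_left (u v : (ℝ × E)) : lor (-u) v = - lor u v := by
  simp [lor, inner_neg_left]; ring

lemma lor_neg_right (u v : (ℝ × E)) : lor u (-v) = - lor u v := by
  simp [lor, inner_neg_right]; ring

lemma lor_origin_right (u : (ℝ × E)) : lor u (1, 0) = u.1 := by simp [lor]

lemma lor_origin_left (u : (ℝ × E)) : lor (1, 0) u = u.1 := by simp [lor]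

lemma lor_lift_self (x : E) : lor (lift x) (lift x) = 1 := by
  have := x0_sq x
  simp only [lor, lift_fst, lift_snd, real_inner_self_eq_norm_sq]; nlinarith

lemma lor_lift_lift (x y : E) : lor (lift x) (lift y) = x0 x * x0 y - inner ℝ x y := rfl

lemma continuous_lor : Continuous fun p : (ℝ × E) × (ℝ × E) => lor p.1 p.2 := by
  unfold lor; fun_prop

lemma continuous_lor_lift : Continuous fun p : E × E => lor (lift p.1) (lift p.2) :=
  continuous_lor.comp ((continuous_lift.comp continuous_fst).prodMk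
    (continuous_lift.comp continuous_snd))

lemma one_le_lor_lift (x y : E) : 1 ≤ lor (lift x) (lift y) := by
  rw [lor_lift_lift]
  have h1 := real_inner_le_norm x y
  have hx := x0_sq x
  have hy := x0_sq y
  have px := x0_pos x
  have py := x0_pos y
  have h2 : 1 + ‖x‖ * ‖y‖ ≤ x0 x * x0 y := by
    rw [← pow_le_pow_iff_left₀ (by positivity) (by positivity) two_ne_zero, mul_pow, hx, hy]
    nlinarith [sq_nonneg (‖x‖ - ‖y‖)]
  linarith

lemma eq_lift_of {u : (ℝ × E)} (h : lor u u = 1) (h0 : 0 < u.1) : u = lift u.2 := by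
  have : u.1 = x0 u.2 := by
    have h2 : u.1 ^ 2 = x0 u.2 ^ 2 := by
      rw [x0_sq]; simp only [lor, real_inner_self_eq_norm_sq] at h; nlinarith
    exact (pow_left_inj₀ h0.le (x0_pos _).le two_ne_zero).1 h2
  exact Prod.ext this rfl

/-- A vector of non-negative square that pairs positively with a point of the upper sheet is
future directed. -/
lemma fst_pos_of_lor_pos {u : (ℝ × E)} {y : E} (h : 0 ≤ lor u u) (h0 : 0 < lor u (lift y)) :
    0 < u.1 := by
  by_contra hneg
  push Not at hneg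
  simp only [lor, real_inner_self_eq_norm_sq, lift_fst, lift_snd] at h h0
  have h1 : -(‖u.2‖ * ‖y‖) ≤ inner ℝ u.2 y := by
    have := abs_real_inner_le_norm u.2 y
    linarith [neg_abs_le (inner ℝ u.2 y)]
  have h2 : ‖u.2‖ ≤ -u.1 := by
    rw [← pow_le_pow_iff_left₀ (by positivity) (by linarith) two_ne_zero]
    nlinarith
  have h3 := norm_lt_x0 y
  have h4 := norm_nonneg y
  have h5 := norm_nonneg u.2
  nlinarith

variable {g : (ℝ × E) →ₗ[ℝ] (ℝ × E)}

lemma IsLorentz.origin_eq (hg : IsLorentz g) : g (1, 0) = lift (g (1, 0)).2 :=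
  eq_lift_of (by rw [hg.1]; simp [lor]) hg.2

lemma IsLorentz.lift_act (hg : IsLorentz g) (x : E) : lift (act g x) = g (lift x) := by
  symm
  apply eq_lift_of (by rw [hg.1, lor_lift_self])
  apply fst_pos_of_lor_pos (y := (g (1, 0)).2) (by rw [hg.1, lor_lift_self]; norm_num)
  rw [← hg.origin_eq, hg.1, lor_origin_right]
  exact x0_pos x

lemma IsLorentz.lor_act (hg : IsLorentz g) (x y : E) :
    lor (lift (act g x)) (lift (act g y)) = lor (lift x) (lift y) := by
  rw [hg.lift_act, hg.lift_act, hg.1]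

lemma eq_zero_of_lor {u : (ℝ × E)} (h : ∀ v, lor u v = 0) : u = 0 := by
  have h1 := h (1, 0)
  have h2 := h (0, u.2)
  simp only [lor_origin_right] at h1
  simp only [lor, mul_zero, zero_sub, neg_eq_zero, inner_self_eq_zero] at h2
  exact Prod.ext h1 h2

lemma IsLorentz.injective (hg : IsLorentz g) : Function.Injective g := by
  rw [injective_iff_map_eq_zero]
  intro u hu
  apply eq_zero_of_lor
  intro v
  rw [← hg.1, hu]; simp [lor]

lemma IsLorentz.surjective (hg : IsLorentz g) : Function.Surjective g :=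
  LinearMap.injective_iff_surjective.1 hg.injective

lemma IsLorentz.act_injective (hg : IsLorentz g) : Function.Injective (act g) := by
  intro x y h
  have : g (lift x) = g (lift y) := by rw [← hg.lift_act, ← hg.lift_act, h]
  have := hg.injective this
  exact congrArg Prod.snd this

lemma IsLorentz.act_surjective (hg : IsLorentz g) : Function.Surjective (act g) := by
  intro y
  obtain ⟨u, hu⟩ := hg.surjective (lift y)
  have h1 : lor u u = 1 := by rw [← hg.1, hu, lor_lift_self]
  have h2 : 0 < u.1 := by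
    rw [← lor_origin_right, ← hg.1, hu, hg.origin_eq]
    exact lt_of_lt_of_le one_pos (one_le_lor_lift _ _)
  refine ⟨u.2, ?_⟩
  unfold act
  rw [← eq_lift_of h1 h2, hu]; rfl

lemma continuous_act (g : (ℝ × E) →ₗ[ℝ] (ℝ × E)) : Continuous (act g) := by
  unfold act
  exact continuous_snd.comp (g.continuous_of_finiteDimensional.comp continuous_lift)

/-- The geodesic symmetry exchanging the origin and `z`. -/
def swap (z : E) : (ℝ × E) →ₗ[ℝ] (ℝ × E) where
  toFun u := -u + (lor u (lift z + (1, 0)) / (1 + x0 z)) • (lift z + (1, 0))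
  map_add' u v := by
    rw [lor_add_left, add_div, add_smul]; abel
  map_smul' c u := by
    rw [lor_smul_left, RingHom.id_apply, smul_add c, smul_smul, mul_div_assoc, smul_neg]

lemma swap_apply (z : E) (u : (ℝ × E)) :
    swap z u = -u + (lor u (lift z + (1, 0)) / (1 + x0 z)) • (lift z + (1, 0)) := rfl

lemma lor_n_n (z : E) : lor (lift z + (1, 0)) (lift z + (1, 0)) = 2 * (1 + x0 z) := by
  rw [lor_add_left, lor_add_right, lor_add_right, lor_lift_self, lor_origin_right, lor_origin_left,
    lor_origin_left]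
  simp; ring

lemma swap_origin (z : E) : swap z (1, 0) = lift z := by
  have := x0_pos z
  rw [swap_apply, lor_origin_left]
  have h : ((lift z + (1, 0) : (ℝ × E)).1 / (1 + x0 z)) = 1 := by
    simp; field_simp; ring
  rw [h, one_smul]; abel

lemma swap_lift (z : E) : swap z (lift z) = (1, 0) := by
  have := x0_pos z
  rw [swap_apply, lor_add_right, lor_lift_self, lor_origin_right, lift_fst,
    div_self (by positivity)]
  simp

lemma isLorentz_swap (z : E) : IsLorentz (swap z) := by
  refine ⟨fun u v => ?_, by rw [swap_origin]; exact x0_pos z⟩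
  have := x0_pos z
  rw [swap_apply, swap_apply]
  set n : (ℝ × E) := lift z + (1, 0) with hn
  have hnn : lor n n = 2 * (1 + x0 z) := lor_n_n z
  clear_value n
  simp only [lor_add_left, lor_add_right, lor_neg_left, lor_neg_right,
    lor_smul_right, lor_smul_left, hnn, lor_comm n v]
  field_simp
  ring

lemma swap_swap (z : E) (u : (ℝ × E)) : swap z (swap z u) = u := by
  have := x0_pos z
  rw [swap_apply z (swap z u), swap_apply z u]
  set n : (ℝ × E) := lift z + (1, 0) with hn
  have hnn : lor n n = 2 * (1 + x0 z) := lor_n_n z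
  rw [lor_add_left, lor_neg_left, lor_smul_left, hnn]
  have : (-lor u n + lor u n / (1 + x0 z) * (2 * (1 + x0 z))) / (1 + x0 z) =
      lor u n / (1 + x0 z) := by field_simp; ring
  rw [this]; simp

lemma lor_swap (z : E) (u v : (ℝ × E)) : lor (swap z u) v = lor u (swap z v) := by
  conv_lhs => rw [← swap_swap z v]
  exact (isLorentz_swap z).1 _ _

/-! ### Invariance of the measure -/

lemma hasFDerivAt_x0 (x : E) : HasFDerivAt x0 ((x0 x)⁻¹ • innerSL ℝ x) x := by
  have h1 : HasFDerivAt (fun y : E => 1 + ‖y‖ ^ 2) ((2 : ℝ) • innerSL ℝ x) x := by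
    have := (hasStrictFDerivAt_norm_sq x).hasFDerivAt
    have h2 := this.const_add 1
    refine h2.congr_fderiv ?_
    ext v; simp
  have h3 := h1.sqrt (by positivity)
  refine h3.congr_fderiv ?_
  ext v
  have := x0_pos x
  simp only [smul_apply, smul_eq_mul]
  change 1 / (2 * x0 x) * _ = _
  field_simp

/-- derivative of the lift -/
def dlift (x : E) : E →L[ℝ] (ℝ × E) := ((x0 x)⁻¹ • innerSL ℝ x).prod (ContinuousLinearMap.id ℝ E)

lemma dlift_apply (x v : E) : dlift x v = ((x0 x)⁻¹ * inner ℝ x v, v) := by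
  simp [dlift]

lemma hasFDerivAt_lift (x : E) : HasFDerivAt lift (dlift x) x :=
  (hasFDerivAt_x0 x).prodMk (hasFDerivAt_id x)

def dact (g : (ℝ × E) →ₗ[ℝ] (ℝ × E)) (x : E) : E →L[ℝ] E :=
  (ContinuousLinearMap.snd ℝ ℝ E).comp ((LinearMap.toContinuousLinearMap g).comp (dlift x))

lemma dact_apply (g : (ℝ × E) →ₗ[ℝ] (ℝ × E)) (x v : E) : dact g x v = (g (dlift x v)).2 := rfl

lemma hasFDerivAt_act (g : (ℝ × E) →ₗ[ℝ] (ℝ × E)) (x : E) : HasFDerivAt (act g) (dact g x) x := by
  have h := ((ContinuousLinearMap.snd ℝ ℝ E).comp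
    (LinearMap.toContinuousLinearMap g)).hasFDerivAt.comp x (hasFDerivAt_lift x)
  exact h

lemma lor_lift_dlift (x v : E) : lor (lift x) (dlift x v) = 0 := by
  have := x0_pos x
  rw [dlift_apply]; simp only [lor, lift_fst, lift_snd]; field_simp; ring

lemma IsLorentz.g_dlift (hg : IsLorentz g) (x v : E) :
    g (dlift x v) = dlift (act g x) (dact g x v) := by
  have h := lor_lift_dlift x v
  rw [← hg.1, ← hg.lift_act] at h
  have := x0_pos (act g x)
  rw [dlift_apply (act g x)]
  refine Prod.ext ?_ rfl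
  simp only [lor, lift_fst, lift_snd] at h
  rw [dact_apply]
  field_simp
  linarith

/-- The Gram operator of the induced metric. -/
def gram (x : E) : E →ₗ[ℝ] E :=
  LinearMap.id - ((x0 x)⁻¹ ^ 2) • (innerSL ℝ x).toLinearMap.smulRight x

lemma inner_gram (x v w : E) : inner ℝ (gram x v) w = - lor (dlift x v) (dlift x w) := by
  simp only [gram, LinearMap.sub_apply, LinearMap.id_apply, LinearMap.smul_apply,
    LinearMap.smulRight_apply, inner_sub_left, inner_smul_left, dlift_apply, lor]
  simp; ring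

/-- an orthonormal basis -/
def onb (E : Type) [NormedAddCommGroup E] [InnerProductSpace ℝ E] [FiniteDimensional ℝ E]
    [Fact (Module.finrank ℝ E = 3)] : OrthonormalBasis (Fin 3) ℝ E :=
  (stdOrthonormalBasis ℝ E).reindex (finCongr Fact.out)

lemma det_gram (x : E) : LinearMap.det (gram x) = (x0 x)⁻¹ ^ 2 := by
  rw [← LinearMap.det_toMatrix (onb E).toBasis, Matrix.det_fin_three]
  have h0 := x0_pos x
  have h1 := x0_sq x
  rw [← (onb E).repr.norm_map, EuclideanSpace.real_norm_sq_eq, Fin.sum_univ_three] at h1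
  have h2 : ∀ i, inner ℝ x (onb E i) = (onb E).repr x i := fun i => by
    rw [(onb E).repr_apply_apply, real_inner_comm]
  simp [LinearMap.toMatrix_apply, gram, h2]
  field_simp
  have h4 : x0 x ^ 4 = (x0 x ^ 2) ^ 2 := by ring
  rw [h4, h1]; ring

lemma IsLorentz.abs_det_dact (hg : IsLorentz g) (x : E) :
    |(dact g x).det| = x0 (act g x) / x0 x := by
  have key : LinearMap.adjoint (dact g x : E →ₗ[ℝ] E) ∘ₗ gram (act g x) ∘ₗ
      (dact g x : E →ₗ[ℝ] E) = gram x := by
    ext1 v
    apply ext_inner_right ℝ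
    intro w
    simp only [LinearMap.comp_apply, LinearMap.adjoint_inner_left]
    rw [inner_gram, inner_gram]
    simp only [ContinuousLinearMap.coe_coe]
    rw [← hg.g_dlift, ← hg.g_dlift, hg.1]
  have hdet := congrArg LinearMap.det key
  rw [LinearMap.det_comp, LinearMap.det_comp, det_gram, det_gram] at hdet
  have hadj : LinearMap.det (LinearMap.adjoint (dact g x : E →ₗ[ℝ] E)) =
      LinearMap.det (dact g x : E →ₗ[ℝ] E) := by
    rw [← LinearMap.det_toMatrix (onb E).toBasis, ← LinearMap.det_toMatrix (onb E).toBasis,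
      LinearMap.toMatrix_adjoint, Matrix.det_conjTranspose]
    simp
  rw [hadj] at hdet
  have h1 := x0_pos x
  have h2 := x0_pos (act g x)
  rw [← pow_left_inj₀ (abs_nonneg _) (by positivity) two_ne_zero, sq_abs]
  change (LinearMap.det (dact g x : E →ₗ[ℝ] E)) ^ 2 = _
  field_simp at hdet ⊢
  linarith

lemma measurable_dens : Measurable fun x : E => ENNReal.ofReal (1 / √(1 + ‖x‖ ^ 2)) := by
  fun_prop

lemma lintegral_hypVol (f : E → ENNReal) (hf : Measurable f) :
    ∫⁻ x, f x ∂(hypVol E) = ∫⁻ x, ENNReal.ofReal (x0 x)⁻¹ * f x := by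
  unfold hypVol
  rw [lintegral_withDensity_eq_lintegral_mul _ measurable_dens hf]
  simp [x0]

lemma IsLorentz.measurePreserving (hg : IsLorentz g) :
    MeasurePreserving (act g) (hypVol E) (hypVol E) := by
  have hm : Measurable (act g) := (continuous_act g).measurable
  refine ⟨hm, ?_⟩
  apply Measure.ext_of_lintegral
  intro f hf
  rw [lintegral_map hf hm, lintegral_hypVol _ hf, 
    lintegral_hypVol (fun a => f (act g a)) (hf.comp hm)]
  have h := lintegral_image_eq_lintegral_abs_det_fderiv_mul volume MeasurableSet.univ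
    (fun x _ => (hasFDerivAt_act g x).hasFDerivWithinAt) hg.act_injective.injOn
    (fun x => ENNReal.ofReal (x0 x)⁻¹ * f x)
  rw [Set.image_univ, hg.act_surjective.range_eq, Measure.restrict_univ] at h
  rw [h]
  congr 1
  ext x
  have h1 := x0_pos x
  have h2 := x0_pos (act g x)
  rw [hg.abs_det_dact, ← mul_assoc, ← ENNReal.ofReal_mul (by positivity)]
  congr 2
  field_simp

end Pool.Agent.MP_e4fe74_an

end
end

section

noncomputable section

namespace Pool.Agent.MP_e4fe74_an

open MeasureTheory Set Real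
open scoped ENNReal

variable {E : Type} [NormedAddCommGroup E] [InnerProductSpace ℝ E] [FiniteDimensional ℝ E]
  [MeasurableSpace E] [BorelSpace E] [Fact (Module.finrank ℝ E = 3)]

set_option linter.unusedSectionVars false

lemma measurePreserving_coords :
    MeasurePreserving (fun x : E => ((onb E).repr x 0, ((onb E).repr x 1, (onb E).repr x 2))) volume
      (volume : Measure (ℝ × (ℝ × ℝ))) := by
  have h0 := (onb E).measurePreserving_repr
  have h1 := PiLp.volume_preserving_ofLp (Fin 3)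
  have h2 := volume_preserving_piFinSuccAbove (fun _ : Fin 3 => ℝ) 0
  have h3 := (MeasurePreserving.id (volume : Measure ℝ)).prod (volume_preserving_finTwoArrow ℝ)
  exact h3.comp (h2.comp (h1.comp h0))

lemma lintegral_radial_two (G : ℝ → ℝ≥0∞) (hG : Measurable G) :
    ∫⁻ q : ℝ × ℝ, G (q.1 ^ 2 + q.2 ^ 2) =
      ENNReal.ofReal (2 * π) * ∫⁻ r in Ioi (0 : ℝ), ENNReal.ofReal r * G (r ^ 2) := by
  rw [← lintegral_comp_polarCoord_symm, polarCoord_target]
  have : ∀ p : ℝ × ℝ, ENNReal.ofReal p.1 • G ((polarCoord.symm p).1 ^ 2 + (polarCoord.symm p).2 ^ 2)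
      = ENNReal.ofReal p.1 * G (p.1 ^ 2) := by
    intro p
    simp only [polarCoord_symm_apply, smul_eq_mul]
    congr 2
    nlinarith [sin_sq_add_cos_sq p.2]
  simp_rw [this]
  rw [Measure.volume_eq_prod, ← Measure.prod_restrict, lintegral_prod _ (by fun_prop)]
  simp only [lintegral_const, MeasurableSet.univ, Measure.restrict_apply, univ_inter,
    Real.volume_Ioo]
  rw [lintegral_mul_const _ (by fun_prop), mul_comm]
  congr 2; ring

lemma lintegral_sqrt_subst (c : ℝ) (hc : 0 < c) (G : ℝ → ℝ≥0∞) :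
    ∫⁻ r in Ioi (0 : ℝ), ENNReal.ofReal r * (ENNReal.ofReal (√(c + r ^ 2))⁻¹ * G (√(c + r ^ 2))) =
      ∫⁻ t in Ioi (√c), G t := by
  have himg : (fun r : ℝ => √(c + r ^ 2)) '' Ioi 0 = Ioi (√c) := by
    ext t
    simp only [mem_image, mem_Ioi]
    constructor
    · rintro ⟨r, hr, rfl⟩
      apply Real.sqrt_lt_sqrt hc.le; nlinarith
    · intro ht
      have h0 : 0 < t := lt_of_le_of_lt (Real.sqrt_nonneg _) ht
      have h1 : c < t ^ 2 := (Real.sqrt_lt' h0).1 ht
      refine ⟨√(t ^ 2 - c), Real.sqrt_pos.2 (by linarith), ?_⟩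
      rw [Real.sq_sqrt (by linarith)]
      simp [h0.le]
  have hd : ∀ r ∈ Ioi (0 : ℝ), HasDerivWithinAt (fun r : ℝ => √(c + r ^ 2))
      (r * (√(c + r ^ 2))⁻¹) (Ioi 0) r := by
    intro r _
    have h1 : HasDerivAt (fun r : ℝ => c + r ^ 2) (2 * r) r := by
      simpa using (hasDerivAt_pow 2 r).const_add c
    have h2 := h1.sqrt (by positivity)
    refine (h2.congr_deriv ?_).hasDerivWithinAt
    have : 0 < √(c + r ^ 2) := Real.sqrt_pos.2 (by positivity)
    field_simp
  have hinj : InjOn (fun r : ℝ => √(c + r ^ 2)) (Ioi 0) := by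
    intro a ha b hb hab
    have h := Real.sqrt_inj (by positivity) (by positivity) |>.1 hab
    have : a ^ 2 = b ^ 2 := by linarith
    exact (pow_left_inj₀ (le_of_lt ha) (le_of_lt hb) two_ne_zero).1 this
  rw [← himg, lintegral_image_eq_lintegral_abs_deriv_mul measurableSet_Ioi hd hinj]
  apply setLIntegral_congr_fun measurableSet_Ioi
  intro r hr
  have hr' : 0 < r := hr
  simp only
  rw [abs_of_nonneg (by positivity), ENNReal.ofReal_mul hr'.le, mul_assoc]

/-- The region filled by `(x0, ⟪e,x⟫)`. -/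
def regD : Set (ℝ × ℝ) := {q | 0 < q.1 ∧ 1 + q.2 ^ 2 < q.1 ^ 2}

lemma measurableSet_regD : MeasurableSet regD := by
  unfold regD
  exact (measurableSet_lt measurable_const measurable_fst).inter
    (measurableSet_lt (f := fun q : ℝ × ℝ => 1 + q.2 ^ 2) (g := fun q : ℝ × ℝ => q.1 ^ 2)
      (by fun_prop) (by fun_prop))

lemma lintegral_cyl_zero (F : ℝ × ℝ → ℝ≥0∞) (hF : Measurable F) :
    ∫⁻ x : E, F (x0 x, (onb E).repr x 0) ∂(hypVol E) =
      ENNReal.ofReal (2 * π) * ∫⁻ q in regD, F q := by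
  have hx0 : Measurable (x0 : E → ℝ) := continuous_x0.measurable
  rw [lintegral_hypVol _ (by fun_prop)]
  let G : ℝ × (ℝ × ℝ) → ℝ≥0∞ := fun q =>
    ENNReal.ofReal (√(1 + q.1 ^ 2 + (q.2.1 ^ 2 + q.2.2 ^ 2)))⁻¹ *
      F (√(1 + q.1 ^ 2 + (q.2.1 ^ 2 + q.2.2 ^ 2)), q.1)
  have hG : Measurable G := by unfold G; fun_prop
  have h1 : ∀ x : E, ENNReal.ofReal (x0 x)⁻¹ * F (x0 x, (onb E).repr x 0) =
      G ((onb E).repr x 0, ((onb E).repr x 1, (onb E).repr x 2)) := by
    intro x
    have : x0 x = √(1 + (onb E).repr x 0 ^ 2 + ((onb E).repr x 1 ^ 2 + (onb E).repr x 2 ^ 2)) := by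
      unfold x0
      rw [← (onb E).repr.norm_map, EuclideanSpace.real_norm_sq_eq, Fin.sum_univ_three]
      congr 1; ring
    simp only [G, this]
  simp_rw [h1]
  rw [measurePreserving_coords.lintegral_comp hG, Measure.volume_eq_prod,
    lintegral_prod _ hG.aemeasurable]
  have h2 : ∀ s : ℝ, ∫⁻ q : ℝ × ℝ, G (s, q) =
      ENNReal.ofReal (2 * π) * ∫⁻ t, regD.indicator F (t, s) := by
    intro s
    have := lintegral_radial_two (fun u => ENNReal.ofReal (√(1 + s ^ 2 + u))⁻¹ *
      F (√(1 + s ^ 2 + u), s)) (by fun_prop)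
    simp only [G]
    rw [this, lintegral_sqrt_subst (1 + s ^ 2) (by positivity) (fun t => F (t, s)),
      ← lintegral_indicator measurableSet_Ioi]
    congr 2
    ext t
    have : t ∈ Ioi (√(1 + s ^ 2)) ↔ (t, s) ∈ regD := by
      simp only [mem_Ioi, regD, mem_ofPred_eq]
      constructor
      · intro ht
        have h0 : 0 < t := lt_of_le_of_lt (Real.sqrt_nonneg _) ht
        exact ⟨h0, (Real.sqrt_lt' h0).1 ht⟩
      · rintro ⟨h0, h⟩
        exact (Real.sqrt_lt' h0).2 h
    by_cases h : (t, s) ∈ regD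
    · rw [indicator_of_mem h, indicator_of_mem (this.2 h)]
    · rw [indicator_of_notMem h, indicator_of_notMem (fun h' => h (this.1 h'))]
  simp_rw [h2]
  have hI : Measurable (regD.indicator F) := hF.indicator measurableSet_regD
  rw [lintegral_const_mul _ (by fun_prop), ← lintegral_indicator measurableSet_regD,
    Measure.volume_eq_prod, lintegral_prod_symm _ hI.aemeasurable]

lemma lintegral_cyl {e : E} (he : ‖e‖ = 1) (F : ℝ × ℝ → ℝ≥0∞) (hF : Measurable F) :
    ∫⁻ x : E, F (x0 x, inner ℝ e x) ∂(hypVol E) = ENNReal.ofReal (2 * π) * ∫⁻ q in regD, F q := by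
  have hx0 : Measurable (x0 : E → ℝ) := continuous_x0.measurable
  rw [← lintegral_cyl_zero (E := E) F hF, lintegral_hypVol _ (by fun_prop),
    lintegral_hypVol _ (by fun_prop)]
  let e0 : E := onb E 0
  have he0 : ‖e0‖ = ‖e‖ := by simp [e0, he]
  let R := Submodule.reflection (ℝ ∙ (e0 - e))ᗮ
  have hR : R e0 = e := Submodule.reflection_sub he0
  rw [← R.measurePreserving.lintegral_comp (by fun_prop)]
  congr 1
  ext x
  have h1 : x0 (R x) = x0 x := by simp [x0]
  have h2 : inner ℝ e (R x) = (onb E).repr x 0 := by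
    rw [← hR, R.inner_map_map, (onb E).repr_apply_apply]
  rw [h1, h2]

lemma lintegral_cosh_subst (a : ℝ) (ha : 0 ≤ a) (G : ℝ → ℝ≥0∞) :
    ∫⁻ t in Ioi (cosh a), G t = ∫⁻ r in Ioi a, ENNReal.ofReal (sinh r) * G (cosh r) := by
  have himg : cosh '' Ioi a = Ioi (cosh a) := by
    ext t
    simp only [mem_image, mem_Ioi]
    constructor
    · rintro ⟨r, hr, rfl⟩
      rw [cosh_lt_cosh, abs_of_nonneg ha, abs_of_nonneg (by linarith)]; exact hr
    · intro ht
      have h1 : 1 ≤ t := (one_le_cosh a).trans ht.le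
      refine ⟨arcosh t, ?_, cosh_arcosh h1⟩
      rw [← cosh_arcosh h1, cosh_lt_cosh, abs_of_nonneg ha, abs_of_nonneg (arcosh_nonneg h1)] at ht
      exact ht
  have hinj : InjOn cosh (Ioi a) := cosh_injOn.mono fun x hx => ha.trans (le_of_lt hx)
  rw [← himg, lintegral_image_eq_lintegral_abs_deriv_mul measurableSet_Ioi
    (fun r _ => (hasDerivAt_cosh r).hasDerivWithinAt) hinj]
  apply setLIntegral_congr_fun measurableSet_Ioi
  intro r hr
  have : 0 ≤ sinh r := sinh_nonneg_iff.2 (ha.trans (le_of_lt hr))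
  simp only
  rw [abs_of_nonneg this]

lemma lintegral_regD_polar (F : ℝ × ℝ → ℝ≥0∞) (hF : Measurable F) :
    ∫⁻ q in regD, F q = ∫⁻ r in Ioi (0 : ℝ), ENNReal.ofReal (sinh r) *
      ∫⁻ s in Ioo (-sinh r) (sinh r), F (cosh r, s) := by
  have hI : Measurable (regD.indicator F) := hF.indicator measurableSet_regD
  rw [← lintegral_indicator measurableSet_regD, Measure.volume_eq_prod,
    lintegral_prod _ hI.aemeasurable]
  have h1 : ∀ t : ℝ, ∫⁻ s, regD.indicator F (t, s) =
      (Ioi (cosh 0)).indicator (fun t => ∫⁻ s, regD.indicator F (t, s)) t := by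
    intro t
    by_cases h : t ∈ Ioi (cosh 0)
    · rw [indicator_of_mem h]
    · rw [indicator_of_notMem h]
      have : ∀ s, regD.indicator F (t, s) = 0 := by
        intro s
        apply indicator_of_notMem
        rintro ⟨h0, h2⟩
        apply h
        simp only [cosh_zero, mem_Ioi] at *
        nlinarith [sq_nonneg s]
      simp [this]
  rw [lintegral_congr h1, lintegral_indicator measurableSet_Ioi, lintegral_cosh_subst 0 le_rfl]
  apply setLIntegral_congr_fun measurableSet_Ioi
  intro r hr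
  have hr' : 0 < sinh r := sinh_pos_iff.2 hr
  simp only
  congr 1
  rw [← lintegral_indicator measurableSet_Ioo]
  congr 1
  ext s
  have : s ∈ Ioo (-sinh r) (sinh r) ↔ (cosh r, s) ∈ regD := by
    simp only [mem_Ioo, regD, mem_ofPred_eq, cosh_sq']
    rw [← abs_lt, ← sq_lt_sq₀ (abs_nonneg _) hr'.le, sq_abs]
    constructor
    · intro h; exact ⟨cosh_pos r, by linarith⟩
    · intro h; linarith [h.2]
  by_cases h : (cosh r, s) ∈ regD
  · rw [indicator_of_mem h, indicator_of_mem (this.2 h)]
  · rw [indicator_of_notMem h, indicator_of_notMem (fun h' => h (this.1 h'))]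

lemma lintegral_regD_horo (F : ℝ × ℝ → ℝ≥0∞) (hF : Measurable F) :
    ∫⁻ q in regD, F q = ∫⁻ v : ℝ, ENNReal.ofReal (exp v) *
      ∫⁻ t in Ioi (cosh v), F (t, t - exp v) := by
  have hI : Measurable (regD.indicator F) := hF.indicator measurableSet_regD
  have hmp : MeasurePreserving (fun z : ℝ × ℝ => (z.2, z.2 - z.1)) volume volume := by
    have h1 := measurePreserving_prod_sub_swap (volume : Measure ℝ) (volume : Measure ℝ)
    have h2 := (MeasurePreserving.id (volume : Measure ℝ)).prod
      (Measure.measurePreserving_neg (volume : Measure ℝ))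
    have h3 := h2.comp h1
    refine h3.congr (by fun_prop) (Filter.Eventually.of_forall fun z => ?_)
    simp
  rw [← lintegral_indicator measurableSet_regD, ← hmp.lintegral_comp hI, Measure.volume_eq_prod,
    lintegral_prod _ (by fun_prop)]
  have h1 : ∀ w : ℝ, ∫⁻ t, regD.indicator F (t, t - w) =
      (Ioi 0).indicator (fun w => ∫⁻ t, regD.indicator F (t, t - w)) w := by
    intro w
    by_cases h : w ∈ Ioi (0 : ℝ)
    · rw [indicator_of_mem h]
    · rw [indicator_of_notMem h]
      have : ∀ t, regD.indicator F (t, t - w) = 0 := by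
        intro t
        apply indicator_of_notMem
        rintro ⟨h0, h2⟩
        apply h
        simp only [mem_Ioi] at *
        by_contra hw
        push Not at hw
        nlinarith [sq_nonneg w]
      simp [this]
  rw [lintegral_congr h1, lintegral_indicator measurableSet_Ioi, ← Real.range_exp, ← image_univ,
    lintegral_image_eq_lintegral_abs_deriv_mul MeasurableSet.univ
    (fun r _ => (hasDerivAt_exp r).hasDerivWithinAt) exp_injective.injOn, Measure.restrict_univ]
  congr 1
  ext v
  have hv := exp_pos v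
  rw [abs_of_pos hv]
  congr 1
  rw [← lintegral_indicator measurableSet_Ioi]
  congr 1
  ext t
  have : t ∈ Ioi (cosh v) ↔ (t, t - exp v) ∈ regD := by
    simp only [mem_Ioi, regD, mem_ofPred_eq, cosh_eq, exp_neg]
    have e1 : exp v * (exp v)⁻¹ = 1 := mul_inv_cancel₀ hv.ne'
    have hv' : 0 < (exp v)⁻¹ := inv_pos.2 hv
    constructor
    · intro h
      refine ⟨by linarith, ?_⟩
      nlinarith
    · rintro ⟨h0, h⟩
      by_contra hc
      push Not at hc
      nlinarith
  by_cases h : (t, t - exp v) ∈ regD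
  · rw [indicator_of_mem h, indicator_of_mem (this.2 h)]
  · rw [indicator_of_notMem h, indicator_of_notMem (fun h' => h (this.1 h'))]

lemma measurable_arcosh : Measurable arcosh := by
  unfold arcosh; fun_prop

/-- Polar coordinates. -/
lemma lintegral_rad (G : ℝ → ℝ≥0∞) (hG : Measurable G) :
    ∫⁻ x : E, G (arcosh (x0 x)) ∂(hypVol E) =
      ∫⁻ r in Ioi (0 : ℝ), ENNReal.ofReal (4 * π * sinh r ^ 2) * G r := by
  have ha := measurable_arcosh
  have := lintegral_cyl_zero (E := E) (fun q => G (arcosh q.1)) (by fun_prop)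
  simp only at this
  rw [this, lintegral_regD_polar _ (by fun_prop), ← lintegral_const_mul' _ _ ENNReal.ofReal_ne_top]
  apply setLIntegral_congr_fun measurableSet_Ioi
  intro r hr
  have hr' : 0 < sinh r := sinh_pos_iff.2 hr
  simp only [lintegral_const, MeasurableSet.univ, Measure.restrict_apply, univ_inter,
    Real.volume_Ioo, arcosh_cosh (le_of_lt hr)]
  rw [mul_comm (G r), ← mul_assoc, ← mul_assoc, ← ENNReal.ofReal_mul (by positivity),
    ← ENNReal.ofReal_mul (by positivity)]
  congr 2; ring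

/-- Transfer of a push-forward identity from lower integrals to Bochner integrals. -/
lemma transfer {α β : Type*} [MeasurableSpace α] [MeasurableSpace β] {μ : Measure α}
    {ν : Measure β} {φ : α → β} (hφ : Measurable φ) {w₁ : α → ℝ} {w₂ : β → ℝ}
    (h₁ : Measurable w₁) (h₂ : Measurable w₂) (p₁ : ∀ x, 0 ≤ w₁ x) (p₂ : ∀ᵐ x ∂ν, 0 ≤ w₂ x)
    (h : ∀ G : β → ℝ≥0∞, Measurable G →
      ∫⁻ x, ENNReal.ofReal (w₁ x) * G (φ x) ∂μ = ∫⁻ y, ENNReal.ofReal (w₂ y) * G y ∂ν)
    (G : β → ℂ) (hG : Measurable G) (hi : Integrable (fun y => (w₂ y : ℂ) * G y) ν) :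
    Integrable (fun x => (w₁ x : ℂ) * G (φ x)) μ ∧
      ∫ x, (w₁ x : ℂ) * G (φ x) ∂μ = ∫ y, (w₂ y : ℂ) * G y ∂ν := by
  have m1 : Measurable fun x => (w₁ x).toNNReal := h₁.real_toNNReal
  have m2 : Measurable fun x => (w₂ x).toNNReal := h₂.real_toNNReal
  have hmap : (μ.withDensity fun x => ((w₁ x).toNNReal : ℝ≥0∞)).map φ =
      ν.withDensity fun x => ((w₂ x).toNNReal : ℝ≥0∞) := by
    apply Measure.ext_of_lintegral
    intro G hG
    rw [lintegral_map hG hφ, lintegral_withDensity_eq_lintegral_mul _ (by fun_prop) hG,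
      lintegral_withDensity_eq_lintegral_mul _ (by fun_prop) (by fun_prop)]
    exact h G hG
  have e1 : (fun x => (w₁ x : ℂ) * G (φ x)) = fun x => (w₁ x).toNNReal • G (φ x) := by
    ext x; rw [NNReal.smul_def, Real.coe_toNNReal _ (p₁ x), Complex.real_smul]
  have e2 : (fun x => (w₂ x : ℂ) * G x) =ᵐ[ν] fun x => (w₂ x).toNNReal • G x := by
    filter_upwards [p₂] with x hx
    rw [NNReal.smul_def, Real.coe_toNNReal _ hx, Complex.real_smul]
  rw [e1, integral_congr_ae e2]
  have hi2 : Integrable G (ν.withDensity fun x => ((w₂ x).toNNReal : ℝ≥0∞)) :=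
    (integrable_withDensity_iff_integrable_smul m2).2 (hi.congr e2)
  constructor
  · rw [← hmap] at hi2
    exact (integrable_withDensity_iff_integrable_smul m1).1 (hi2.comp_measurable hφ)
  · rw [← integral_withDensity_eq_integral_smul m1, ← integral_withDensity_eq_integral_smul m2,
      ← hmap, integral_map hφ.aemeasurable hG.aestronglyMeasurable]

end Pool.Agent.MP_e4fe74_an

end
end

section

noncomputable section

namespace Pool.Agent.MP_e4fe74_an

open MeasureTheory Set Real Filter Topology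
open scoped ENNReal

lemma integral_logistic {z : ℂ} (h0 : 0 < z.re) (h1 : z.re < 1) :
    ∫ w : ℝ, Complex.exp (z * w) / (1 + Complex.exp w) = π / Complex.sin (π * z) := by
  rw [← Complex.Gamma_mul_Gamma_one_sub,
    Complex.Gamma_mul_Gamma_eq_betaIntegral h0 (by simpa using h1)]
  simp only [add_sub_cancel, Complex.Gamma_one, one_mul, Complex.betaIntegral]
  rw [intervalIntegral.integral_of_le zero_le_one, integral_Ioc_eq_integral_Ioo,
    ← Real.range_sigmoid, ← image_univ, integral_image_eq_integral_abs_deriv_smul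
      MeasurableSet.univ (fun w _ => (hasDerivAt_sigmoid w).hasDerivWithinAt)
      sigmoid_injective.injOn, Measure.restrict_univ]
  congr 1
  ext w
  have hp := sigmoid_pos w
  have hq : 0 < 1 - sigmoid w := by linarith [sigmoid_lt_one w]
  have hw := exp_pos w
  have e1 : sigmoid w = exp (w - log (1 + exp w)) := by
    rw [exp_sub, exp_log (by positivity), sigmoid_def, exp_neg]; field_simp; ring
  have e2 : 1 - sigmoid w = exp (- log (1 + exp w)) := by
    rw [exp_neg, exp_log (by positivity), sigmoid_def, exp_neg]; field_simp; ring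
  have e3 : (1 : ℂ) - (sigmoid w : ℂ) = ((1 - sigmoid w : ℝ) : ℂ) := by push_cast; ring
  have e4 : (1 : ℂ) + Complex.exp w = Complex.exp (log (1 + exp w) : ℝ) := by
    rw [← Complex.ofReal_exp (log _), exp_log (by positivity)]; push_cast; ring
  rw [abs_of_pos (mul_pos hp hq), e3, e2, e4]
  rw [e1]
  rw [Complex.cpow_def_of_ne_zero (by exact_mod_cast (exp_pos _).ne'),
    Complex.cpow_def_of_ne_zero (by exact_mod_cast (exp_pos _).ne'),
    ← Complex.ofReal_log (exp_pos _).le, ← Complex.ofReal_log (exp_pos _).le, log_exp, log_exp,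
    Complex.real_smul, ← exp_add, Complex.ofReal_exp, ← Complex.exp_add, ← Complex.exp_add,
    ← Complex.exp_sub]
  congr 1
  push_cast
  ring

/-- The Abel transform of the kernel. -/
def gk (k v : ℝ) : ℝ := k / π / cosh (k * v)

lemma gk_pos {k : ℝ} (hk : 0 < k) (v : ℝ) : 0 < gk k v := by
  unfold gk; have := cosh_pos (k * v); positivity

lemma gk_neg (k v : ℝ) : gk k (-v) = gk k v := by simp [gk]

lemma gk_abs (k v : ℝ) : gk k |v| = gk k v := by
  rcases abs_choice v with h | h <;> rw [h]; exact gk_neg k v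

lemma continuous_gk (k : ℝ) : Continuous (gk k) := by
  unfold gk
  exact continuous_const.div (by fun_prop) fun v => (cosh_pos _).ne'

lemma gk_le {k : ℝ} (hk : 0 < k) (v : ℝ) : gk k v ≤ 2 * k / π * exp (-(k * |v|)) := by
  unfold gk
  have h1 : exp (k * |v|) ≤ 2 * cosh (k * v) := by
    rw [← cosh_abs (k * v), abs_mul, abs_of_pos hk, cosh_eq]
    linarith [exp_pos (-(k * |v|))]
  have h2 := cosh_pos (k * v)
  have h3 := exp_pos (k * |v|)
  rw [exp_neg, div_le_iff₀ h2]
  calc k / π = k / π * ((exp (k * |v|))⁻¹ * exp (k * |v|)) := by field_simp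
    _ ≤ k / π * ((exp (k * |v|))⁻¹ * (2 * cosh (k * v))) := by gcongr
    _ = _ := by ring

lemma integrable_exp_neg_mul_abs {c : ℝ} (hc : 0 < c) :
    Integrable (fun v : ℝ => exp (-(c * |v|))) := by
  rw [← integrableOn_univ, ← Iic_union_Ioi (a := (0 : ℝ)), integrableOn_union]
  constructor
  · refine (integrableOn_exp_mul_Iic hc 0).congr_fun (fun v hv => ?_) measurableSet_Iic
    simp only; rw [abs_of_nonpos hv]; ring_nf
  · refine (integrableOn_exp_mul_Ioi (a := -c) (by linarith) 0).congr_fun (fun v hv => ?_)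
      measurableSet_Ioi
    simp only; rw [abs_of_pos hv]; ring_nf

lemma integrable_gk_mul_exp_abs {k c : ℝ} (hk : 0 < k) (hc : c < k) :
    Integrable (fun v : ℝ => gk k v * exp (c * |v|)) := by
  have hg := continuous_gk k
  refine ((integrable_exp_neg_mul_abs (c := k - c) (by linarith)).const_mul (2 * k / π)).mono'
    (by fun_prop) (Eventually.of_forall fun v => ?_)
  rw [Real.norm_of_nonneg (mul_pos (gk_pos hk v) (exp_pos _)).le]
  calc gk k v * exp (c * |v|) ≤ 2 * k / π * exp (-(k * |v|)) * exp (c * |v|) := by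
        gcongr; exact gk_le hk v
    _ = _ := by rw [mul_assoc, ← exp_add]; ring_nf

lemma integrable_gk_mul_cexp {k : ℝ} (hk : 0 < k) {z : ℂ} (hz : |z.re| < k) :
    Integrable (fun v : ℝ => (gk k v : ℂ) * Complex.exp (z * v)) := by
  have hg := continuous_gk k
  refine (integrable_gk_mul_exp_abs hk hz).mono' (by fun_prop) (Eventually.of_forall fun v => ?_)
  rw [norm_mul, Complex.norm_real, Real.norm_of_nonneg (gk_pos hk v).le, Complex.norm_exp]
  gcongr
  · exact (gk_pos hk v).le
  · simp only [Complex.mul_re, Complex.ofReal_re, Complex.ofReal_im, mul_zero, sub_zero]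
    rw [← abs_mul]; exact le_abs_self _

lemma integral_gk_mul_cexp {k : ℝ} (hk : 0 < k) {z : ℂ} (hz : |z.re| < k) :
    ∫ v : ℝ, (gk k v : ℂ) * Complex.exp (z * v) = 1 / Complex.cos (π * z / (2 * k)) := by
  have hk' : (k : ℂ) ≠ 0 := by exact_mod_cast hk.ne'
  have hpi : (π : ℂ) ≠ 0 := by exact_mod_cast pi_ne_zero
  obtain ⟨hz1, hz2⟩ := abs_lt.1 hz
  have hre : (1 / 2 + z / (2 * k) : ℂ).re = 1 / 2 + z.re / (2 * k) := by
    have : (2 * k : ℂ) = ((2 * k : ℝ) : ℂ) := by push_cast; ring
    rw [this, Complex.add_re, Complex.div_ofReal_re]; simp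
  have h := integral_logistic (z := 1 / 2 + z / (2 * k))
    (by rw [hre]; have : -(1 / 2) < z.re / (2 * k) := by
          rw [lt_div_iff₀ (by positivity)]; linarith
        linarith)
    (by rw [hre]; have : z.re / (2 * k) < 1 / 2 := by
          rw [div_lt_iff₀ (by positivity)]; linarith
        linarith)
  have h2 := Measure.integral_comp_mul_left
    (fun w : ℝ => Complex.exp ((1 / 2 + z / (2 * k)) * w) / (1 + Complex.exp w)) (2 * k)
  rw [h] at h2
  have h3 : ∀ v : ℝ, (gk k v : ℂ) * Complex.exp (z * v) = (2 * k / π) *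
      (Complex.exp ((1 / 2 + z / (2 * k)) * ((2 * k * v : ℝ) : ℂ)) /
        (1 + Complex.exp ((2 * k * v : ℝ) : ℂ))) := by
    intro v
    have a1 : (1 / 2 + z / (2 * k)) * ((2 * k * v : ℝ) : ℂ) = k * v + z * v := by
      push_cast; field_simp
    have a2 : Complex.exp ((2 * k * v : ℝ) : ℂ) = Complex.exp (k * v) ^ 2 := by
      rw [← Complex.exp_nat_mul]; push_cast; ring_nf
    have a3 : Complex.exp (k * v) = ((exp (k * v) : ℝ) : ℂ) := by push_cast; rfl
    rw [a1, a2, Complex.exp_add, a3, gk, cosh_eq, exp_neg]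
    have a4 := exp_pos (k * v)
    have a5 : ((exp (k * v) : ℝ) : ℂ) ≠ 0 := by exact_mod_cast a4.ne'
    have a6 : (1 : ℂ) + ((exp (k * v) : ℝ) : ℂ) ^ 2 ≠ 0 := by
      have : (0 : ℝ) < 1 + exp (k * v) ^ 2 := by positivity
      exact_mod_cast this.ne'
    generalize exp (k * v) = E at *
    push_cast
    have a7 : (E : ℂ) + (E : ℂ)⁻¹ = (1 + (E : ℂ) ^ 2) / E := by field_simp; ring
    rw [a7]
    field_simp
  simp_rw [h3]
  rw [integral_const_mul, h2, abs_of_pos (by positivity), Complex.real_smul]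
  have : (π : ℂ) * (1 / 2 + z / (2 * k)) = π * z / (2 * k) + π / 2 := by ring
  rw [this, Complex.sin_add_pi_div_two]
  push_cast
  field_simp

end Pool.Agent.MP_e4fe74_an

end
end

section

noncomputable section

namespace Pool.Agent.MP_e4fe74_an

open MeasureTheory Set Real Filter Topology
open scoped ENNReal

variable {E : Type} [NormedAddCommGroup E] [InnerProductSpace ℝ E] [FiniteDimensional ℝ E]
  [MeasurableSpace E] [BorelSpace E] [Fact (Module.finrank ℝ E = 3)]

set_option linter.unusedSectionVars false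

/-- The radial kernel as a function of the distance. -/
def kr (k r : ℝ) : ℝ := k ^ 2 / (2 * π ^ 2) * (sinh (k * r) / cosh (k * r) ^ 2) / sinh r

/-- The radial kernel as a function of the hyperbolic cosine of the distance. -/
def kt (k t : ℝ) : ℝ := max (kr k (arcosh t)) 0

lemma kt_nonneg (k t : ℝ) : 0 ≤ kt k t := le_max_right _ _

lemma measurable_kt (k : ℝ) : Measurable (kt k) := by
  have := measurable_arcosh
  unfold kt kr
  fun_prop

lemma kt_cosh {k r : ℝ} (hk : 0 < k) (hr : 0 ≤ r) : kt k (cosh r) = kr k r := by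
  unfold kt
  rw [arcosh_cosh hr, max_eq_left]
  unfold kr
  have h1 : 0 ≤ sinh (k * r) := sinh_nonneg_iff.2 (by positivity)
  have h2 : 0 ≤ sinh r := sinh_nonneg_iff.2 hr
  positivity

lemma hasDerivAt_gk (k r : ℝ) : HasDerivAt (fun r => -(gk k r / (2 * π)))
    (k ^ 2 / (2 * π ^ 2) * (sinh (k * r) / cosh (k * r) ^ 2)) r := by
  have h1 : HasDerivAt (fun r => cosh (k * r)) (sinh (k * r) * k) r := by
    simpa using ((hasDerivAt_id r).const_mul k).cosh
  have h2 := (((hasDerivAt_const r (k / π)).div h1 (cosh_pos _).ne').div_const (2 * π)).neg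
  refine h2.congr_deriv ?_
  have := cosh_pos (k * r)
  field_simp
  ring

lemma tendsto_gk {k : ℝ} (hk : 0 < k) : Tendsto (gk k) atTop (𝓝 0) := by
  have h1 : Tendsto (fun v : ℝ => 2 * k / π * exp (-(k * |v|))) atTop (𝓝 (2 * k / π * 0)) := by
    apply Tendsto.const_mul
    apply tendsto_exp_atBot.comp
    apply tendsto_neg_atTop_atBot.comp
    exact (tendsto_abs_atTop_atTop).const_mul_atTop hk
  rw [mul_zero] at h1
  exact squeeze_zero (fun v => (gk_pos hk v).le) (gk_le hk) h1

lemma lintegral_kt_Ioi {k a : ℝ} (hk : 0 < k) (ha : 0 ≤ a) :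
    ∫⁻ t in Ioi (cosh a), ENNReal.ofReal (kt k t) = ENNReal.ofReal (gk k a / (2 * π)) := by
  rw [lintegral_cosh_subst a ha]
  have hpos : ∀ r ∈ Ioi a, 0 ≤ k ^ 2 / (2 * π ^ 2) * (sinh (k * r) / cosh (k * r) ^ 2) := by
    intro r hr
    have : 0 ≤ r := ha.trans (le_of_lt hr)
    have h1 : 0 ≤ sinh (k * r) := sinh_nonneg_iff.2 (by positivity)
    positivity
  have hlim : Tendsto (fun r => -(gk k r / (2 * π))) atTop (𝓝 (-(0 / (2 * π)))) :=
    ((tendsto_gk hk).div_const _).neg
  have h1 := integral_Ioi_of_hasDerivAt_of_nonneg' (fun r _ => hasDerivAt_gk k r) hpos hlim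
  have h2 := integrableOn_Ioi_deriv_of_nonneg' (fun r _ => hasDerivAt_gk k r) hpos hlim
  have h3 := ofReal_integral_eq_lintegral_ofReal h2
    ((ae_restrict_iff' measurableSet_Ioi).2 (Eventually.of_forall hpos))
  rw [h1] at h3
  simp only [zero_div, neg_zero, zero_sub, neg_neg] at h3
  rw [h3]
  apply setLIntegral_congr_fun measurableSet_Ioi
  intro r hr
  have hr0 : 0 < r := lt_of_le_of_lt ha hr
  have hs : 0 < sinh r := sinh_pos_iff.2 hr0
  simp only
  rw [kt_cosh hk hr0.le, ← ENNReal.ofReal_mul hs.le, kr]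
  congr 1
  field_simp

lemma gk_anti {k a b : ℝ} (hk : 0 < k) (hab : |a| ≤ |b|) : gk k b ≤ gk k a := by
  unfold gk
  apply div_le_div_of_nonneg_left (by positivity) (cosh_pos _)
  rw [cosh_le_cosh, abs_mul, abs_mul]; gcongr

lemma lintegral_kt_Ioo {k a b : ℝ} (hk : 0 < k) (hab : |a| ≤ |b|) :
    ∫⁻ t in Ioo (cosh a) (cosh b), ENNReal.ofReal (kt k t) =
      ENNReal.ofReal ((gk k a - gk k b) / (2 * π)) := by
  have h1 := lintegral_kt_Ioi hk (abs_nonneg a)
  have h2 := lintegral_kt_Ioi hk (abs_nonneg b)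
  rw [cosh_abs, gk_abs] at h1 h2
  have hc : cosh a ≤ cosh b := cosh_le_cosh.2 hab
  rw [← Ioc_union_Ioi_eq_Ioi hc, lintegral_union measurableSet_Ioi Ioc_disjoint_Ioi_same, h2] at h1
  rw [setLIntegral_congr Ioo_ae_eq_Ioc, sub_div, ENNReal.ofReal_sub _ (by
    have := gk_pos hk b; positivity), ← h1, ENNReal.add_sub_cancel_right ENNReal.ofReal_ne_top]

/-- Horospherical push-forward of the kernel. -/
lemma lintegral_kt_horo {k : ℝ} (hk : 0 < k) {e : E} (he : ‖e‖ = 1) (G : ℝ → ℝ≥0∞)
    (hG : Measurable G) :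
    ∫⁻ x : E, ENNReal.ofReal (kt k (x0 x)) * G (log (x0 x - inner ℝ e x)) ∂(hypVol E) =
      ∫⁻ v : ℝ, ENNReal.ofReal (exp v * gk k v) * G v := by
  have hk' := measurable_kt k
  have := lintegral_cyl he (fun q => ENNReal.ofReal (kt k q.1) * G (log (q.1 - q.2)))
    (by fun_prop)
  simp only at this
  rw [this, lintegral_regD_horo _ (by fun_prop), ← lintegral_const_mul' _ _ ENNReal.ofReal_ne_top]
  congr 1
  ext v
  simp only [sub_sub_cancel, log_exp]
  rw [lintegral_mul_const _ (by fun_prop), ← cosh_abs, lintegral_kt_Ioi hk (abs_nonneg v), gk_abs,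
    ← mul_assoc, ← mul_assoc, ← ENNReal.ofReal_mul (by positivity),
    ← ENNReal.ofReal_mul (by positivity)]
  congr 2
  field_simp

lemma lintegral_affine (A B c : ℝ) (hB : 0 < B) (G : ℝ → ℝ≥0∞) :
    ∫⁻ s in Ioo (-c) c, G (A - B * s) =
      ENNReal.ofReal B⁻¹ * ∫⁻ u in Ioo (A - B * c) (A + B * c), G u := by
  have himg : (fun s => A - B * s) '' Ioo (-c) c = Ioo (A - B * c) (A + B * c) := by
    ext u
    simp only [mem_image, mem_Ioo]
    constructor
    · rintro ⟨s, ⟨h1, h2⟩, rfl⟩
      constructor <;> nlinarith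
    · rintro ⟨h1, h2⟩
      refine ⟨(A - u) / B, ⟨?_, ?_⟩, by field_simp; ring⟩
      · rw [lt_div_iff₀ hB]; linarith
      · rw [div_lt_iff₀ hB]; linarith
  have hd : ∀ s ∈ Ioo (-c) c, HasDerivWithinAt (fun s => A - B * s) (-B) (Ioo (-c) c) s := by
    intro s _
    simpa using (((hasDerivAt_id s).const_mul B).const_sub A).hasDerivWithinAt
  have hinj : InjOn (fun s => A - B * s) (Ioo (-c) c) := by
    intro a _ b _ h
    simp only at h
    exact mul_left_cancel₀ hB.ne' (by linarith)
  rw [← himg, lintegral_image_eq_lintegral_abs_deriv_mul measurableSet_Ioo hd hinj,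
    lintegral_const_mul' _ _ ENNReal.ofReal_ne_top, ← mul_assoc,
    ← ENNReal.ofReal_mul (by positivity), abs_neg, abs_of_pos hB, inv_mul_cancel₀ hB.ne']
  simp

lemma sinh_arcosh_x0 (y : E) : sinh (arcosh (x0 y)) = ‖y‖ := by
  rw [sinh_arcosh (one_le_x0 y), x0_sq]; simp

/-- Radial push-forward of the kernel centred at `y`. -/
lemma lintegral_kt_rad {k : ℝ} (hk : 0 < k) {y : E} (hy : y ≠ 0) (G : ℝ → ℝ≥0∞)
    (hG : Measurable G) :
    ∫⁻ x : E, ENNReal.ofReal (kt k (lor (lift y) (lift x))) * G (arcosh (x0 x)) ∂(hypVol E) =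
      ∫⁻ r in Ioi (0 : ℝ), ENNReal.ofReal (sinh r * (gk k (r - arcosh (x0 y)) -
        gk k (r + arcosh (x0 y))) / sinh (arcosh (x0 y))) * G r := by
  have hk' := measurable_kt k
  have ha := measurable_arcosh
  have hn : 0 < ‖y‖ := norm_pos_iff.2 hy
  set s := arcosh (x0 y) with hs
  have hcs : cosh s = x0 y := cosh_arcosh (one_le_x0 y)
  have hss : sinh s = ‖y‖ := sinh_arcosh_x0 y
  have hs0 : 0 ≤ s := arcosh_nonneg (one_le_x0 y)
  have he : ‖(‖y‖⁻¹ • y : E)‖ = 1 := by
    rw [norm_smul, norm_inv, norm_norm, inv_mul_cancel₀ hn.ne']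
  have := lintegral_cyl he
    (fun q => ENNReal.ofReal (kt k (cosh s * q.1 - sinh s * q.2)) * G (arcosh q.1)) (by fun_prop)
  have e1 : ∀ x : E, lor (lift y) (lift x) =
      cosh s * x0 x - sinh s * inner ℝ (‖y‖⁻¹ • y) x := by
    intro x
    rw [lor_lift_lift, hcs, hss, inner_smul_left]
    simp only [conj_trivial]
    field_simp
  simp_rw [e1]
  simp only at this
  rw [this, lintegral_regD_polar _ (by fun_prop), ← lintegral_const_mul' _ _ ENNReal.ofReal_ne_top]
  apply setLIntegral_congr_fun measurableSet_Ioi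
  intro r hr
  have hr0 : 0 < r := hr
  have hr' : 0 < sinh r := sinh_pos_iff.2 hr
  simp only [arcosh_cosh hr0.le]
  rw [lintegral_mul_const _ (by fun_prop),
    lintegral_affine _ _ _ (hss ▸ hn) (fun u => ENNReal.ofReal (kt k u))]
  have c1 : cosh s * cosh r - sinh s * sinh r = cosh (r - s) := by rw [cosh_sub]; ring
  have c2 : cosh s * cosh r + sinh s * sinh r = cosh (r + s) := by rw [cosh_add]; ring
  have hab : |r - s| ≤ |r + s| := by
    rw [abs_of_nonneg (by linarith : 0 ≤ r + s), abs_le]; constructor <;> linarith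
  have hg := gk_anti hk hab
  rw [c1, c2, lintegral_kt_Ioo hk hab, ← mul_assoc, ← mul_assoc, ← mul_assoc,
    ← ENNReal.ofReal_mul (by positivity), ← ENNReal.ofReal_mul (by positivity),
    ← ENNReal.ofReal_mul (by rw [hss]; positivity)]
  congr 2
  rw [hss]
  field_simp

end Pool.Agent.MP_e4fe74_an

end
end

section

noncomputable section

namespace Pool.Agent.MP_e4fe74_an

open MeasureTheory Set Real Filter Topology
open scoped ENNReal

variable {E : Type} [NormedAddCommGroup E] [InnerProductSpace ℝ E] [FiniteDimensional ℝ E]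
  [MeasurableSpace E] [BorelSpace E] [Fact (Module.finrank ℝ E = 3)]

set_option linter.unusedSectionVars false

/-- The two-point kernel. -/
def KK (k : ℝ) (y x : E) : ℝ := kt k (lor (lift y) (lift x))

lemma KK_nonneg (k : ℝ) (y x : E) : 0 ≤ KK k y x := kt_nonneg _ _

lemma KK_comm (k : ℝ) (y x : E) : KK k y x = KK k x y := by unfold KK; rw [lor_comm]

lemma measurable_KK (k : ℝ) : Measurable fun p : E × E => KK k p.1 p.2 :=
  (measurable_kt k).comp continuous_lor_lift.measurable

lemma measurable_KK_right (k : ℝ) (y : E) : Measurable fun x => KK k y x :=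
  (measurable_kt k).comp (continuous_lor.comp (continuous_const.prodMk continuous_lift)).measurable

lemma IsLorentz.KK_act {g : (ℝ × E) →ₗ[ℝ] (ℝ × E)} (hg : IsLorentz g) (k : ℝ) (y x : E) :
    KK k (act g y) (act g x) = KK k y x := by unfold KK; rw [hg.lor_act]

lemma act_swap_zero (z : E) : act (swap z) 0 = z := by
  unfold act; rw [lift_zero, swap_origin]; rfl

lemma act_swap_self (z : E) : act (swap z) z = 0 := by
  unfold act; rw [swap_lift]

lemma act_swap_swap (z x : E) : act (swap z) (act (swap z) x) = x := by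
  unfold act
  change (swap z (lift (act (swap z) x))).2 = x
  rw [(isLorentz_swap z).lift_act, swap_swap]; rfl

lemma KK_zero (k : ℝ) (x : E) : KK k 0 x = kt k (x0 x) := by
  unfold KK; rw [lift_zero, lor_origin_left]; rfl

lemma lor_null_pos {b : E} (hb : ‖b‖ = 1) (x : E) : 0 < lor (lift x) (1, b) := by
  have h1 := real_inner_le_norm x b
  have h2 := norm_lt_x0 x
  simp only [lor, lift_fst, lift_snd, mul_one]
  rw [hb] at h1; linarith

lemma IsLorentz.measurableEmbedding {g : (ℝ × E) →ₗ[ℝ] (ℝ × E)} (hg : IsLorentz g) :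
    MeasurableEmbedding (act g) :=
  (continuous_act g).measurableEmbedding hg.act_injective

lemma eigen_origin {k : ℝ} (hk : 0 < k) {e : E} (he : ‖e‖ = 1) {s : ℂ} (hs : |(s + 1).re| < k) :
    Integrable (fun x => (kt k (x0 x) : ℂ) * ((lor (lift x) (1, e) : ℝ) : ℂ) ^ s) (hypVol E) ∧
    ∫ x, (kt k (x0 x) : ℂ) * ((lor (lift x) (1, e) : ℝ) : ℂ) ^ s ∂(hypVol E) =
      1 / Complex.cos (π * (s + 1) / (2 * k)) := by
  have hx0 : Measurable (x0 : E → ℝ) := continuous_x0.measurable
  have hg := continuous_gk k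
  have e2 : (fun v : ℝ => ((exp v * gk k v : ℝ) : ℂ) * Complex.exp (s * v)) =
      fun v : ℝ => (gk k v : ℂ) * Complex.exp ((s + 1) * v) := by
    ext v; push_cast; rw [add_mul, Complex.exp_add]; ring_nf
  have := transfer (μ := (hypVol E)) (ν := volume) (φ := fun x : E => log (x0 x - inner ℝ e x))
    (by fun_prop) (w₁ := fun x => kt k (x0 x)) (w₂ := fun v => exp v * gk k v)
    ((measurable_kt k).comp hx0) (by fun_prop) (fun x => kt_nonneg _ _)
    (Eventually.of_forall fun v => (mul_pos (exp_pos v) (gk_pos hk v)).le)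
    (lintegral_kt_horo hk he) (fun v : ℝ => Complex.exp (s * v)) (by fun_prop)
    (by rw [e2]; exact integrable_gk_mul_cexp hk hs)
  rw [e2, integral_gk_mul_cexp hk hs] at this
  have e1 : ∀ x : E, ((lor (lift x) (1, e) : ℝ) : ℂ) ^ s =
      Complex.exp (s * (log (x0 x - inner ℝ e x) : ℝ)) := by
    intro x
    have hp := lor_null_pos he x
    have : lor (lift x) (1, e) = x0 x - inner ℝ e x := by
      simp [lor, real_inner_comm]
    rw [Complex.cpow_def_of_ne_zero (by exact_mod_cast hp.ne'), ← Complex.ofReal_log hp.le, this,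
      mul_comm]
  simp_rw [e1]
  exact this

/-- The Poisson kernel powers are eigenfunctions. -/
lemma eigen {k : ℝ} (hk : 0 < k) {b : E} (hb : ‖b‖ = 1) {s : ℂ} (hs : |(s + 1).re| < k) (y : E) :
    Integrable (fun x => (KK k y x : ℂ) * ((lor (lift x) (1, b) : ℝ) : ℂ) ^ s) (hypVol E) ∧
    ∫ x, (KK k y x : ℂ) * ((lor (lift x) (1, b) : ℝ) : ℂ) ^ s ∂(hypVol E) =
      1 / Complex.cos (π * (s + 1) / (2 * k)) * ((lor (lift y) (1, b) : ℝ) : ℂ) ^ s := by
  have hg := isLorentz_swap y
  set N := swap y (1, b) with hN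
  set c := lor (lift y) (1, b) with hc
  have hc0 : 0 < c := lor_null_pos hb y
  have hN1 : N.1 = c := by
    rw [← lor_origin_left, hN, ← lor_swap, swap_origin]
  have hNN : lor N N = 0 := by
    rw [hN, hg.1]; simp [lor, hb]
  have hN2 : ‖N.2‖ = c := by
    simp only [lor, real_inner_self_eq_norm_sq, hN1] at hNN
    rw [← pow_left_inj₀ (norm_nonneg _) hc0.le two_ne_zero]; linarith
  have he : ‖(c⁻¹ • N.2 : E)‖ = 1 := by
    rw [norm_smul, hN2, norm_inv, Real.norm_of_nonneg hc0.le, inv_mul_cancel₀ hc0.ne']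
  have hNe : N = c • ((1 : ℝ), c⁻¹ • N.2) := by
    refine Prod.ext (by simp [hN1]) ?_
    simp [smul_smul, mul_inv_cancel₀ hc0.ne']
  obtain ⟨h1, h2⟩ := eigen_origin hk he hs
  have key : (fun x => (KK k y x : ℂ) * ((lor (lift x) (1, b) : ℝ) : ℂ) ^ s) ∘ act (swap y) =
      fun x => (kt k (x0 x) : ℂ) * ((lor (lift x) (1, c⁻¹ • N.2) : ℝ) : ℂ) ^ s * (c : ℂ) ^ s := by
    ext x
    simp only [Function.comp_apply]
    have a1 : KK k y (act (swap y) x) = kt k (x0 x) := by
      conv_lhs => rw [← act_swap_zero y]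
      rw [act_swap_zero y]
      nth_rw 1 [← act_swap_zero y]
      rw [hg.KK_act, KK_zero]
    have a2 : lor (lift (act (swap y) x)) (1, b) = lor (lift x) (1, c⁻¹ • N.2) * c := by
      rw [hg.lift_act, lor_swap, ← hN]
      conv_lhs => rw [hNe, lor_smul_right]
      ring
    rw [a1, a2, Complex.ofReal_mul, Complex.mul_cpow_ofReal_nonneg (lor_null_pos he x).le hc0.le,
      mul_assoc]
  constructor
  · rw [← hg.measurePreserving.integrable_comp_emb hg.measurableEmbedding, key]
    exact h1.mul_const _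
  · rw [← hg.measurePreserving.integral_comp hg.measurableEmbedding]
    change ∫ x, ((fun x => (KK k y x : ℂ) * ((lor (lift x) (1, b) : ℝ) : ℂ) ^ s) ∘
      act (swap y)) x ∂(hypVol E) = _
    rw [key, integral_mul_const, h2]

lemma eigen_real {k : ℝ} (hk : 0 < k) {b : E} (hb : ‖b‖ = 1) {s : ℝ} (hs : |s + 1| < k) (y : E) :
    ∫⁻ x, ENNReal.ofReal (KK k y x) * ENNReal.ofReal (lor (lift x) (1, b) ^ s) ∂(hypVol E) =
      ENNReal.ofReal (1 / cos (π * (s + 1) / (2 * k))) *
        ENNReal.ofReal (lor (lift y) (1, b) ^ s) := by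
  obtain ⟨h1, h2⟩ := eigen hk hb (s := s) (by simpa using hs) y
  have e1 : ∀ x, (KK k y x : ℂ) * ((lor (lift x) (1, b) : ℝ) : ℂ) ^ (s : ℂ) =
      ((KK k y x * lor (lift x) (1, b) ^ s : ℝ) : ℂ) := by
    intro x
    rw [Complex.ofReal_mul, Complex.ofReal_cpow (lor_null_pos hb x).le]
  simp_rw [e1] at h1 h2
  rw [integral_complex_ofReal, ← Complex.ofReal_cpow (lor_null_pos hb y).le] at h2
  have h3 : ∫ x, KK k y x * lor (lift x) (1, b) ^ s ∂(hypVol E) =
      1 / cos (π * (s + 1) / (2 * k)) * lor (lift y) (1, b) ^ s := by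
    exact_mod_cast h2
  have h4 : Integrable (fun x => KK k y x * lor (lift x) (1, b) ^ s) (hypVol E) := by
    simpa using h1.re
  have hcos : 0 < cos (π * (s + 1) / (2 * k)) := by
    obtain ⟨a1, a2⟩ := abs_lt.1 hs
    apply cos_pos_of_mem_Ioo
    constructor
    · rw [lt_div_iff₀ (by positivity)]; nlinarith [pi_pos]
    · rw [div_lt_iff₀ (by positivity)]; nlinarith [pi_pos]
  rw [← ENNReal.ofReal_mul (by positivity), ← h3, ofReal_integral_eq_lintegral_ofReal h4
    (Eventually.of_forall fun x => mul_nonneg (KK_nonneg _ _ _)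
      (rpow_nonneg (lor_null_pos hb x).le _))]
  congr 1
  ext x
  rw [ENNReal.ofReal_mul (KK_nonneg _ _ _)]

/-- Hyperbolic distance. -/
def dst (x z : E) : ℝ := arcosh (lor (lift x) (lift z))

lemma dst_nonneg (x z : E) : 0 ≤ dst x z := arcosh_nonneg (one_le_lor_lift x z)

lemma dst_comm (x z : E) : dst x z = dst z x := by unfold dst; rw [lor_comm]

lemma measurable_dst : Measurable fun p : E × E => dst p.1 p.2 :=
  measurable_arcosh.comp continuous_lor_lift.measurable

lemma IsLorentz.dst_act {g : (ℝ × E) →ₗ[ℝ] (ℝ × E)} (hg : IsLorentz g) (y x : E) :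
    dst (act g y) (act g x) = dst y x := by unfold dst; rw [hg.lor_act]

lemma dst_zero (x : E) : dst x 0 = arcosh (x0 x) := by
  unfold dst; rw [lift_zero, lor_origin_right]; rfl

/-- The two-point function attached to a profile `F`. -/
def UU (F : ℝ → ℂ) (x z : E) : ℂ := F (dst x z) / (sinh (dst x z) : ℝ)

lemma measurable_UU {F : ℝ → ℂ} (hF : Measurable F) :
    Measurable fun p : E × E => UU F p.1 p.2 := by
  have := measurable_dst (E := E)
  unfold UU; fun_prop

/-- One-dimensional convolution with the Abel transform of the kernel. -/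
def cv (k : ℝ) (F : ℝ → ℂ) (s : ℝ) : ℂ := ∫ r, (gk k (r - s) : ℂ) * F r

lemma integrable_cv {k c C : ℝ} (hk : 0 < k) (hc0 : 0 ≤ c) (hc : c < k) {F : ℝ → ℂ}
    (hF : Measurable F) (hb : ∀ r, ‖F r‖ ≤ C * exp (c * |r|)) (s : ℝ) :
    Integrable fun r => (gk k (r - s) : ℂ) * F r := by
  have hg := continuous_gk k
  have h1 := ((integrable_gk_mul_exp_abs hk hc).comp_sub_right s).const_mul (C * exp (c * |s|))
  refine h1.mono' (by fun_prop) (Eventually.of_forall fun r => ?_)
  have hC : 0 ≤ C := by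
    have := (norm_nonneg _).trans (hb 0); simpa using this
  have hp := gk_pos hk (r - s)
  rw [norm_mul, Complex.norm_real, Real.norm_of_nonneg hp.le]
  have h2 : exp (c * |r|) ≤ exp (c * |s|) * exp (c * |r - s|) := by
    rw [← exp_add, exp_le_exp, ← mul_add]
    gcongr
    have := abs_add_le s (r - s)
    simpa using this
  calc gk k (r - s) * ‖F r‖ ≤ gk k (r - s) * (C * (exp (c * |s|) * exp (c * |r - s|))) := by
        gcongr; exact (hb r).trans (by gcongr)
    _ = _ := by ring

lemma radial_conv {k c C : ℝ} (hk : 0 < k) (hc0 : 0 ≤ c) (hc : c < k) {F : ℝ → ℂ}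
    (hF : Measurable F) (hodd : ∀ r, F (-r) = -F r) (hb : ∀ r, ‖F r‖ ≤ C * exp (c * |r|))
    {y z : E} (hyz : y ≠ z) :
    Integrable (fun x => (KK k y x : ℂ) * UU F x z) (hypVol E) ∧
      ∫ x, (KK k y x : ℂ) * UU F x z ∂(hypVol E) = UU (cv k F) y z := by
  have hg := isLorentz_swap z
  set y' := act (swap z) y with hy'
  have hy0 : y' ≠ 0 := by
    intro h
    apply hyz
    rw [← act_swap_swap z y, ← hy', h, act_swap_zero]
  set s := arcosh (x0 y') with hs
  have hsd : dst y z = s := by
    rw [hs, ← dst_zero, hy', ← act_swap_self z, hg.dst_act]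
  have hss : 0 < sinh s := by rw [hs, sinh_arcosh_x0]; exact norm_pos_iff.2 hy0
  have hs0 : 0 ≤ s := arcosh_nonneg (one_le_x0 _)
  have hx0 : Measurable (x0 : E → ℝ) := continuous_x0.measurable
  have hga := continuous_gk k
  have i1 := integrable_cv hk hc0 hc hF hb s
  have i2 := integrable_cv hk hc0 hc hF hb (-s)
  simp only [sub_neg_eq_add] at i2
  have e2 : ∀ r ∈ Ioi (0 : ℝ), ((sinh r * (gk k (r - s) - gk k (r + s)) / sinh s : ℝ) : ℂ) *
      (F r / (sinh r : ℝ)) =
      ((gk k (r - s) : ℂ) * F r - (gk k (r + s) : ℂ) * F r) / (sinh s : ℝ) := by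
    intro r hr
    have h1 : ((sinh r : ℝ) : ℂ) ≠ 0 := by exact_mod_cast (sinh_pos_iff.2 hr).ne'
    have h2 : ((sinh s : ℝ) : ℂ) ≠ 0 := by exact_mod_cast hss.ne'
    rw [Complex.ofReal_div, Complex.ofReal_mul, Complex.ofReal_sub]
    field_simp
  have := transfer (μ := (hypVol E)) (ν := volume.restrict (Ioi 0)) (φ := fun x : E => arcosh (x0 x))
    (measurable_arcosh.comp hx0) (w₁ := fun x => KK k y' x)
    (w₂ := fun r => sinh r * (gk k (r - s) - gk k (r + s)) / sinh s)
    (measurable_KK_right k y') (by fun_prop) (fun x => KK_nonneg _ _ _)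
    ((ae_restrict_iff' measurableSet_Ioi).2 (Eventually.of_forall fun r hr => by
      have hr0 : 0 < r := hr
      have h1 : 0 < sinh r := sinh_pos_iff.2 hr
      have hab : |r - s| ≤ |r + s| := by
        rw [abs_of_nonneg (by linarith : 0 ≤ r + s), abs_le]; constructor <;> linarith
      have := sub_nonneg.2 (gk_anti hk hab)
      positivity))
    (lintegral_kt_rad hk hy0) (fun r : ℝ => F r / (sinh r : ℝ)) (by fun_prop)
    (IntegrableOn.congr_fun ((i1.sub i2).div_const _).integrableOn (fun r hr => (e2 r hr).symm)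
      measurableSet_Ioi)
  obtain ⟨h1, h2⟩ := this
  have key : (fun x => (KK k y x : ℂ) * UU F x z) ∘ act (swap z) =
      fun x => (KK k y' x : ℂ) * (F (arcosh (x0 x)) / (sinh (arcosh (x0 x)) : ℝ)) := by
    ext x
    simp only [Function.comp_apply]
    have a1 : KK k y (act (swap z) x) = KK k y' x := by
      rw [← hg.KK_act k y, act_swap_swap]
    have a2 : dst (act (swap z) x) z = arcosh (x0 x) := by
      rw [← hg.dst_act, act_swap_swap, act_swap_self, dst_zero]
    rw [a1, UU, a2]
  constructor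
  · rw [← hg.measurePreserving.integrable_comp_emb hg.measurableEmbedding, key]
    exact h1
  · rw [← hg.measurePreserving.integral_comp hg.measurableEmbedding]
    change ∫ x, ((fun x => (KK k y x : ℂ) * UU F x z) ∘ act (swap z)) x ∂(hypVol E) = _
    rw [key, h2, setIntegral_congr_fun measurableSet_Ioi e2, integral_div, UU, hsd,
      integral_sub i1.integrableOn i2.integrableOn]
    congr 1
    have h3 : ∫ r in Ioi (0 : ℝ), (gk k (r + s) : ℂ) * F r =
        -∫ r in Iic (0 : ℝ), (gk k (r - s) : ℂ) * F r := by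
      have := integral_comp_neg_Ioi 0 (fun r => (gk k (r - s) : ℂ) * F r)
      rw [neg_zero] at this
      rw [← this, ← integral_neg]
      congr 1
      ext r
      rw [hodd, ← gk_neg k (r + s)]
      ring_nf
    rw [h3, sub_neg_eq_add, add_comm, cv, ← intervalIntegral.integral_Iic_add_Ioi
      i1.integrableOn i1.integrableOn]

end Pool.Agent.MP_e4fe74_an

end
end
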