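import Mathlib
import Pool.Agent.Mg.Fe4fe74.Ga8590c

section

noncomputable section

namespace Pool.Agent.MP_e4fe74_an

open MeasureTheory Set Real Filter Topology
open scoped ENNReal ContDiff

/-- symbol of the convolution operator -/
def sg (k : ℝ) (l : ℂ) : ℂ := 1 / Complex.cosh (π * l / (2 * k))

/-- symbol of the hypercyclic operator -/
def mm (k : ℝ) (l : ℂ) : ℂ := 1 - sg k l ^ 2

lemma normSq_cosh (x y : ℝ) : ‖Complex.cosh (x + y * Complex.I)‖ ^ 2 = sinh x ^ 2 + cos y ^ 2 := by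
  rw [Complex.cosh_add, Complex.cosh_mul_I, Complex.sinh_mul_I, ← Complex.ofReal_cosh,
    ← Complex.ofReal_sinh, ← Complex.ofReal_cos, ← Complex.ofReal_sin, ← mul_assoc,
    ← Complex.ofReal_mul, ← Complex.ofReal_mul, Complex.sq_norm, Complex.normSq_add_mul_I]
  nlinarith [cosh_sq x, sin_sq_add_cos_sq y]

lemma normSq_sinh (x y : ℝ) : ‖Complex.sinh (x + y * Complex.I)‖ ^ 2 = sinh x ^ 2 + sin y ^ 2 := by
  rw [Complex.sinh_add, Complex.cosh_mul_I, Complex.sinh_mul_I, ← Complex.ofReal_cosh,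
    ← Complex.ofReal_sinh, ← Complex.ofReal_cos, ← Complex.ofReal_sin, ← mul_assoc,
    ← Complex.ofReal_mul, ← Complex.ofReal_mul, Complex.sq_norm, Complex.normSq_add_mul_I]
  nlinarith [cosh_sq x, sin_sq_add_cos_sq y]

lemma normSq_sin (x y : ℝ) : ‖Complex.sin (x + y * Complex.I)‖ ^ 2 = sin x ^ 2 + sinh y ^ 2 := by
  rw [Complex.sin_add, Complex.cos_mul_I, Complex.sin_mul_I, ← Complex.ofReal_cosh,
    ← Complex.ofReal_sinh, ← Complex.ofReal_cos, ← Complex.ofReal_sin, ← mul_assoc,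
    ← Complex.ofReal_mul, ← Complex.ofReal_mul, Complex.sq_norm, Complex.normSq_add_mul_I]
  nlinarith [cosh_sq y, sin_sq_add_cos_sq x]

lemma arg_eq {k : ℝ} (hk : 0 < k) (l : ℂ) : (π * l / (2 * k) : ℂ) =
    ((π * l.re / (2 * k) : ℝ) : ℂ) + ((π * l.im / (2 * k) : ℝ) : ℂ) * Complex.I := by
  have : (k : ℂ) ≠ 0 := by exact_mod_cast hk.ne'
  conv_lhs => rw [← Complex.re_add_im l]
  push_cast
  field_simp

lemma half_le_cos_sq {y : ℝ} (hy : |y| ≤ π / 4) : 1 / 2 ≤ cos y ^ 2 := by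
  have h1 : 0 ≤ cos (2 * y) := by
    obtain ⟨a, b⟩ := abs_le.1 hy
    apply cos_nonneg_of_mem_Icc
    constructor <;> linarith
  rw [cos_two_mul] at h1
  linarith

lemma im_bound {k : ℝ} (hk : 0 < k) {l : ℂ} (hl : |l.im| ≤ k / 2) :
    |π * l.im / (2 * k)| ≤ π / 4 := by
  rw [abs_div, abs_mul, abs_of_pos pi_pos, abs_of_pos (by positivity : 0 < 2 * k),
    div_le_iff₀ (by positivity)]
  nlinarith [pi_pos]

lemma half_le_normSq_cosh {k : ℝ} (hk : 0 < k) {l : ℂ} (hl : |l.im| ≤ k / 2) :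
    1 / 2 ≤ ‖Complex.cosh (π * l / (2 * k))‖ ^ 2 := by
  rw [arg_eq hk, normSq_cosh]
  linarith [half_le_cos_sq (im_bound hk hl), sq_nonneg (sinh (π * l.re / (2 * k)))]

lemma cosh_ne_zero {k : ℝ} (hk : 0 < k) {l : ℂ} (hl : |l.im| ≤ k / 2) :
    Complex.cosh (π * l / (2 * k)) ≠ 0 := by
  intro h
  have := half_le_normSq_cosh hk hl
  rw [h] at this; norm_num at this

lemma norm_sg_le {k : ℝ} (hk : 0 < k) {l : ℂ} (hl : |l.im| ≤ k / 2) : ‖sg k l‖ ≤ 2 := by
  have h := half_le_normSq_cosh hk hl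
  have h0 := norm_pos_iff.2 (cosh_ne_zero hk hl)
  rw [sg, norm_div, norm_one, div_le_iff₀ h0]
  nlinarith

lemma mm_eq {k : ℝ} (hk : 0 < k) {l : ℂ} (hl : |l.im| ≤ k / 2) :
    mm k l = Complex.sinh (π * l / (2 * k)) ^ 2 / Complex.cosh (π * l / (2 * k)) ^ 2 := by
  have := cosh_ne_zero hk hl
  rw [mm, sg, Complex.sinh_sq]
  field_simp

lemma norm_mm_le {k : ℝ} (hk : 0 < k) {l : ℂ} (hl : |l.im| ≤ k / 2) : ‖mm k l‖ ≤ 1 := by
  have h0 := norm_pos_iff.2 (cosh_ne_zero hk hl)
  rw [mm_eq hk hl, norm_div, norm_pow, norm_pow, div_le_one (by positivity), arg_eq hk,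
    normSq_cosh, normSq_sinh]
  have := half_le_cos_sq (im_bound hk hl)
  nlinarith [sin_sq_add_cos_sq (π * l.im / (2 * k))]

lemma norm_mm_lt {k : ℝ} (hk : 0 < k) {l : ℂ} (hl : l.im = 0) : ‖mm k l‖ < 1 := by
  have hl' : |l.im| ≤ k / 2 := by rw [hl, abs_zero]; positivity
  have h0 := norm_pos_iff.2 (cosh_ne_zero hk hl')
  rw [mm_eq hk hl', norm_div, norm_pow, norm_pow, div_lt_one (by positivity), arg_eq hk,
    normSq_cosh, normSq_sinh, hl]
  simp

lemma mm_neg (k : ℝ) (l : ℂ) : mm k (-l) = mm k l := by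
  simp only [mm, sg]
  rw [mul_neg, neg_div, Complex.cosh_neg]

lemma differentiableAt_mm {k : ℝ} (hk : 0 < k) {l : ℂ} (hl : |l.im| ≤ k / 2) :
    DifferentiableAt ℂ (mm k) l := by
  have := cosh_ne_zero hk hl
  unfold mm sg
  fun_prop (disch := assumption)

lemma measurable_sg (k : ℝ) : Measurable (sg k) := by
  have := Complex.continuous_cosh.measurable
  unfold sg; fun_prop

lemma measurable_mm (k : ℝ) : Measurable (mm k) := by
  have := measurable_sg k
  unfold mm; fun_prop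

/-- the phase on the boundary line -/
def th (c x : ℝ) : ℝ := 4 * arctan (exp (c * x))
def th' (c x : ℝ) : ℝ := 4 * c * exp (c * x) / (1 + exp (c * x) ^ 2)
def th'' (c x : ℝ) : ℝ := 4 * c ^ 2 * exp (c * x) * (1 - exp (c * x) ^ 2) / (1 + exp (c * x) ^ 2) ^ 2

lemma hasDerivAt_exp_mul (c x : ℝ) : HasDerivAt (fun x => exp (c * x)) (exp (c * x) * c) x :=
  ((hasDerivAt_id x).const_mul c).exp.congr_deriv (by simp)

lemma hasDerivAt_th (c x : ℝ) : HasDerivAt (th c) (th' c x) x := by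
  refine ((hasDerivAt_exp_mul c x).arctan.const_mul 4).congr_deriv ?_
  unfold th'; field_simp

lemma hasDerivAt_th' (c x : ℝ) : HasDerivAt (th' c) (th'' c x) x := by
  refine (((hasDerivAt_exp_mul c x).const_mul (4 * c)).div
    (((hasDerivAt_exp_mul c x).pow 2).const_add 1)
    (by simp only [Pi.pow_apply]; positivity)).congr_deriv ?_
  unfold th''
  simp only [Pi.pow_apply]
  congr 1
  simp; ring

lemma continuous_th'' (c : ℝ) : Continuous (th'' c) := by
  unfold th''
  exact Continuous.div (by fun_prop) (by fun_prop) fun x => by positivity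

lemma th''_neg {c : ℝ} (hc : 0 < c) {x : ℝ} (hx : 0 < x) : th'' c x < 0 := by
  unfold th''
  have h1 : 1 < exp (c * x) := one_lt_exp_iff.2 (by positivity)
  apply div_neg_of_neg_of_pos _ (by positivity)
  apply mul_neg_of_pos_of_neg (by positivity)
  nlinarith

lemma th''_pos {c : ℝ} (hc : 0 < c) {x : ℝ} (hx : x < 0) : 0 < th'' c x := by
  unfold th''
  have h1 : exp (c * x) < 1 := exp_lt_one_iff.2 (mul_neg_of_pos_of_neg hc hx)
  have h2 := exp_pos (c * x)
  apply div_pos _ (by positivity)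
  apply mul_pos (by positivity)
  nlinarith

/-- auxiliary function with `w' = c (w² - w)` -/
def ww (c x : ℝ) : ℂ := (1 - Complex.I * (exp (c * x) : ℝ))⁻¹

lemma one_le_norm_den (s : ℝ) : 1 ≤ ‖1 - Complex.I * (s : ℂ)‖ := by
  have := Complex.re_le_norm (1 - Complex.I * (s : ℂ))
  simpa using this

lemma den_ne (s : ℝ) : 1 - Complex.I * (s : ℂ) ≠ 0 := by
  intro h; have := one_le_norm_den s; rw [h] at this; norm_num at this

lemma norm_ww_le (c x : ℝ) : ‖ww c x‖ ≤ 1 := by
  rw [ww, norm_inv]; exact inv_le_one_of_one_le₀ (one_le_norm_den _)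

lemma hasDerivAt_ww (c x : ℝ) : HasDerivAt (ww c) (c * (ww c x ^ 2 - ww c x)) x := by
  have h1 := (((hasDerivAt_exp_mul c x).ofReal_comp.const_mul Complex.I).const_sub 1).inv
    (den_ne _)
  refine h1.congr_deriv ?_
  have := den_ne (exp (c * x))
  unfold ww
  rw [Complex.ofReal_mul]
  field_simp
  ring

lemma contDiff_ww (c : ℝ) : ContDiff ℝ ∞ (ww c) := by
  unfold ww
  apply ContDiff.inv _ fun x => den_ne _
  have : ContDiff ℝ ∞ fun x : ℝ => ((exp (c * x) : ℝ) : ℂ) :=
    Complex.ofRealCLM.contDiff.comp (f := fun x : ℝ => exp (c * x)) (by fun_prop)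
  fun_prop

lemma iteratedDeriv_poly_ww (c : ℝ) (n : ℕ) : ∀ P : Polynomial ℂ, ∃ Q : Polynomial ℂ,
    iteratedDeriv n (fun x => P.eval (ww c x)) = fun x => Q.eval (ww c x) := by
  induction n with
  | zero => intro P; exact ⟨P, by simp⟩
  | succ n ih =>
    intro P
    obtain ⟨Q, hQ⟩ := ih (P.derivative * (Polynomial.C (c : ℂ) * (Polynomial.X ^ 2 - Polynomial.X)))
    refine ⟨Q, ?_⟩
    rw [iteratedDeriv_succ', ← hQ]
    congr 1
    ext x
    have := (P.hasDerivAt (ww c x)).comp_of_eq x (hasDerivAt_ww c x) rfl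
    rw [show (fun x => P.eval (ww c x)) = (fun z => P.eval z) ∘ ww c from rfl, this.deriv]
    simp

lemma temperate_ww (c : ℝ) : (ww c).HasTemperateGrowth := by
  refine ⟨contDiff_ww c, fun n => ?_⟩
  obtain ⟨Q, hQ⟩ := iteratedDeriv_poly_ww c n Polynomial.X
  simp only [Polynomial.eval_X] at hQ
  obtain ⟨C, hC⟩ := (isCompact_closedBall (0 : ℂ) 1).exists_bound_of_continuousOn
    Q.continuous.continuousOn
  refine ⟨0, C, fun x => ?_⟩
  rw [norm_iteratedFDeriv_eq_norm_iteratedDeriv, show ww c = fun x => ww c x from rfl, hQ]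
  simpa using hC _ (by simpa using norm_ww_le c x)

lemma exp_I_arctan (s : ℝ) : Complex.exp (Complex.I * ((4 * arctan s : ℝ) : ℂ)) =
    (2 * (1 - Complex.I * (s : ℂ))⁻¹ - 1) ^ 2 := by
  have h1 : Complex.exp (Complex.I * ((4 * arctan s : ℝ) : ℂ)) =
      Complex.exp ((arctan s : ℝ) * Complex.I) ^ 4 := by
    rw [← Complex.exp_nat_mul]; push_cast; ring_nf
  rw [h1, Complex.exp_mul_I, ← Complex.ofReal_cos, ← Complex.ofReal_sin, cos_arctan, sin_arctan]
  have hq : 0 < √(1 + s ^ 2) := Real.sqrt_pos.2 (by positivity)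
  have hq2 : ((√(1 + s ^ 2) : ℝ) : ℂ) ^ 2 = (1 + Complex.I * s) * (1 - Complex.I * s) := by
    rw [← Complex.ofReal_pow, Real.sq_sqrt (by positivity)]
    push_cast
    linear_combination ((s : ℂ) ^ 2) * Complex.I_mul_I
  have hq' : ((√(1 + s ^ 2) : ℝ) : ℂ) ≠ 0 := by exact_mod_cast hq.ne'
  have hd := den_ne s
  have hd' : 1 + Complex.I * (s : ℂ) ≠ 0 := by simpa using den_ne (-s)
  rw [Complex.ofReal_div, Complex.ofReal_div]
  generalize ((√(1 + s ^ 2) : ℝ) : ℂ) = q at *
  have e1 : ((1 : ℝ) : ℂ) / q + s / q * Complex.I = (1 + Complex.I * s) / q := by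
    push_cast; field_simp
  have e2 : q ^ 4 = ((1 + Complex.I * s) * (1 - Complex.I * s)) ^ 2 := by rw [← hq2]; ring
  rw [e1, div_pow, e2]
  field_simp
  ring

lemma exp_I_th (c x : ℝ) : Complex.exp (Complex.I * (th c x : ℝ)) = (2 * ww c x - 1) ^ 2 :=
  exp_I_arctan _

lemma temperate_phase (c : ℝ) (n : ℕ) :
    (fun x => Complex.exp (Complex.I * (th c x : ℝ)) ^ n).HasTemperateGrowth := by
  simp_rw [exp_I_th]
  have := temperate_ww c
  fun_prop

lemma mm_mul_phase {k : ℝ} (hk : 0 < k) (x : ℝ) :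
    mm k (2 * π * x + (k / 2 : ℝ) * Complex.I) *
      Complex.exp (Complex.I * (th (2 * π ^ 2 / k) x : ℝ)) = 1 := by
  have hl : |(2 * π * x + (k / 2 : ℝ) * Complex.I : ℂ).im| ≤ k / 2 := by
    simp only [Complex.add_im, Complex.mul_im, Complex.mul_re, Complex.ofReal_re,
      Complex.ofReal_im, Complex.I_im, Complex.I_re]
    simp [abs_of_pos (half_pos hk)]
  have hc := cosh_ne_zero hk hl
  rw [mm_eq hk hl, exp_I_th, ww]
  set z : ℂ := π * (2 * π * x + (k / 2 : ℝ) * Complex.I) / (2 * k) with hz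
  set s : ℝ := exp (2 * π ^ 2 / k * x) with hs
  have hk' : (k : ℂ) ≠ 0 := by exact_mod_cast hk.ne'
  have e1 : Complex.exp z ^ 2 = Complex.I * s := by
    rw [← Complex.exp_nat_mul, hs, Complex.ofReal_exp, ← Complex.exp_pi_div_two_mul_I,
      ← Complex.exp_add]
    congr 1
    rw [hz]; push_cast; field_simp; ring
  have hE := Complex.exp_ne_zero z
  have a1 : Complex.sinh z = (Complex.I * s - 1) / (2 * Complex.exp z) := by
    rw [← e1, Complex.sinh, Complex.exp_neg]; field_simp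
  have a2 : Complex.cosh z = (Complex.I * s + 1) / (2 * Complex.exp z) := by
    rw [← e1, Complex.cosh, Complex.exp_neg]; field_simp
  have hd := den_ne s
  have hd' : Complex.I * (s : ℂ) + 1 ≠ 0 := by
    rw [add_comm]; simpa using den_ne (-s)
  rw [a1, a2]
  field_simp
  ring

end Pool.Agent.MP_e4fe74_an

end
end

section

noncomputable section

namespace Pool.Agent.MP_e4fe74_an

open MeasureTheory Set Real Filter Topology
open scoped ENNReal

/-- Van der Corput's second derivative estimate with an amplitude. -/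
lemma vdc {φ φ' φ'' : ℝ → ℝ} {a a' : ℝ → ℂ} (h1 : ∀ x, HasDerivAt φ (φ' x) x)
    (h2 : ∀ x, HasDerivAt φ' (φ'' x) x) (h3 : Continuous φ'') (ha : ∀ x, HasDerivAt a (a' x) x)
    (ha' : Continuous a') {A L ε α β : ℝ} (hA : ∀ x, ‖a x‖ ≤ A) (hA' : ∀ x, ‖a' x‖ ≤ A)
    (hL : 0 < L) (hε : ε = 1 ∨ ε = -1) (hαβ : α ≤ β) (hφ : ∀ x ∈ Icc α β, L ^ 2 ≤ ε * φ'' x) :
    ‖∫ x in α..β, a x * Complex.exp (Complex.I * φ x)‖ ≤ A * (1 + (β - α) + 2 * π) / L := by
  have hA0 : 0 ≤ A := (norm_nonneg _).trans (hA 0)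
  have c0 : Continuous φ := continuous_iff_continuousAt.2 fun x => (h1 x).continuousAt
  have c1 : Continuous φ' := continuous_iff_continuousAt.2 fun x => (h2 x).continuousAt
  have ca : Continuous a := continuous_iff_continuousAt.2 fun x => (ha x).continuousAt
  have hD : ∀ x, 0 < φ' x ^ 2 + L ^ 2 := fun x => by positivity
  let w : ℝ → ℝ := fun x => φ' x / (φ' x ^ 2 + L ^ 2)
  let w' : ℝ → ℝ := fun x => φ'' x * (L ^ 2 - φ' x ^ 2) / (φ' x ^ 2 + L ^ 2) ^ 2
  have hw : ∀ x, HasDerivAt w (w' x) x := by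
    intro x
    have := (h2 x).div (((h2 x).pow 2).add_const (L ^ 2)) (hD x).ne'
    refine this.congr_deriv ?_
    simp only [w', Pi.pow_apply]
    congr 1
    simp; ring
  have cw : Continuous w := continuous_iff_continuousAt.2 fun x => (hw x).continuousAt
  have cw' : Continuous w' := by
    unfold w'
    exact Continuous.div (by fun_prop) (by fun_prop) fun x => (pow_pos (hD x) 2).ne'
  have bw : ∀ x, |w x| ≤ 1 / (2 * L) := by
    intro x
    simp only [w]
    rw [abs_div, abs_of_pos (hD x), div_le_div_iff₀ (hD x) (by positivity)]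
    nlinarith [sq_nonneg (|φ' x| - L), sq_abs (φ' x)]
  let E : ℝ → ℂ := fun x => Complex.exp (Complex.I * φ x)
  have hE : ∀ x, HasDerivAt E (E x * (Complex.I * φ' x)) x := fun x =>
    ((h1 x).ofReal_comp.const_mul Complex.I).cexp
  have nE : ∀ x, ‖E x‖ = 1 := fun x => by
    simp only [E]; rw [mul_comm, Complex.norm_exp_ofReal_mul_I]
  have cE : Continuous E := continuous_iff_continuousAt.2 fun x => (hE x).continuousAt
  let Ψ : ℝ → ℂ := fun x => -Complex.I * (E x * (a x * w x))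
  let R : ℝ → ℂ := fun x => Complex.I * (E x * (a' x * w x + a x * w' x)) +
    a x * E x * ((L ^ 2 / (φ' x ^ 2 + L ^ 2) : ℝ) : ℂ)
  have cR : Continuous R := by
    have : Continuous fun x => L ^ 2 / (φ' x ^ 2 + L ^ 2) :=
      Continuous.div (by fun_prop) (by fun_prop) fun x => (hD x).ne'
    unfold R; fun_prop
  have hΨ : ∀ x, HasDerivAt Ψ (a x * E x - R x) x := by
    intro x
    have := ((hE x).mul ((ha x).mul (hw x).ofReal_comp)).const_mul (-Complex.I)
    refine this.congr_deriv ?_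
    have hD' : ((φ' x ^ 2 + L ^ 2 : ℝ) : ℂ) ≠ 0 := by exact_mod_cast (hD x).ne'
    have e1 : ((L ^ 2 / (φ' x ^ 2 + L ^ 2) : ℝ) : ℂ) = 1 - φ' x * w x := by
      have : L ^ 2 / (φ' x ^ 2 + L ^ 2) = 1 - φ' x * w x := by
        have := hD x
        simp only [w]; field_simp; ring
      rw [this]; push_cast; ring
    simp only [R, e1, Pi.mul_apply]
    linear_combination (-(E x * φ' x * a x * w x)) * Complex.I_mul_I
  have hint := intervalIntegral.integral_eq_sub_of_hasDerivAt (fun x _ => hΨ x)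
    (((ca.mul cE).sub cR).intervalIntegrable α β)
  rw [intervalIntegral.integral_sub (f := fun y => a y * E y) ((ca.mul cE).intervalIntegrable α β)
    (cR.intervalIntegrable α β)] at hint
  have bΨ : ∀ x, ‖Ψ x‖ ≤ A / (2 * L) := by
    intro x
    simp only [Ψ, norm_mul, norm_neg, Complex.norm_I, nE, one_mul, Complex.norm_real,
      Real.norm_eq_abs]
    calc ‖a x‖ * |w x| ≤ A * (1 / (2 * L)) := by gcongr; exacts [hA x, bw x]
      _ = _ := by ring
  let B : ℝ → ℝ := fun x => A / (2 * L) * x + 2 * A * (ε * (arctan (φ' x / L) / L))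
  let B' : ℝ → ℝ := fun x => A / (2 * L) + 2 * A * (ε * φ'' x / (φ' x ^ 2 + L ^ 2))
  have hB : ∀ x, HasDerivAt B (B' x) x := by
    intro x
    have := ((hasDerivAt_id x).const_mul (A / (2 * L))).add
      ((((((h2 x).div_const L).arctan).div_const L).const_mul ε).const_mul (2 * A))
    refine this.congr_deriv ?_
    have := hD x
    simp only [B']
    field_simp
    ring
  have cB' : Continuous B' := by
    have : Continuous fun x => ε * φ'' x / (φ' x ^ 2 + L ^ 2) :=
      Continuous.div (by fun_prop) (by fun_prop) fun x => (hD x).ne'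
    unfold B'; fun_prop
  have hintB := intervalIntegral.integral_eq_sub_of_hasDerivAt (fun x _ => hB x)
    (cB'.intervalIntegrable α β)
  have bR : ∀ x ∈ Icc α β, ‖R x‖ ≤ B' x := by
    intro x hx
    have hx' := hφ x hx
    have hDx := hD x
    have habs : |φ'' x| = ε * φ'' x := by
      have : 0 < ε * φ'' x := lt_of_lt_of_le (by positivity) hx'
      rcases hε with rfl | rfl
      · rw [one_mul] at this ⊢; exact abs_of_pos this
      · rw [neg_one_mul] at this ⊢; exact abs_of_neg (by linarith)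
    have bw' : |w' x| ≤ ε * φ'' x / (φ' x ^ 2 + L ^ 2) := by
      simp only [w']
      rw [abs_div, abs_mul, habs, abs_of_pos (pow_pos hDx 2), div_le_div_iff₀ (pow_pos hDx 2) hDx]
      have : |L ^ 2 - φ' x ^ 2| ≤ φ' x ^ 2 + L ^ 2 := by
        rw [abs_le]; constructor <;> nlinarith [sq_nonneg L, sq_nonneg (φ' x)]
      have h0 : 0 ≤ ε * φ'' x := le_trans (by positivity) hx'
      calc ε * φ'' x * |L ^ 2 - φ' x ^ 2| * (φ' x ^ 2 + L ^ 2)
          ≤ ε * φ'' x * (φ' x ^ 2 + L ^ 2) * (φ' x ^ 2 + L ^ 2) := by gcongr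
        _ = _ := by ring
    have b3 : L ^ 2 / (φ' x ^ 2 + L ^ 2) ≤ ε * φ'' x / (φ' x ^ 2 + L ^ 2) := by gcongr
    calc ‖R x‖ ≤ ‖Complex.I * (E x * (a' x * w x + a x * w' x))‖ +
          ‖a x * E x * ((L ^ 2 / (φ' x ^ 2 + L ^ 2) : ℝ) : ℂ)‖ := norm_add_le _ _
      _ ≤ (‖a' x‖ * |w x| + ‖a x‖ * |w' x|) + ‖a x‖ * (L ^ 2 / (φ' x ^ 2 + L ^ 2)) := by
          gcongr
          · rw [norm_mul, norm_mul, Complex.norm_I, nE, one_mul, one_mul]
            refine (norm_add_le _ _).trans (le_of_eq ?_)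
            simp only [norm_mul, Complex.norm_real, Real.norm_eq_abs]
          · rw [norm_mul, norm_mul, nE, mul_one, Complex.norm_real,
              Real.norm_of_nonneg (by positivity)]
      _ ≤ (A * (1 / (2 * L)) + A * (ε * φ'' x / (φ' x ^ 2 + L ^ 2))) +
            A * (ε * φ'' x / (φ' x ^ 2 + L ^ 2)) := by
          gcongr
          exacts [hA' x, bw x, hA x, hA x]
      _ = B' x := by simp only [B']; ring
  have bI : ‖∫ x in α..β, R x‖ ≤ B β - B α := by
    rw [← hintB]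
    exact intervalIntegral.norm_integral_le_of_norm_le hαβ
      (Eventually.of_forall fun x hx => bR x (Ioc_subset_Icc_self hx))
      (cB'.intervalIntegrable α β)
  have bB : B β - B α ≤ A * (β - α) / (2 * L) + 2 * A * (π / L) := by
    have e1 : B β - B α = A * (β - α) / (2 * L) +
        2 * A * (ε * (arctan (φ' β / L) - arctan (φ' α / L)) / L) := by
      simp only [B]; ring
    rw [e1]
    gcongr
    have a1 := arctan_lt_pi_div_two (φ' β / L)
    have a2 := arctan_lt_pi_div_two (φ' α / L)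
    have a3 := neg_pi_div_two_lt_arctan (φ' β / L)
    have a4 := neg_pi_div_two_lt_arctan (φ' α / L)
    rcases hε with rfl | rfl <;> linarith
  have : ∫ x in α..β, a x * E x = (Ψ β - Ψ α) + ∫ x in α..β, R x := by rw [← hint]; ring
  change ‖∫ x in α..β, a x * E x‖ ≤ _
  rw [this]
  calc ‖(Ψ β - Ψ α) + ∫ x in α..β, R x‖ ≤ (‖Ψ β‖ + ‖Ψ α‖) + ‖∫ x in α..β, R x‖ :=
        (norm_add_le _ _).trans (by gcongr; exact norm_sub_le _ _)
    _ ≤ (A / (2 * L) + A / (2 * L)) + (A * (β - α) / (2 * L) + 2 * A * (π / L)) := by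
        gcongr
        exacts [bΨ β, bΨ α, bI.trans bB]
    _ ≤ _ := by
        have : 0 ≤ A * (β - α) / (2 * L) := by
          have := sub_nonneg.2 hαβ; positivity
        have e : A * (1 + (β - α) + 2 * π) / L = (A / (2 * L) + A / (2 * L)) +
          (A * (β - α) / (2 * L) + 2 * A * (π / L)) + A * (β - α) / (2 * L) := by
          field_simp; ring
        rw [e]; linarith

/-- Uniform dispersive decay. -/
lemma dispersion {θ θ' θ'' : ℝ → ℝ} {a a' : ℝ → ℂ} (h1 : ∀ x, HasDerivAt θ (θ' x) x)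
    (h2 : ∀ x, HasDerivAt θ' (θ'' x) x) (h3 : Continuous θ'') (hneg : ∀ x, 0 < x → θ'' x < 0)
    (hpos : ∀ x, x < 0 → 0 < θ'' x) (ha : ∀ x, HasDerivAt a (a' x) x)
    (ha' : Continuous a') {A : ℝ} (hA : ∀ x, ‖a x‖ ≤ A) (hA' : ∀ x, ‖a' x‖ ≤ A)
    (hi : Integrable a) {η : ℝ} (hη : 0 < η) :
    ∀ᶠ n : ℕ in atTop, ∀ r : ℝ,
      ‖∫ x, a x * Complex.exp (Complex.I * ((n * θ x + r * x : ℝ) : ℂ))‖ ≤ η := by
  have hA0 : 0 ≤ A := (norm_nonneg _).trans (hA 0)
  have c0 : Continuous θ := continuous_iff_continuousAt.2 fun x => (h1 x).continuousAt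
  have ca : Continuous a := continuous_iff_continuousAt.2 fun x => (ha x).continuousAt
  have ht := intervalIntegral_tendsto_integral hi.norm (tendsto_neg_atTop_atBot (G := ℝ)) tendsto_id
  obtain ⟨R, hR1, hR⟩ : ∃ R : ℝ, 1 ≤ R ∧ (∫ x, ‖a x‖) - η / 4 ≤ ∫ x in -R..R, ‖a x‖ :=
    ((eventually_ge_atTop 1).and (ht.eventually_const_le (by linarith))).exists
  obtain ⟨δ, hδ0, hδ1, hδ⟩ : ∃ δ : ℝ, 0 < δ ∧ δ ≤ 1 ∧ A * (2 * δ) ≤ η / 4 := by
    refine ⟨min 1 (η / (8 * (A + 1))), by positivity, min_le_left _ _, ?_⟩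
    calc A * (2 * min 1 (η / (8 * (A + 1)))) ≤ (A + 1) * (2 * (η / (8 * (A + 1)))) := by
          gcongr
          · linarith
          · exact min_le_right _ _
      _ = η / 4 := by field_simp; ring
  have hδR : δ ≤ R := hδ1.trans hR1
  obtain ⟨x1, hx1, hm1⟩ := (isCompact_Icc (a := δ) (b := R)).exists_isMinOn
    (nonempty_Icc.2 hδR) (f := fun x => -θ'' x) (by fun_prop)
  obtain ⟨x2, hx2, hm2⟩ := (isCompact_Icc (a := -R) (b := -δ)).exists_isMinOn
    (nonempty_Icc.2 (by linarith)) (f := fun x => θ'' x) (by fun_prop)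
  set κ := min (-θ'' x1) (θ'' x2) with hκ
  have hκ0 : 0 < κ := lt_min (neg_pos.2 (hneg _ (by linarith [hx1.1]))) (hpos _ (by linarith [hx2.2]))
  have hlim : Tendsto (fun n : ℕ => A * (1 + (R - δ) + 2 * π) / √(n * κ)) atTop (𝓝 0) := by
    apply Tendsto.div_atTop tendsto_const_nhds
    exact tendsto_sqrt_atTop.comp (tendsto_natCast_atTop_atTop.atTop_mul_const hκ0)
  filter_upwards [hlim.eventually_le_const (by linarith : (0 : ℝ) < η / 4),
    eventually_gt_atTop 0] with n hn hn0 r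
  have hn0' : (0 : ℝ) < n := by exact_mod_cast hn0
  have hL : 0 < √(n * κ) := Real.sqrt_pos.2 (by positivity)
  have hL2 : √(n * κ) ^ 2 = n * κ := Real.sq_sqrt (by positivity)
  have d1 : ∀ x, HasDerivAt (fun x => n * θ x + r * x) (n * θ' x + r) x := fun x =>
    (((h1 x).const_mul (n : ℝ)).add ((hasDerivAt_id x).const_mul r)).congr_deriv (by simp)
  have d2 : ∀ x, HasDerivAt (fun x => n * θ' x + r) (n * θ'' x) x := fun x =>
    ((h2 x).const_mul (n : ℝ)).add_const r
  have v1 := vdc d1 d2 (by fun_prop) ha ha' hA hA' hL (Or.inr rfl) hδR (fun x hx => by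
    have h : -θ'' x1 ≤ -θ'' x := hm1 hx
    have : κ ≤ -θ'' x := (min_le_left _ _).trans h
    rw [hL2]; nlinarith)
  have v2 := vdc d1 d2 (by fun_prop) ha ha' hA hA' hL (Or.inl rfl) (by linarith : -R ≤ -δ)
    (fun x hx => by
    have h : θ'' x2 ≤ θ'' x := hm2 hx
    have : κ ≤ θ'' x := (min_le_right _ _).trans h
    rw [hL2]; nlinarith)
  set f : ℝ → ℂ := fun x => a x * Complex.exp (Complex.I * ((n * θ x + r * x : ℝ) : ℂ)) with hf
  have nf : ∀ x, ‖f x‖ = ‖a x‖ := fun x => by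
    simp only [f]; rw [norm_mul, mul_comm Complex.I, Complex.norm_exp_ofReal_mul_I, mul_one]
  have cf : Continuous f := by unfold f; fun_prop
  have hfi : Integrable f := hi.norm.mono' cf.aestronglyMeasurable
    (Eventually.of_forall fun x => (nf x).le)
  have v3 : ‖∫ x in -δ..δ, f x‖ ≤ η / 4 := by
    refine (intervalIntegral.norm_integral_le_of_norm_le_const (C := A)
      fun x _ => (nf x).le.trans (hA x)).trans ?_
    rw [abs_of_nonneg (by linarith)]
    calc A * (δ - -δ) = A * (2 * δ) := by ring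
      _ ≤ _ := hδ
  have v4 : ‖(∫ x, f x) - ∫ x in -R..R, f x‖ ≤ η / 4 := by
    rw [intervalIntegral.integral_of_le (by linarith)] at hR ⊢
    rw [← integral_add_compl measurableSet_Ioc hfi (s := Ioc (-R) R), add_sub_cancel_left]
    rw [← integral_add_compl measurableSet_Ioc hi.norm (s := Ioc (-R) R)] at hR
    refine (norm_integral_le_integral_norm _).trans ?_
    simp_rw [nf]
    linarith
  have split : ∫ x in -R..R, f x =
      (∫ x in -R..-δ, f x) + (∫ x in -δ..δ, f x) + ∫ x in δ..R, f x := by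
    rw [intervalIntegral.integral_add_adjacent_intervals (cf.intervalIntegrable _ _)
      (cf.intervalIntegrable _ _), intervalIntegral.integral_add_adjacent_intervals
      (cf.intervalIntegrable _ _) (cf.intervalIntegrable _ _)]
  have e2 : (-δ - -R) = R - δ := by ring
  rw [e2] at v2
  calc ‖∫ x, f x‖ = ‖((∫ x, f x) - ∫ x in -R..R, f x) +
        ((∫ x in -R..-δ, f x) + (∫ x in -δ..δ, f x) + ∫ x in δ..R, f x)‖ := by
        rw [← split]; simp
    _ ≤ η / 4 + (η / 4 + η / 4 + η / 4) := by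
        refine (norm_add_le _ _).trans (add_le_add v4 ?_)
        refine (norm_add₃_le).trans ?_
        gcongr
        exacts [v2.trans hn, v1.trans hn]
    _ = η := by ring

end Pool.Agent.MP_e4fe74_an

end
end

section

noncomputable section

namespace Pool.Agent.MP_e4fe74_an

open MeasureTheory Set Real Filter Topology FourierTransform SchwartzMap
open scoped ENNReal ContDiff

/-- the spectral parameter on the horizontal line of height `β` -/
def lam (β x : ℝ) : ℂ := 2 * π * x + β * Complex.I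

lemma lam_im (β x : ℝ) : (lam β x).im = β := by simp [lam]

lemma continuous_lam (β : ℝ) : Continuous (lam β) := by unfold lam; fun_prop

/-- wave packets -/
def WP (β : ℝ) (a : ℝ → ℂ) (r : ℝ) : ℂ := ∫ x, a x * Complex.sin (lam β x * r)

/-- admissible amplitudes -/
structure Good (a : ℝ → ℂ) : Prop where
  meas : Measurable a
  int : Integrable fun x => (1 + |x|) * ‖a x‖

/-- size of an amplitude -/
def NA (a : ℝ → ℂ) : ℝ := ∫ x, (1 + |x|) * ‖a x‖

lemma NA_nonneg (a : ℝ → ℂ) : 0 ≤ NA a := integral_nonneg fun x => by positivity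

lemma Good.integrable {a : ℝ → ℂ} (h : Good a) : Integrable a :=
  h.int.mono' h.meas.aestronglyMeasurable (Eventually.of_forall fun x => by
    nlinarith [abs_nonneg x, norm_nonneg (a x)])

lemma Good.mul {a u : ℝ → ℂ} (h : Good a) (hu : Measurable u) {C : ℝ} (hC : ∀ x, ‖u x‖ ≤ C) :
    Good fun x => u x * a x := by
  have := h.meas
  refine ⟨hu.mul h.meas, (h.int.const_mul C).mono' (by fun_prop) (Eventually.of_forall fun x => ?_)⟩
  rw [Real.norm_of_nonneg (by positivity), norm_mul]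
  calc (1 + |x|) * (‖u x‖ * ‖a x‖) ≤ (1 + |x|) * (C * ‖a x‖) := by gcongr; exact hC x
    _ = _ := by ring

lemma NA_mul_le {a u : ℝ → ℂ} (h : Good a) (hu : Measurable u) (hC : ∀ x, ‖u x‖ ≤ 1) :
    NA (fun x => u x * a x) ≤ NA a := by
  refine integral_mono (h.mul hu hC).int h.int fun x => ?_
  simp only [norm_mul]
  gcongr
  exact mul_le_of_le_one_left (norm_nonneg _) (hC x)

lemma good_schwartz (a : 𝓢(ℝ, ℂ)) : Good a := by
  refine ⟨a.continuous.measurable, ?_⟩
  have h1 := a.integrable_pow_mul volume 1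
  have h0 := a.integrable_pow_mul volume 0
  refine (h0.add h1).congr (Eventually.of_forall fun x => ?_)
  simp; ring

lemma norm_sin_lam_le (β x r : ℝ) :
    ‖Complex.sin (lam β x * r)‖ ≤ 2 * π * |x| * |r| + sinh (|β| * |r|) := by
  have e : lam β x * r = ((2 * π * x * r : ℝ) : ℂ) + ((β * r : ℝ) : ℂ) * Complex.I := by
    unfold lam; push_cast; ring
  have h1 : |sin (2 * π * x * r)| ≤ 2 * π * |x| * |r| := by
    refine abs_sin_le_abs.trans (le_of_eq ?_)
    rw [abs_mul, abs_mul, abs_of_pos (by positivity : 0 < 2 * π)]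
  have h2 : |sinh (β * r)| = sinh (|β| * |r|) := by rw [abs_sinh, abs_mul]
  rw [← h2, ← pow_le_pow_iff_left₀ (norm_nonneg _) (by positivity) two_ne_zero, e, normSq_sin,
    ← sq_abs (sin _), ← sq_abs (sinh _)]
  have h3 := abs_nonneg (sin (2 * π * x * r))
  have h4 := abs_nonneg (sinh (β * r))
  nlinarith

lemma norm_sin_lam_le' {β b : ℝ} (hb : 0 < b) (hβ : |β| ≤ b) (x r : ℝ) :
    ‖Complex.sin (lam β x * r)‖ ≤ (1 + |x|) * ((2 * π / b + 1) * sinh (b * |r|)) := by
  refine (norm_sin_lam_le β x r).trans ?_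
  have h1 : b * |r| ≤ sinh (b * |r|) := self_le_sinh_iff.2 (by positivity)
  have h2 : sinh (|β| * |r|) ≤ sinh (b * |r|) := sinh_le_sinh.2 (by gcongr)
  have h3 : |r| ≤ sinh (b * |r|) / b := by rw [le_div_iff₀ hb]; linarith
  have h4 : 0 ≤ sinh (b * |r|) := le_trans (by positivity) h1
  calc 2 * π * |x| * |r| + sinh (|β| * |r|)
      ≤ 2 * π * (1 + |x|) * (sinh (b * |r|) / b) + (1 + |x|) * sinh (b * |r|) := by
        gcongr
        · linarith
        · nlinarith [abs_nonneg x]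
    _ = _ := by ring

lemma Good.integrable_WP {a : ℝ → ℂ} (h : Good a) (β r : ℝ) :
    Integrable fun x => a x * Complex.sin (lam β x * r) := by
  have := h.meas
  have := continuous_lam β
  refine (h.int.mul_const ((2 * π / (|β| + 1) + 1) * sinh ((|β| + 1) * |r|))).mono' (by fun_prop)
    (Eventually.of_forall fun x => ?_)
  rw [norm_mul, mul_right_comm, mul_comm]
  gcongr
  exact norm_sin_lam_le' (by positivity) (by linarith) x r

lemma measurable_WP {a : ℝ → ℂ} (h : Measurable a) (β : ℝ) : Measurable (WP β a) := by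
  have := continuous_lam β
  apply StronglyMeasurable.measurable
  apply StronglyMeasurable.integral_prod_right
    (f := fun (r : ℝ) x => a x * Complex.sin (lam β x * r))
  apply Measurable.stronglyMeasurable
  unfold Function.uncurry
  fun_prop

lemma WP_neg (β : ℝ) (a : ℝ → ℂ) (r : ℝ) : WP β a (-r) = -WP β a r := by
  simp [WP, integral_neg]

lemma norm_WP_le {a : ℝ → ℂ} (h : Good a) {β b : ℝ} (hb : 0 < b) (hβ : |β| ≤ b) (r : ℝ) :
    ‖WP β a r‖ ≤ NA a * (2 * π / b + 1) * sinh (b * |r|) := by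
  rw [mul_assoc, NA, ← integral_mul_const]
  refine norm_integral_le_of_norm_le (h.int.mul_const _) (Eventually.of_forall fun x => ?_)
  rw [norm_mul, mul_right_comm, mul_comm]
  gcongr
  exact norm_sin_lam_le' hb hβ x r

lemma norm_WP_zero_le {a : ℝ → ℂ} (h : Good a) (r : ℝ) :
    ‖WP 0 a r‖ ≤ NA a * (2 * π * |r|) := by
  rw [NA, ← integral_mul_const]
  refine norm_integral_le_of_norm_le (h.int.mul_const _) (Eventually.of_forall fun x => ?_)
  rw [norm_mul, mul_right_comm, mul_comm]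
  gcongr
  refine (norm_sin_lam_le 0 x r).trans ?_
  simp only [abs_zero, zero_mul, sinh_zero, add_zero]
  have : 0 ≤ 2 * π * |r| := by positivity
  nlinarith

lemma sinh_le_exp (t : ℝ) : sinh t ≤ exp t := by
  rw [sinh_eq]; linarith [exp_pos t, exp_pos (-t)]

lemma norm_WP_le_exp {a : ℝ → ℂ} (h : Good a) {β b : ℝ} (hb : 0 < b) (hβ : |β| ≤ b) (r : ℝ) :
    ‖WP β a r‖ ≤ NA a * (2 * π / b + 1) * exp (b * |r|) := by
  refine (norm_WP_le h hb hβ r).trans ?_
  have := NA_nonneg a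
  gcongr
  exact sinh_le_exp _

lemma cv_sin {k : ℝ} (hk : 0 < k) {l : ℂ} (hl : |l.im| < k) (s : ℝ) :
    ∫ r : ℝ, (gk k (r - s) : ℂ) * Complex.sin (l * r) = sg k l * Complex.sin (l * s) := by
  rw [← integral_add_right_eq_self _ s]
  have e : ∀ r : ℝ, (gk k (r + s - s) : ℂ) * Complex.sin (l * (r + s : ℝ)) =
      ((gk k r : ℂ) * Complex.exp (-(l * Complex.I) * r) * Complex.exp (-(l * s) * Complex.I) -
        (gk k r : ℂ) * Complex.exp (l * Complex.I * r) * Complex.exp (l * s * Complex.I)) *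
        (Complex.I / 2) := by
    intro r
    rw [add_sub_cancel_right, Complex.sin, mul_assoc (gk k r : ℂ), mul_assoc (gk k r : ℂ),
      ← Complex.exp_add, ← Complex.exp_add]
    push_cast
    ring_nf
  have h1 : |(-(l * Complex.I)).re| < k := by simpa using hl
  have h2 : |(l * Complex.I).re| < k := by simpa using hl
  simp_rw [e]
  rw [integral_mul_const, integral_sub ((integrable_gk_mul_cexp hk h1).mul_const _)
    ((integrable_gk_mul_cexp hk h2).mul_const _), integral_mul_const, integral_mul_const,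
    integral_gk_mul_cexp hk h1, integral_gk_mul_cexp hk h2]
  have c1 : (π : ℂ) * (l * Complex.I) / (2 * k) = π * l / (2 * k) * Complex.I := by ring
  have c2 : (π : ℂ) * -(l * Complex.I) / (2 * k) = -(π * l / (2 * k) * Complex.I) := by ring
  rw [c1, c2, Complex.cos_neg, Complex.cos_mul_I, sg, Complex.sin]
  ring

lemma cv_WP {k β : ℝ} (hk : 0 < k) (hβ : |β| ≤ k / 2) {a : ℝ → ℂ} (h : Good a) :
    cv k (WP β a) = WP β fun x => sg k (lam β x) * a x := by
  ext s
  have := h.meas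
  have := continuous_lam β
  have := continuous_gk k
  have hi : Integrable (fun z : ℝ × ℝ =>
      (gk k (z.1 - s) : ℂ) * (a z.2 * Complex.sin (lam β z.2 * z.1))) (volume.prod volume) := by
    have i1 := integrable_cv (c := k / 2) (C := 1) hk (by positivity) (by linarith)
      (F := fun r => ((exp (k / 2 * |r|) : ℝ) : ℂ)) (by fun_prop) (fun r => by
        rw [Complex.norm_real, Real.norm_of_nonneg (exp_pos _).le, one_mul]) s
    have i2 := (i1.norm.mul_prod (h.int.mul_const (2 * π / (k / 2) + 1)))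
    refine i2.mono' (Measurable.aestronglyMeasurable (by fun_prop)) (Eventually.of_forall fun z => ?_)
    simp only [norm_mul, Complex.norm_real, Real.norm_of_nonneg (exp_pos _).le]
    have h1 := norm_sin_lam_le' (half_pos hk) hβ z.2 z.1
    have h2 := sinh_le_exp (k / 2 * |z.1|)
    calc ‖gk k (z.1 - s)‖ * (‖a z.2‖ * ‖Complex.sin (lam β z.2 * z.1)‖)
        ≤ ‖gk k (z.1 - s)‖ * (‖a z.2‖ *
          ((1 + |z.2|) * ((2 * π / (k / 2) + 1) * exp (k / 2 * |z.1|)))) := by
          gcongr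
          exact h1.trans (by gcongr)
      _ = _ := by ring
  unfold cv WP
  simp_rw [← integral_const_mul]
  rw [integral_integral_swap hi]
  congr 1
  ext x
  have e : ∀ r : ℝ, (gk k (r - s) : ℂ) * (a x * Complex.sin (lam β x * r)) =
      a x * ((gk k (r - s) : ℂ) * Complex.sin (lam β x * r)) := fun r => by ring
  simp_rw [e]
  rw [integral_const_mul, cv_sin hk (by rw [lam_im]; linarith)]
  ring

lemma WP_sub {a a' : ℝ → ℂ} (h : Good a) (h' : Good a') (β r : ℝ) :
    WP β (fun x => a x - a' x) r = WP β a r - WP β a' r := by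
  unfold WP
  rw [← integral_sub (h.integrable_WP β r) (h'.integrable_WP β r)]
  simp_rw [sub_mul]

lemma WP_eq_fourier {a : ℝ → ℂ} (h : Good a) (β r : ℝ) :
    WP β a r = ((exp (β * r) : ℝ) * 𝓕 a r - (exp (-(β * r)) : ℝ) * 𝓕 a (-r)) * (Complex.I / 2) := by
  have hm := h.meas
  have hi : ∀ w : ℝ, Integrable fun v : ℝ =>
      Complex.exp (↑(-2 * π * v * w) * Complex.I) • a v := by
    intro w
    refine h.integrable.norm.mono' (by fun_prop) (Eventually.of_forall fun v => ?_)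
    rw [norm_smul, Complex.norm_exp_ofReal_mul_I, one_mul]
  rw [fourier_real_eq_integral_exp_smul, fourier_real_eq_integral_exp_smul, ← integral_const_mul,
    ← integral_const_mul, ← integral_sub ((hi r).const_mul _) ((hi (-r)).const_mul _),
    ← integral_mul_const, WP]
  congr 1
  ext x
  simp only [smul_eq_mul]
  rw [Complex.sin, Complex.ofReal_exp, Complex.ofReal_exp, ← mul_assoc, ← mul_assoc,
    ← Complex.exp_add, ← Complex.exp_add]
  have e1 : -(lam β x * r) * Complex.I = ((β * r : ℝ) : ℂ) + ((-2 * π * x * r : ℝ) : ℂ) * Complex.I := by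
    unfold lam; push_cast
    linear_combination (-(β * r : ℂ)) * Complex.I_mul_I
  have e2 : lam β x * r * Complex.I =
      ((-(β * r) : ℝ) : ℂ) + ((-2 * π * x * -r : ℝ) : ℂ) * Complex.I := by
    unfold lam; push_cast
    linear_combination ((β * r : ℂ)) * Complex.I_mul_I
  rw [e1, e2]; ring

lemma exists_WP_eq {G : ℝ → ℂ} (hG : ContDiff ℝ ∞ G) (hc : HasCompactSupport G)
    (hodd : ∀ r, G (-r) = -G r) (β : ℝ) : ∃ a : 𝓢(ℝ, ℂ), WP β a = G := by
  have h1 : ContDiff ℝ ∞ fun r : ℝ => ((exp (-(β * r)) : ℝ) : ℂ) :=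
    Complex.ofRealCLM.contDiff.comp (f := fun r : ℝ => exp (-(β * r))) (by fun_prop)
  have h2 : ContDiff ℝ ∞ fun r : ℝ => -Complex.I * ((exp (-(β * r)) : ℝ) : ℂ) * G r := by fun_prop
  have h3 : HasCompactSupport fun r : ℝ => -Complex.I * ((exp (-(β * r)) : ℝ) : ℂ) * G r :=
    hc.mul_left
  refine ⟨𝓕⁻ (h3.toSchwartzMap h2), ?_⟩
  ext r
  rw [WP_eq_fourier (good_schwartz _), ← SchwartzMap.fourier_coe, fourier_fourierInv_eq]
  simp only [HasCompactSupport.toSchwartzMap_toFun, hodd, mul_neg, neg_neg]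
  have e : ((exp (β * r) : ℝ) : ℂ) * ((exp (-(β * r)) : ℝ) : ℂ) = 1 := by
    rw [← Complex.ofReal_mul, ← exp_add]; simp
  linear_combination (G r) * e - (G r * ((exp (β * r) : ℝ) : ℂ) * ((exp (-(β * r)) : ℝ) : ℂ)) *
    Complex.I_mul_I

/-- the amplitudes of the backward orbit -/
def amp (c : ℝ) (a : 𝓢(ℝ, ℂ)) (n : ℕ) : 𝓢(ℝ, ℂ) :=
  smulLeftCLM ℂ (fun x => Complex.exp (Complex.I * (th c x : ℝ)) ^ n) a

lemma amp_apply (c : ℝ) (a : 𝓢(ℝ, ℂ)) (n : ℕ) (x : ℝ) :
    amp c a n x = Complex.exp (Complex.I * (th c x : ℝ)) ^ n * a x := by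
  rw [amp, smulLeftCLM_apply_apply (temperate_phase c n), smul_eq_mul]

lemma norm_amp (c : ℝ) (a : 𝓢(ℝ, ℂ)) (n : ℕ) (x : ℝ) : ‖amp c a n x‖ = ‖a x‖ := by
  rw [amp_apply, norm_mul, norm_pow, mul_comm Complex.I, Complex.norm_exp_ofReal_mul_I]; simp

lemma NA_amp (c : ℝ) (a : 𝓢(ℝ, ℂ)) (n : ℕ) : NA (amp c a n) = NA a := by
  simp [NA, norm_amp]

lemma integral_sq_fourier_amp (c : ℝ) (a : 𝓢(ℝ, ℂ)) (n : ℕ) :
    ∫ r, ‖𝓕 (amp c a n) r‖ ^ 2 = ∫ x, ‖a x‖ ^ 2 := by
  rw [integral_norm_sq_fourier]; simp_rw [norm_amp]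

lemma fourier_amp_small {c : ℝ} (hc : 0 < c) (a : 𝓢(ℝ, ℂ)) {η : ℝ} (hη : 0 < η) :
    ∀ᶠ n : ℕ in atTop, ∀ r : ℝ, ‖𝓕 (amp c a n) r‖ ≤ η := by
  have := dispersion (hasDerivAt_th c) (hasDerivAt_th' c) (continuous_th'' c)
    (fun x => th''_neg hc) (fun x => th''_pos hc) a.hasDerivAt (derivCLM ℂ ℂ a).continuous
    (A := max (SchwartzMap.seminorm ℂ 0 0 a) (SchwartzMap.seminorm ℂ 0 0 (derivCLM ℂ ℂ a)))
    (fun x => (a.norm_le_seminorm ℂ x).trans (le_max_left _ _))
    (fun x => ((derivCLM ℂ ℂ a).norm_le_seminorm ℂ x).trans (le_max_right _ _))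
    a.integrable hη
  filter_upwards [this] with n hn r
  have h := hn (-2 * π * r)
  rw [SchwartzMap.fourier_coe, fourier_real_eq_integral_exp_smul]
  refine le_of_eq_of_le ?_ h
  congr 2
  ext x
  rw [amp_apply, smul_eq_mul, ← Complex.exp_nat_mul, ← mul_assoc, ← Complex.exp_add, mul_comm]
  congr 2
  push_cast; ring

end Pool.Agent.MP_e4fe74_an

end
end
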