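import Pool.Agent.Mg.Fe4fe74.Ga8590c
import Pool.Agent.Mg.Fe4fe74.G4f8204

section

noncomputable section

namespace Pool.Agent.MP_e4fe74_an

open MeasureTheory Set Real Filter Topology
open scoped ENNReal

variable {E : Type} [NormedAddCommGroup E] [InnerProductSpace ℝ E] [FiniteDimensional ℝ E]
  [MeasurableSpace E] [BorelSpace E] [Fact (Module.finrank ℝ E = 3)]

set_option linter.unusedSectionVars false

/-- Weighted Schur test. -/
lemma schur_test {α : Type*} [MeasurableSpace α] {μ : Measure α} [SFinite μ] {p q : ℝ}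
    (hpq : p.HolderConjugate q) {K : α → α → ℝ≥0∞} (hK : Measurable fun z : α × α => K z.1 z.2)
    {w : α → ℝ≥0∞} (hw : Measurable w) (hw0 : ∀ x, w x ≠ 0) (hw1 : ∀ x, w x ≠ ⊤) {C : ℝ≥0∞}
    (h1 : ∀ y, ∫⁻ x, K y x * w x ^ q ∂μ ≤ C * w y ^ q)
    (h2 : ∀ x, ∫⁻ y, K y x * w y ^ p ∂μ ≤ C * w x ^ p) {F : α → ℝ≥0∞} (hF : Measurable F) :
    ∫⁻ y, (∫⁻ x, K y x * F x ∂μ) ^ p ∂μ ≤ C ^ p * ∫⁻ x, F x ^ p ∂μ := by
  have hp := hpq.pos
  have hq := hpq.symm.pos
  have hKy : ∀ y, Measurable fun x => K y x := fun y => hK.comp measurable_prodMk_left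
  have hKx : ∀ x, Measurable fun y => K y x := fun x => hK.comp measurable_prodMk_right
  have step : ∀ y, (∫⁻ x, K y x * F x ∂μ) ^ p ≤
      C ^ (p / q) * ∫⁻ x, K y x * w y ^ p * ((F x / w x) ^ p) ∂μ := by
    intro y
    have hy := hKy y
    have hH := ENNReal.lintegral_mul_le_Lp_mul_Lq μ hpq
      (f := fun x => K y x ^ (1 / p) * (F x / w x)) (g := fun x => K y x ^ (1 / q) * w x)
      (by fun_prop) (by fun_prop)
    have e1 : ∀ x, ((fun x => K y x ^ (1 / p) * (F x / w x)) *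
        fun x => K y x ^ (1 / q) * w x) x = K y x * F x := by
      intro x
      simp only [Pi.mul_apply]
      rw [mul_mul_mul_comm, ← ENNReal.rpow_add_of_nonneg _ _ (by positivity) (by positivity),
        hpq.one_div_add_one_div, div_one, ENNReal.rpow_one, ENNReal.div_mul_cancel (hw0 x) (hw1 x)]
    have e2 : ∀ x, (K y x ^ (1 / p) * (F x / w x)) ^ p = K y x * (F x / w x) ^ p := by
      intro x
      rw [ENNReal.mul_rpow_of_nonneg _ _ hp.le, ← ENNReal.rpow_mul, one_div_mul_cancel hp.ne',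
        ENNReal.rpow_one]
    have e3 : ∀ x, (K y x ^ (1 / q) * w x) ^ q = K y x * w x ^ q := by
      intro x
      rw [ENNReal.mul_rpow_of_nonneg _ _ hq.le, ← ENNReal.rpow_mul, one_div_mul_cancel hq.ne',
        ENNReal.rpow_one]
    simp_rw [e1, e2, e3] at hH
    calc (∫⁻ x, K y x * F x ∂μ) ^ p
        ≤ ((∫⁻ x, K y x * (F x / w x) ^ p ∂μ) ^ (1 / p) * (C * w y ^ q) ^ (1 / q)) ^ p := by
          gcongr
          exact hH.trans (by gcongr; exact h1 y)
      _ = C ^ (p / q) * (w y ^ p * ∫⁻ x, K y x * (F x / w x) ^ p ∂μ) := by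
          rw [ENNReal.mul_rpow_of_nonneg _ _ hp.le, ← ENNReal.rpow_mul, one_div_mul_cancel hp.ne',
            ENNReal.rpow_one, ← ENNReal.rpow_mul,
            ENNReal.mul_rpow_of_nonneg _ _ (by positivity), ← ENNReal.rpow_mul]
          have a1 : 1 / q * p = p / q := by ring
          have a2 : q * (p / q) = p := by field_simp
          rw [a1, a2]; ring
      _ = _ := by
          rw [← lintegral_const_mul _ (by fun_prop)]
          congr 2; ext x; ring
  calc ∫⁻ y, (∫⁻ x, K y x * F x ∂μ) ^ p ∂μ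
      ≤ ∫⁻ y, C ^ (p / q) * ∫⁻ x, K y x * w y ^ p * ((F x / w x) ^ p) ∂μ ∂μ := lintegral_mono step
    _ = C ^ (p / q) * ∫⁻ x, ∫⁻ y, K y x * w y ^ p * ((F x / w x) ^ p) ∂μ ∂μ := by
        rw [lintegral_const_mul _ (Measurable.lintegral_prod_right (by fun_prop)),
          lintegral_lintegral_swap (by fun_prop)]
    _ ≤ C ^ (p / q) * ∫⁻ x, C * F x ^ p ∂μ := by
        gcongr with x
        have := hKx x
        rw [lintegral_mul_const _ (by fun_prop)]
        calc (∫⁻ y, K y x * w y ^ p ∂μ) * (F x / w x) ^ p ≤ C * w x ^ p * (F x / w x) ^ p := by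
              gcongr; exact h2 x
          _ = C * F x ^ p := by
              rw [mul_assoc, ← ENNReal.mul_rpow_of_nonneg _ _ hp.le,
                ENNReal.mul_div_cancel (hw0 x) (hw1 x)]
    _ = C ^ p * ∫⁻ x, F x ^ p ∂μ := by
        rw [lintegral_const_mul _ (by fun_prop), ← mul_assoc]
        congr 1
        nth_rw 2 [← ENNReal.rpow_one C]
        rw [← ENNReal.rpow_add_of_nonneg _ _ (by positivity) zero_le_one,
          hpq.div_conj_eq_sub_one, sub_add_cancel]

lemma hypVol_le : (hypVol E) ≤ (volume : Measure E) := by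
  unfold hypVol
  nth_rw 2 [← withDensity_one (μ := (volume : Measure E))]
  apply withDensity_mono
  refine Eventually.of_forall fun x => ?_
  simp only [Pi.one_apply, ENNReal.ofReal_le_one]
  exact (div_le_one (x0_pos x)).2 (one_le_x0 x)

instance : IsLocallyFiniteMeasure (hypVol E) := Measure.isLocallyFiniteMeasure_of_le hypVol_le

instance : NullSingletonClass (hypVol E) := by
  have : Nontrivial E := Module.nontrivial_of_finrank_pos (R := ℝ) (by
    rw [(Fact.out : Module.finrank ℝ E = 3)]; norm_num)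
  unfold hypVol; infer_instance

/-- a fixed boundary point -/
def e0 : E := onb E 0

lemma norm_e0 : ‖(e0 : E)‖ = 1 := by simp [e0]

/-- The pointwise convolution operator. -/
def Sf (k : ℝ) (f : E → ℂ) (y : E) : ℂ := ∫ x, (KK k y x : ℂ) * f x ∂(hypVol E)

lemma schur_KK {p : ℝ} (hp : 2 < p) {F : E → ℝ≥0∞} (hF : Measurable F) :
    ∫⁻ y, (∫⁻ x, ENNReal.ofReal (KK (2 * (1 - 2 / p)) y x) * F x ∂(hypVol E)) ^ p ∂(hypVol E) ≤
      ENNReal.ofReal (1 / cos (π / 4)) ^ p * ∫⁻ x, F x ^ p ∂(hypVol E) := by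
  have hpq : p.HolderConjugate (p / (p - 1)) :=
    (Real.holderConjugate_iff_eq_conjExponent (by linarith)).2 rfl
  set q := p / (p - 1) with hq
  have hp1 : 0 < p - 1 := by linarith
  have hb : 0 < 1 - 2 / p := by
    rw [sub_pos, div_lt_one (by linarith)]; exact hp
  have hK := measurable_KK (E := E) (2 * (1 - 2 / p))
  have hP : Measurable fun x : E => lor (lift x) (1, e0) :=
    (continuous_lor.comp (continuous_lift.prodMk continuous_const)).measurable
  have hpow : ∀ (x : E) (t : ℝ), 0 ≤ t →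
      ENNReal.ofReal (lor (lift x) (1, e0) ^ (-2 / (p * q))) ^ t =
        ENNReal.ofReal (lor (lift x) (1, e0) ^ (-2 / (p * q) * t)) := by
    intro x t ht
    rw [ENNReal.ofReal_rpow_of_nonneg (rpow_nonneg (lor_null_pos norm_e0 x).le _) ht,
      ← rpow_mul (lor_null_pos norm_e0 x).le]
  apply schur_test hpq (w := fun x => ENNReal.ofReal (lor (lift x) (1, e0) ^ (-2 / (p * q))))
    (by fun_prop) (by fun_prop)
    (fun x => (ENNReal.ofReal_pos.2 (rpow_pos_of_pos (lor_null_pos norm_e0 x) _)).ne')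
    (fun x => ENNReal.ofReal_ne_top) _ _ hF
  · intro y
    simp_rw [hpow _ q hpq.symm.pos.le]
    have a1 : -2 / (p * q) * q + 1 = 1 - 2 / p := by
      have := hpq.symm.pos
      field_simp; ring
    rw [eigen_real (by positivity) norm_e0 (by rw [a1, abs_of_pos hb]; linarith), a1]
    have a2 : π * (1 - 2 / p) / (2 * (2 * (1 - 2 / p))) = π / 4 := by
      generalize 1 - 2 / p = b at hb
      field_simp; ring
    rw [a2]
  · intro x
    simp_rw [hpow _ p hpq.pos.le]
    rw [lintegral_congr (fun y => by rw [KK_comm _ y x])]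
    have a1 : -2 / (p * q) * p + 1 = -(1 - 2 / p) := by
      rw [hq]; field_simp; ring
    rw [eigen_real (by positivity) norm_e0 (by rw [a1, abs_neg, abs_of_pos hb]; linarith), a1]
    have a2 : π * -(1 - 2 / p) / (2 * (2 * (1 - 2 / p))) = -(π / 4) := by
      generalize 1 - 2 / p = b at hb
      field_simp; ring
    rw [a2, cos_neg]

lemma stronglyMeasurable_Sf (k : ℝ) {f : E → ℂ} (hf : StronglyMeasurable f) :
    StronglyMeasurable (Sf k f) := by
  have hK := measurable_KK (E := E) k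
  have hf' := hf.measurable
  apply StronglyMeasurable.integral_prod_right (f := fun y x => (KK k y x : ℂ) * f x)
  apply Measurable.stronglyMeasurable
  unfold Function.uncurry
  fun_prop

lemma enorm_KK_mul (k : ℝ) (y x : E) (c : ℂ) :
    ‖(KK k y x : ℂ) * c‖ₑ = ENNReal.ofReal (KK k y x) * ‖c‖ₑ := by
  rw [enorm_mul, ← ofReal_norm (KK k y x : ℂ), Complex.norm_real,
    Real.norm_of_nonneg (KK_nonneg _ _ _)]

lemma Sf_congr (k : ℝ) {f g : E → ℂ} (h : f =ᵐ[(hypVol E)] g) : Sf k f = Sf k g := by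
  ext y
  apply integral_congr_ae
  filter_upwards [h] with x hx
  rw [hx]

variable {p : ℝ≥0∞}

/-- the parameter of the kernel attached to `p` -/
def kp (p : ℝ≥0∞) : ℝ := 2 * (1 - 2 / p.toReal)

lemma two_lt_toReal (h2 : 2 < p) (ht : p ≠ ⊤) : 2 < p.toReal := by
  have := (ENNReal.toReal_lt_toReal ENNReal.ofNat_ne_top ht).2 h2
  simpa using this

lemma eLpNorm_Sf_le (h2 : 2 < p) (ht : p ≠ ⊤) {f : E → ℂ} (hf : StronglyMeasurable f) :
    eLpNorm (Sf (kp p) f) p (hypVol E) ≤ ENNReal.ofReal (1 / cos (π / 4)) * eLpNorm f p (hypVol E) := by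
  have hp := two_lt_toReal h2 ht
  have h0 : p ≠ 0 := (lt_trans (by norm_num) h2).ne'
  rw [eLpNorm_eq_lintegral_rpow_enorm_toReal h0 ht, eLpNorm_eq_lintegral_rpow_enorm_toReal h0 ht]
  have h := schur_KK hp hf.measurable.enorm
  calc (∫⁻ y, ‖Sf (kp p) f y‖ₑ ^ p.toReal ∂(hypVol E)) ^ (1 / p.toReal)
      ≤ (ENNReal.ofReal (1 / cos (π / 4)) ^ p.toReal *
          ∫⁻ x, ‖f x‖ₑ ^ p.toReal ∂(hypVol E)) ^ (1 / p.toReal) := by
        gcongr
        refine le_trans (lintegral_mono fun y => ?_) h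
        gcongr
        refine (enorm_integral_le_lintegral_enorm _).trans (le_of_eq ?_)
        simp_rw [enorm_KK_mul]; rfl
    _ = _ := by
        rw [ENNReal.mul_rpow_of_nonneg _ _ (by positivity), ← ENNReal.rpow_mul,
          mul_one_div_cancel (by linarith), ENNReal.rpow_one]

lemma ae_integrable_KK (h2 : 2 < p) (ht : p ≠ ⊤) {f : E → ℂ} (hf : StronglyMeasurable f)
    (hm : MemLp f p (hypVol E)) :
    ∀ᵐ y ∂(hypVol E), Integrable (fun x => (KK (kp p) y x : ℂ) * f x) (hypVol E) := by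
  have hp := two_lt_toReal h2 ht
  have h0 : p ≠ 0 := (lt_trans (by norm_num) h2).ne'
  have h := schur_KK hp hf.measurable.enorm
  have hK := measurable_KK (E := E) (kp p)
  have hf' := hf.measurable
  have hfin : ∫⁻ x, ‖f x‖ₑ ^ p.toReal ∂(hypVol E) < ⊤ :=
    (eLpNorm_lt_top_iff_lintegral_rpow_enorm_lt_top h0 ht).1 hm.2
  have h3 := ae_lt_top ((Measurable.lintegral_prod_right
    (f := fun y x => ENNReal.ofReal (KK (kp p) y x) * ‖f x‖ₑ) (by
      unfold Function.uncurry; fun_prop)).pow_const p.toReal)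
    (h.trans_lt (ENNReal.mul_lt_top (ENNReal.rpow_lt_top_of_nonneg (by positivity)
      ENNReal.ofReal_ne_top) hfin)).ne
  filter_upwards [h3] with y hy
  have hy' := measurable_KK_right (kp p) y
  refine ⟨by fun_prop, ?_⟩
  rw [hasFiniteIntegral_iff_enorm]
  simp_rw [enorm_KK_mul]
  exact (ENNReal.rpow_lt_top_iff_of_pos (by linarith)).1 hy

lemma memLp_Sf (h2 : 2 < p) (ht : p ≠ ⊤) (F : Lp ℂ p (hypVol E)) : MemLp (Sf (kp p) F) p (hypVol E) :=
  ⟨(stronglyMeasurable_Sf _ (Lp.stronglyMeasurable F)).aestronglyMeasurable,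
    (eLpNorm_Sf_le h2 ht (Lp.stronglyMeasurable F)).trans_lt
      (ENNReal.mul_lt_top ENNReal.ofReal_lt_top (Lp.eLpNorm_lt_top F))⟩

/-- The convolution operator as a linear map on `L^p`. -/
def Slin (h2 : 2 < p) (ht : p ≠ ⊤) : Lp ℂ p (hypVol E) →ₗ[ℂ] Lp ℂ p (hypVol E) where
  toFun F := (memLp_Sf h2 ht F).toLp _
  map_add' F G := by
    rw [← MemLp.toLp_add, MemLp.toLp_eq_toLp_iff, Sf_congr _ (Lp.coeFn_add F G)]
    filter_upwards [ae_integrable_KK h2 ht (Lp.stronglyMeasurable F) (Lp.memLp F),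
      ae_integrable_KK h2 ht (Lp.stronglyMeasurable G) (Lp.memLp G)] with y h1 h2
    simp only [Sf, Pi.add_apply, mul_add]
    exact integral_add h1 h2
  map_smul' c F := by
    rw [RingHom.id_apply, ← MemLp.toLp_const_smul, MemLp.toLp_eq_toLp_iff,
      Sf_congr _ (Lp.coeFn_smul c F)]
    refine Eventually.of_forall fun y => ?_
    simp only [Sf, Pi.smul_apply, smul_eq_mul]
    rw [← integral_const_mul]
    congr 1; ext x; ring

/-- The convolution operator on `L^p`. -/
def Sop [Fact (1 ≤ p)] (h2 : 2 < p) (ht : p ≠ ⊤) : Lp ℂ p (hypVol E) →L[ℂ] Lp ℂ p (hypVol E) :=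
  (Slin h2 ht).mkContinuous (1 / cos (π / 4)) fun F => by
    have hc : 0 < cos (π / 4) := by rw [cos_pi_div_four]; positivity
    change ‖(memLp_Sf h2 ht F).toLp _‖ ≤ _
    rw [Lp.norm_toLp, Lp.norm_def, ← ENNReal.toReal_ofReal (by positivity : 0 ≤ 1 / cos (π / 4)),
      ← ENNReal.toReal_mul]
    exact ENNReal.toReal_mono (ENNReal.mul_ne_top ENNReal.ofReal_ne_top (Lp.eLpNorm_ne_top F))
      (eLpNorm_Sf_le h2 ht (Lp.stronglyMeasurable F))

lemma coeFn_Sop [Fact (1 ≤ p)] (h2 : 2 < p) (ht : p ≠ ⊤) (F : Lp ℂ p (hypVol E)) {f : E → ℂ}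
    (h : F =ᵐ[(hypVol E)] f) : Sop h2 ht F =ᵐ[(hypVol E)] Sf (kp p) f := by
  rw [← Sf_congr _ h]
  exact (memLp_Sf h2 ht F).coeFn_toLp

lemma IsLorentz.Sf_act {g : (ℝ × E) →ₗ[ℝ] (ℝ × E)} (hg : IsLorentz g) (k : ℝ) (f : E → ℂ) :
    Sf k (f ∘ act g) = Sf k f ∘ act g := by
  ext y
  simp only [Sf, Function.comp_apply]
  rw [← hg.measurePreserving.integral_comp hg.measurableEmbedding
    (fun x => (KK k (act g y) x : ℂ) * f x)]
  simp_rw [hg.KK_act]

end Pool.Agent.MP_e4fe74_an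

end
end

section

noncomputable section

namespace Pool.Agent.MP_e4fe74_an

open MeasureTheory Set Real Filter Topology
open scoped ENNReal

variable {E : Type} [NormedAddCommGroup E] [InnerProductSpace ℝ E] [FiniteDimensional ℝ E]
  [MeasurableSpace E] [BorelSpace E] [Fact (Module.finrank ℝ E = 3)]

set_option linter.unusedSectionVars false

lemma measurable_poisson (b : E) (s : ℂ) :
    Measurable fun x : E => ((lor (lift x) (1, b) : ℝ) : ℂ) ^ s := by
  have hP : Measurable fun x : E => lor (lift x) (1, b) :=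
    (continuous_lor.comp (continuous_lift.prodMk continuous_const)).measurable
  fun_prop

lemma enorm_poisson {b : E} (hb : ‖b‖ = 1) (s : ℂ) (x : E) :
    ‖((lor (lift x) (1, b) : ℝ) : ℂ) ^ s‖ₑ = ENNReal.ofReal (lor (lift x) (1, b) ^ s.re) := by
  rw [← ofReal_norm, Complex.norm_cpow_eq_rpow_re_of_pos (lor_null_pos hb x)]

lemma symbol_Sf {k : ℝ} (hk : 0 < k) {b : E} (hb : ‖b‖ = 1) {s : ℂ} (hs : |(s + 1).re| < k)
    {f : E → ℂ} (hf : Measurable f)
    (hi : Integrable (fun x => f x * ((lor (lift x) (1, b) : ℝ) : ℂ) ^ s) (hypVol E)) :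
    Integrable (fun x => Sf k f x * ((lor (lift x) (1, b) : ℝ) : ℂ) ^ s) (hypVol E) ∧
      ∫ x, Sf k f x * ((lor (lift x) (1, b) : ℝ) : ℂ) ^ s ∂(hypVol E) =
        1 / Complex.cos (π * (s + 1) / (2 * k)) *
          ∫ x, f x * ((lor (lift x) (1, b) : ℝ) : ℂ) ^ s ∂(hypVol E) := by
  have hK := measurable_KK (E := E) k
  have hP := measurable_poisson b s
  set e : E → ℂ := fun x => ((lor (lift x) (1, b) : ℝ) : ℂ) ^ s with he
  have hm : Measurable fun z : E × E => (KK k z.1 z.2 : ℂ) * f z.2 * e z.1 := by fun_prop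
  have hprod : Integrable (fun z : E × E => (KK k z.1 z.2 : ℂ) * f z.2 * e z.1)
      ((hypVol E).prod (hypVol E)) := by
    refine ⟨hm.aestronglyMeasurable, ?_⟩
    rw [hasFiniteIntegral_iff_enorm, lintegral_prod_symm _ hm.enorm.aemeasurable]
    have : ∀ x, ∫⁻ y, ‖(KK k y x : ℂ) * f x * e y‖ₑ ∂(hypVol E) =
        ENNReal.ofReal (1 / cos (π * (s.re + 1) / (2 * k))) * ‖f x * e x‖ₑ := by
      intro x
      have h1 : ∀ y, ‖(KK k y x : ℂ) * f x * e y‖ₑ =
          ENNReal.ofReal (KK k x y) * ENNReal.ofReal (lor (lift y) (1, b) ^ s.re) * ‖f x‖ₑ := by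
        intro y
        rw [enorm_mul, enorm_KK_mul, he]
        simp only
        rw [enorm_poisson hb, KK_comm]; ring
      simp_rw [h1]
      rw [lintegral_mul_const' _ _ enorm_ne_top, eigen_real hk hb (by simpa using hs), enorm_mul,
        he]
      simp only
      rw [enorm_poisson hb]; ring
    simp_rw [this]
    rw [lintegral_const_mul' _ _ ENNReal.ofReal_ne_top]
    exact ENNReal.mul_lt_top ENNReal.ofReal_lt_top hi.2
  have e1 : (fun y => Sf k f y * e y) = fun y => ∫ x, (KK k y x : ℂ) * f x * e y ∂(hypVol E) := by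
    ext y; rw [integral_mul_const]; rfl
  change Integrable (fun y => Sf k f y * e y) (hypVol E) ∧ ∫ y, Sf k f y * e y ∂(hypVol E) = _
  rw [e1]
  refine ⟨hprod.integral_prod_left, ?_⟩
  rw [integral_integral_swap hprod, ← integral_const_mul]
  congr 1
  ext x
  have h2 := (eigen hk hb hs x).2
  have h3 : ∀ y, (KK k y x : ℂ) * f x * e y = f x * ((KK k x y : ℂ) * e y) := by
    intro y; rw [KK_comm]; ring
  simp_rw [h3]
  rw [integral_const_mul, he]
  simp only
  rw [h2]; ring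

end Pool.Agent.MP_e4fe74_an

end
end

section

noncomputable section

namespace Pool.Agent.MP_e4fe74_an

open MeasureTheory Set Real Filter Topology FourierTransform SchwartzMap
open scoped ENNReal ContDiff

variable {E : Type} [NormedAddCommGroup E] [InnerProductSpace ℝ E] [FiniteDimensional ℝ E]
  [MeasurableSpace E] [BorelSpace E] [Fact (Module.finrank ℝ E = 3)]

set_option linter.unusedSectionVars false

/-- the `p`-th power of the norm of a radial function -/
def Nrm (p : ℝ) (G : ℝ → ℂ) : ℝ≥0∞ :=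
  ∫⁻ r in Ioi (0 : ℝ), ENNReal.ofReal (4 * π * sinh r ^ 2) * ‖G r / (sinh r : ℝ)‖ₑ ^ p

lemma lintegral_dst (z : E) (G : ℝ → ℝ≥0∞) (hG : Measurable G) :
    ∫⁻ x, G (dst x z) ∂(hypVol E) =
      ∫⁻ r in Ioi (0 : ℝ), ENNReal.ofReal (4 * π * sinh r ^ 2) * G r := by
  have hg := isLorentz_swap z
  rw [← lintegral_rad (E := E) G hG, ← hg.measurePreserving.lintegral_comp_emb
    hg.measurableEmbedding]
  congr 1
  ext x
  rw [← hg.dst_act, act_swap_swap, act_swap_self, dst_zero]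

lemma lintegral_UU (p : ℝ) {G : ℝ → ℂ} (hG : Measurable G) (z : E) :
    ∫⁻ x, ‖UU G x z‖ₑ ^ p ∂(hypVol E) = Nrm p G :=
  lintegral_dst z (fun r => ‖G r / (sinh r : ℝ)‖ₑ ^ p) (by fun_prop)

lemma Nrm_le {p : ℝ} (hp : 2 < p) {G : ℝ → ℂ} {H : ℝ → ℝ} {C δ D : ℝ} (hD : 0 ≤ D)
    (h1 : ∀ r ∈ Ioc (0 : ℝ) 1, ‖G r‖ ≤ C * sinh r)
    (h2 : ∀ r, 0 < r → ‖G r‖ ≤ exp ((1 - 2 / p) * r) * H r) (h3 : ∀ r, 0 < r → H r ≤ δ)
    (h4 : ∫⁻ r in Ioi (0 : ℝ), ENNReal.ofReal (H r ^ 2) ≤ ENNReal.ofReal D) :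
    Nrm p G ≤ ENNReal.ofReal (4 * π * C ^ (p - 2) * (exp 1 * δ) ^ 2 +
      4 * π * (4 * δ) ^ (p - 2) * D) := by
  have hH : ∀ r, 0 < r → 0 ≤ H r := fun r hr =>
    nonneg_of_mul_nonneg_right ((norm_nonneg _).trans (h2 r hr)) (exp_pos _)
  have hδ : 0 ≤ δ := (hH 1 one_pos).trans (h3 1 one_pos)
  have hC : 0 ≤ C := nonneg_of_mul_nonneg_left ((norm_nonneg _).trans (h1 1 (by simp)))
    (sinh_pos_iff.2 one_pos)
  have hb1 : 1 - 2 / p ≤ 1 := by have : 0 ≤ 2 / p := by positivity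
                                 linarith
  have hb0 : 0 ≤ 1 - 2 / p := by rw [sub_nonneg, div_le_one (by linarith)]; linarith
  set A := 4 * π * C ^ (p - 2) * (exp 1 * δ) ^ 2 with hA
  set B := 4 * π * (4 * δ) ^ (p - 2) with hB
  have pt : ∀ r ∈ Ioi (0 : ℝ), ENNReal.ofReal (4 * π * sinh r ^ 2) * ‖G r / (sinh r : ℝ)‖ₑ ^ p ≤
      (Ioc (0 : ℝ) 1).indicator (fun _ => ENNReal.ofReal A) r +
        ENNReal.ofReal B * ENNReal.ofReal (H r ^ 2) := by
    intro r hr
    have hr0 : 0 < r := hr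
    have hs : 0 < sinh r := sinh_pos_iff.2 hr0
    have e : ENNReal.ofReal (4 * π * sinh r ^ 2) * ‖G r / (sinh r : ℝ)‖ₑ ^ p =
        ENNReal.ofReal (4 * π * (‖G r‖ / sinh r) ^ (p - 2) * ‖G r‖ ^ 2) := by
      rw [← ofReal_norm, norm_div, Complex.norm_real, Real.norm_of_nonneg hs.le,
        ENNReal.ofReal_rpow_of_nonneg (by positivity) (by linarith),
        ← ENNReal.ofReal_mul (by positivity)]
      congr 1
      have : (‖G r‖ / sinh r) ^ p = (‖G r‖ / sinh r) ^ (p - 2) * (‖G r‖ / sinh r) ^ 2 := by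
        rw [← rpow_natCast, ← rpow_add' (by positivity) (by push_cast; linarith)]
        congr 1; push_cast; ring
      rw [this]; field_simp
    rw [e]
    by_cases hr1 : r ≤ 1
    · rw [indicator_of_mem (show r ∈ Ioc (0 : ℝ) 1 from ⟨hr0, hr1⟩)]
      refine le_trans (ENNReal.ofReal_le_ofReal ?_) le_self_add
      have a1 : ‖G r‖ / sinh r ≤ C := by rw [div_le_iff₀ hs]; exact h1 r ⟨hr0, hr1⟩
      have a2 : ‖G r‖ ≤ exp 1 * δ := by
        refine (h2 r hr0).trans (mul_le_mul ?_ (h3 r hr0) (hH r hr0) (exp_pos _).le)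
        rw [exp_le_exp]; nlinarith
      rw [hA]
      gcongr
    · refine le_trans ?_ le_add_self
      rw [← ENNReal.ofReal_mul (by positivity)]
      apply ENNReal.ofReal_le_ofReal
      push Not at hr1
      have a0 : exp r / 4 ≤ sinh r := by
        rw [sinh_eq]
        have b1 : exp (-r) ≤ 1 := exp_le_one_iff.2 (by linarith)
        have b2 : r + 1 ≤ exp r := add_one_le_exp r
        linarith
      have a1 : ‖G r‖ / sinh r ≤ 4 * δ * exp (-(2 / p) * r) := by
        rw [div_le_iff₀ hs]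
        calc ‖G r‖ ≤ exp ((1 - 2 / p) * r) * δ := (h2 r hr0).trans (by gcongr; exact h3 r hr0)
          _ = 4 * δ * exp (-(2 / p) * r) * (exp r / 4) := by
              have : (1 - 2 / p) * r = -(2 / p) * r + r := by ring
              rw [this, exp_add]; ring
          _ ≤ _ := by gcongr
      calc 4 * π * (‖G r‖ / sinh r) ^ (p - 2) * ‖G r‖ ^ 2
          ≤ 4 * π * (4 * δ * exp (-(2 / p) * r)) ^ (p - 2) * (exp ((1 - 2 / p) * r) * H r) ^ 2 := by
            gcongr
            exact h2 r hr0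
        _ = B * H r ^ 2 * (exp (-(2 / p) * r * (p - 2)) * exp ((1 - 2 / p) * r) ^ 2) := by
            rw [mul_rpow (by positivity) (exp_pos _).le, ← exp_mul, hB]; ring
        _ = B * H r ^ 2 := by
            rw [← exp_nat_mul, ← exp_add]
            have : -(2 / p) * r * (p - 2) + ((2 : ℕ) : ℝ) * ((1 - 2 / p) * r) = 0 := by
              push_cast; field_simp; ring
            rw [this, exp_zero, mul_one]
  calc Nrm p G ≤ ∫⁻ r in Ioi (0 : ℝ), ((Ioc (0 : ℝ) 1).indicator (fun _ => ENNReal.ofReal A) r +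
        ENNReal.ofReal B * ENNReal.ofReal (H r ^ 2)) :=
        setLIntegral_mono' measurableSet_Ioi pt
    _ ≤ ENNReal.ofReal A + ENNReal.ofReal B * ENNReal.ofReal D := by
        rw [lintegral_add_left (measurable_const.indicator measurableSet_Ioc),
          lintegral_const_mul' _ _ ENNReal.ofReal_ne_top]
        gcongr
        refine (setLIntegral_le_lintegral _ _).trans ?_
        rw [lintegral_indicator_const measurableSet_Ioc]
        simp
    _ = _ := by
        rw [← ENNReal.ofReal_mul (by positivity), ← ENNReal.ofReal_add (by positivity)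
          (by positivity)]

lemma tendsto_bound {p : ℝ} (hp : 2 < p) (C D : ℝ) :
    Tendsto (fun δ : ℝ => ENNReal.ofReal (4 * π * C ^ (p - 2) * (exp 1 * δ) ^ 2 +
      4 * π * (4 * δ) ^ (p - 2) * D)) (𝓝 0) (𝓝 0) := by
  have h : Continuous fun δ : ℝ => 4 * π * C ^ (p - 2) * (exp 1 * δ) ^ 2 +
      4 * π * (4 * δ) ^ (p - 2) * D := by
    have : Continuous fun δ : ℝ => (4 * δ) ^ (p - 2) :=
      (continuous_const.mul continuous_id).rpow_const fun _ => Or.inr (by linarith)
    fun_prop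
  have := ENNReal.continuous_ofReal.continuousAt.tendsto.comp (h.tendsto 0)
  simpa [zero_rpow (by linarith : p - 2 ≠ 0), Function.comp_def] using this

lemma sinh_mul_le {b r : ℝ} (hb : b ≤ 1) (hr : 0 ≤ r) : sinh (b * |r|) ≤ sinh r := by
  rw [sinh_le_sinh, abs_of_nonneg hr]; nlinarith

/-- backward orbit: norms tend to zero -/
lemma tendsto_Nrm_amp {p : ℝ} (hp : 2 < p) {c : ℝ} (hc : 0 < c) (a : 𝓢(ℝ, ℂ)) :
    Tendsto (fun n => Nrm p (WP (1 - 2 / p) (amp c a n))) atTop (𝓝 0) := by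
  have hb1 : 1 - 2 / p ≤ 1 := by have : 0 ≤ 2 / p := by positivity
                                 linarith
  have hb0 : 0 < 1 - 2 / p := by rw [sub_pos, div_lt_one (by linarith)]; linarith
  set b := 1 - 2 / p with hb
  rw [ENNReal.tendsto_nhds_zero]
  intro ε hε
  obtain ⟨δ, hδ, hδ0⟩ := (((ENNReal.tendsto_nhds_zero.1
    (tendsto_bound hp (NA a * (2 * π / b + 1)) (∫ x, ‖a x‖ ^ 2)) ε hε).filter_mono
    nhdsWithin_le_nhds).and (self_mem_nhdsWithin (s := Ioi (0 : ℝ)))).exists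
  filter_upwards [fourier_amp_small hc a hδ0] with n hn
  refine le_trans ?_ hδ
  have hg := good_schwartz (amp c a n)
  set V := 𝓕 (amp c a n) with hV
  have hV2 : Integrable fun r => ‖V r‖ ^ 2 := by
    have := (V.memLp 2 volume).integrable_norm_pow (by norm_num)
    exact this
  apply Nrm_le hp (H := fun r => (‖V r‖ + ‖V (-r)‖) / 2)
    (integral_nonneg fun x => by positivity)
  · intro r hr
    refine (norm_WP_le hg hb0 (by rw [abs_of_pos hb0]) r).trans ?_
    rw [NA_amp]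
    have := NA_nonneg a
    gcongr
    exact sinh_mul_le hb1 hr.1.le
  · intro r hr
    rw [WP_eq_fourier hg, ← SchwartzMap.fourier_coe, ← hV, norm_mul, norm_div, Complex.norm_I]
    have h1 : exp (-(b * r)) ≤ exp (b * r) := exp_le_exp.2 (by nlinarith)
    have h2 := norm_sub_le ((exp (b * r) : ℝ) * V r) ((exp (-(b * r)) : ℝ) * V (-r))
    rw [norm_mul, norm_mul, Complex.norm_real, Complex.norm_real,
      Real.norm_of_nonneg (exp_pos _).le, Real.norm_of_nonneg (exp_pos _).le] at h2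
    have h3 : exp (-(b * r)) * ‖V (-r)‖ ≤ exp (b * r) * ‖V (-r)‖ := by gcongr
    simp only [Complex.norm_ofNat]
    linarith
  · intro r _
    linarith [hn r, hn (-r)]
  · refine (setLIntegral_le_lintegral _ _).trans ?_
    have hi : Integrable fun r => (‖V r‖ ^ 2 + ‖V (-r)‖ ^ 2) / 2 :=
      (hV2.add hV2.comp_neg).div_const 2
    calc ∫⁻ r, ENNReal.ofReal (((‖V r‖ + ‖V (-r)‖) / 2) ^ 2)
        ≤ ∫⁻ r, ENNReal.ofReal ((‖V r‖ ^ 2 + ‖V (-r)‖ ^ 2) / 2) :=
          lintegral_mono fun r => ENNReal.ofReal_le_ofReal (by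
            nlinarith [sq_nonneg (‖V r‖ - ‖V (-r)‖)])
      _ = _ := by
          rw [← ofReal_integral_eq_lintegral_ofReal hi (Eventually.of_forall fun r => by
            positivity), integral_div, integral_add hV2 hV2.comp_neg,
            integral_neg_eq_self (fun r => ‖V r‖ ^ 2), hV, integral_sq_fourier_amp]
          congr 1; ring

lemma Nrm_WP_zero_le {p : ℝ} (hp : 2 < p) {a : ℝ → ℂ} (ha : Good a) {M : ℝ} (hM : NA a ≤ M) :
    Nrm p (WP 0 a) ≤ ENNReal.ofReal (4 * π * (2 * π * M) ^ (p - 2) *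
      (exp 1 * (NA a * (4 * π / (1 - 2 / p)))) ^ 2 +
      4 * π * (4 * (NA a * (4 * π / (1 - 2 / p)))) ^ (p - 2) *
        ((M * (4 * π / (1 - 2 / p))) ^ 2 / (1 - 2 / p))) := by
  have hb0 : 0 < 1 - 2 / p := by rw [sub_pos, div_lt_one (by linarith)]; linarith
  set b := 1 - 2 / p with hb
  have hN := NA_nonneg a
  have hM0 : 0 ≤ M := hN.trans hM
  apply Nrm_le hp (H := fun r => NA a * (4 * π / b) * exp (-(b / 2 * r))) (by positivity)
  · intro r hr
    refine (norm_WP_zero_le ha r).trans ?_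
    have : r ≤ sinh r := self_le_sinh_iff.2 hr.1.le
    rw [abs_of_pos hr.1]
    calc NA a * (2 * π * r) ≤ M * (2 * π * sinh r) := by
          have := hr.1.le
          gcongr
      _ = _ := by ring
  · intro r hr
    refine (norm_WP_zero_le ha r).trans ?_
    rw [abs_of_pos hr]
    have h1 : b / 2 * r ≤ exp (b / 2 * r) := by linarith [add_one_le_exp (b / 2 * r)]
    have h2 : exp (b * r) * (NA a * (4 * π / b) * exp (-(b / 2 * r))) =
        NA a * (4 * π / b * exp (b / 2 * r)) := by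
      have : b * r = b / 2 * r + b / 2 * r := by ring
      rw [this, exp_add, exp_neg]; field_simp
    rw [h2]
    refine mul_le_mul_of_nonneg_left ?_ hN
    calc 2 * π * r = 4 * π / b * (b / 2 * r) := by field_simp; ring
      _ ≤ _ := by gcongr
  · intro r hr
    have : exp (-(b / 2 * r)) ≤ 1 := exp_le_one_iff.2 (by nlinarith)
    exact mul_le_of_le_one_right (by positivity) this
  · have hi : IntegrableOn (fun r => (M * (4 * π / b)) ^ 2 * exp (-b * r)) (Ioi 0) :=
      (integrableOn_exp_mul_Ioi (by linarith) 0).const_mul _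
    calc ∫⁻ r in Ioi (0 : ℝ), ENNReal.ofReal ((NA a * (4 * π / b) * exp (-(b / 2 * r))) ^ 2)
        ≤ ∫⁻ r in Ioi (0 : ℝ), ENNReal.ofReal ((M * (4 * π / b)) ^ 2 * exp (-b * r)) := by
          refine lintegral_mono fun r => ENNReal.ofReal_le_ofReal ?_
          rw [mul_pow, ← exp_nat_mul]
          have : ((2 : ℕ) : ℝ) * -(b / 2 * r) = -b * r := by push_cast; ring
          rw [this]
          gcongr
      _ = _ := by
          rw [← ofReal_integral_eq_lintegral_ofReal hi (Eventually.of_forall fun r => by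
            positivity), integral_const_mul, integral_exp_mul_Ioi (by linarith)]
          congr 1
          simp; field_simp

/-- forward orbit: norms tend to zero -/
lemma tendsto_Nrm_forward {p : ℝ} (hp : 2 < p) {k : ℝ} (hk : 0 < k) {a : ℝ → ℂ} (ha : Good a) :
    Tendsto (fun n : ℕ => Nrm p (WP 0 fun x => mm k (lam 0 x) ^ n * a x)) atTop (𝓝 0) := by
  have hm : Measurable fun x => mm k (lam 0 x) :=
    (measurable_mm k).comp (continuous_lam 0).measurable
  have hlt : ∀ x, ‖mm k (lam 0 x)‖ < 1 := fun x => norm_mm_lt hk (lam_im 0 x)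
  have hle : ∀ (n : ℕ) x, ‖mm k (lam 0 x) ^ n‖ ≤ 1 := fun n x => by
    rw [norm_pow]; exact pow_le_one₀ (norm_nonneg _) (hlt x).le
  have hg : ∀ n : ℕ, Good fun x => mm k (lam 0 x) ^ n * a x := fun n =>
    ha.mul (hm.pow_const n) (hle n)
  have hN : Tendsto (fun n : ℕ => NA fun x => mm k (lam 0 x) ^ n * a x) atTop (𝓝 0) := by
    have := tendsto_integral_of_dominated_convergence (μ := volume)
      (F := fun (n : ℕ) x => (1 + |x|) * ‖mm k (lam 0 x) ^ n * a x‖) (f := fun _ => 0)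
      (fun x => (1 + |x|) * ‖a x‖) (fun n => (hg n).int.aestronglyMeasurable) ha.int
      (fun n => Eventually.of_forall fun x => by
        rw [Real.norm_of_nonneg (by positivity), norm_mul]
        gcongr
        exact mul_le_of_le_one_left (norm_nonneg _) (hle n x))
      (Eventually.of_forall fun x => by
        have := ((tendsto_pow_atTop_nhds_zero_of_norm_lt_one (hlt x)).mul_const (a x)).norm.const_mul
          (1 + |x|)
        simpa using this)
    simpa [NA] using this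
  have h2 := (tendsto_bound hp (2 * π * NA a)
    ((NA a * (4 * π / (1 - 2 / p))) ^ 2 / (1 - 2 / p))).comp
    (by simpa using hN.mul_const (4 * π / (1 - 2 / p)))
  exact tendsto_of_tendsto_of_tendsto_of_le_of_le tendsto_const_nhds h2 (fun _ => zero_le)
    fun n => Nrm_WP_zero_le hp (hg n) (NA_mul_le ha (hm.pow_const n) (hle n))

end Pool.Agent.MP_e4fe74_an

end
end

section

noncomputable section

namespace Pool.Agent.MP_e4fe74_an

open MeasureTheory Set Real Filter Topology FourierTransform SchwartzMap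
open scoped ENNReal ContDiff

variable {E : Type} [NormedAddCommGroup E] [InnerProductSpace ℝ E] [FiniteDimensional ℝ E]
  [MeasurableSpace E] [BorelSpace E] [Fact (Module.finrank ℝ E = 3)]

set_option linter.unusedSectionVars false

/-- superposition of translated radial profiles -/
def BB (f : E → ℂ) (G : ℝ → ℂ) (x : E) : ℂ := ∫ z, f z * UU G x z ∂(hypVol E)

lemma stronglyMeasurable_BB {f : E → ℂ} {G : ℝ → ℂ} (hf : Measurable f) (hG : Measurable G) :
    StronglyMeasurable (BB f G) := by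
  have hU := measurable_UU (E := E) hG
  apply StronglyMeasurable.integral_prod_right (f := fun x z => f z * UU G x z)
  apply Measurable.stronglyMeasurable
  exact (hf.comp measurable_snd).mul hU

lemma young {p : ℝ} (hp : 1 < p) {f : E → ℂ} (hf : Measurable f) (hi : Integrable f (hypVol E)) :
    ∃ C : ℝ≥0∞, C ≠ ⊤ ∧ ∀ G : ℝ → ℂ, Measurable G →
      ∫⁻ x, ‖BB f G x‖ₑ ^ p ∂(hypVol E) ≤ C * Nrm p G := by
  set A := ∫⁻ z, ‖f z‖ₑ ∂(hypVol E) with hA
  have hAt : A ≠ ⊤ := hi.2.ne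
  have hp0 : 0 < p := by linarith
  have hq : 0 ≤ 1 - 1 / p := by rw [sub_nonneg, div_le_one hp0]; linarith
  refine ⟨(A ^ (1 - 1 / p)) ^ p * A, ENNReal.mul_ne_top
    (ENNReal.rpow_ne_top_of_nonneg hp0.le (ENNReal.rpow_ne_top_of_nonneg hq hAt)) hAt,
    fun G hG => ?_⟩
  have hU := measurable_UU (E := E) hG
  have hm : Measurable fun w : E × E => ‖f w.2‖ₑ * ‖UU G w.1 w.2‖ₑ ^ p :=
    (hf.comp measurable_snd).enorm.mul (hU.enorm.pow_const p)
  have h1 : ∀ x, ‖BB f G x‖ₑ ^ p ≤ (A ^ (1 - 1 / p)) ^ p *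
      ∫⁻ z, ‖f z‖ₑ * ‖UU G x z‖ₑ ^ p ∂(hypVol E) := by
    intro x
    have h2 := ENNReal.lintegral_mul_norm_pow_le (μ := hypVol E)
      (f := fun z => ‖f z‖ₑ * ‖UU G x z‖ₑ ^ p) (g := fun z => ‖f z‖ₑ)
      (hm.comp (measurable_prodMk_left (x := x))).aemeasurable hf.enorm.aemeasurable
      (p := 1 / p) (q := 1 - 1 / p) (by positivity) hq (by ring)
    have h3 : ∀ z, (‖f z‖ₑ * ‖UU G x z‖ₑ ^ p) ^ (1 / p) * ‖f z‖ₑ ^ (1 - 1 / p) =
        ‖f z * UU G x z‖ₑ := by
      intro z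
      rw [ENNReal.mul_rpow_of_nonneg _ _ (by positivity), ← ENNReal.rpow_mul,
        mul_one_div_cancel hp0.ne', ENNReal.rpow_one, mul_right_comm,
        ← ENNReal.rpow_add_of_nonneg _ _ (by positivity) hq, enorm_mul]
      simp
    simp_rw [h3] at h2
    have h4 := (enorm_integral_le_lintegral_enorm (μ := hypVol E)
      (fun z => f z * UU G x z)).trans h2
    refine (ENNReal.rpow_le_rpow h4 hp0.le).trans (le_of_eq ?_)
    rw [ENNReal.mul_rpow_of_nonneg _ _ hp0.le, ← ENNReal.rpow_mul, one_div_mul_cancel hp0.ne',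
      ENNReal.rpow_one, mul_comm]
  refine (lintegral_mono h1).trans (le_of_eq ?_)
  rw [lintegral_const_mul _ hm.lintegral_prod_right', mul_assoc]
  congr 1
  rw [lintegral_lintegral_swap hm.aemeasurable, hA, ← lintegral_mul_const _ hf.enorm]
  congr 1
  ext z
  rw [← lintegral_UU p hG z]
  have h5 : Measurable fun x => ‖UU G x z‖ₑ ^ p :=
    (hU.comp (measurable_prodMk_right (y := z))).enorm.pow_const p
  exact lintegral_const_mul (‖f z‖ₑ) h5

lemma norm_UU_le {G : ℝ → ℂ} {C b : ℝ} (hC : 0 ≤ C) (hb : b ≤ 1)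
    (h : ∀ r, ‖G r‖ ≤ C * sinh (b * |r|)) (x z : E) : ‖UU G x z‖ ≤ C := by
  have h0 := dst_nonneg x z
  have h1 : 0 ≤ sinh (dst x z) := sinh_nonneg_iff.2 h0
  rw [UU, norm_div, Complex.norm_real, Real.norm_of_nonneg h1]
  apply div_le_of_le_mul₀ h1 hC
  exact (h _).trans (mul_le_mul_of_nonneg_left (sinh_mul_le hb h0) hC)

lemma integrable_BB {f : E → ℂ} (hi : Integrable f (hypVol E)) {G : ℝ → ℂ} (hG : Measurable G)
    {C b : ℝ} (hC : 0 ≤ C) (hb : b ≤ 1) (h : ∀ r, ‖G r‖ ≤ C * sinh (b * |r|)) (x : E) :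
    Integrable (fun z => f z * UU G x z) (hypVol E) :=
  hi.mul_bdd ((measurable_UU hG).comp (measurable_prodMk_left (x := x))).aestronglyMeasurable
    (Eventually.of_forall fun z => norm_UU_le hC hb h x z)

lemma cv_sinh {k b : ℝ} (hk : 0 < k) (hb0 : 0 ≤ b) (hb : b ≤ k / 2) (s : ℝ) :
    ‖cv k (fun r => ((sinh (b * r) : ℝ) : ℂ)) s‖ ≤ 2 * sinh (b * |s|) := by
  have e : ∀ r : ℝ, ((sinh (b * r) : ℝ) : ℂ) = -Complex.I * Complex.sin (b * Complex.I * r) := by
    intro r
    rw [mul_right_comm, Complex.sin_mul_I]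
    push_cast
    linear_combination (Complex.sinh (b * r)) * Complex.I_mul_I
  have him : |((b : ℂ) * Complex.I).im| ≤ k / 2 := by simpa [abs_of_nonneg hb0] using hb
  have h1 : cv k (fun r => ((sinh (b * r) : ℝ) : ℂ)) s =
      sg k (b * Complex.I) * ((sinh (b * s) : ℝ) : ℂ) := by
    unfold cv
    simp_rw [e, mul_left_comm _ (-Complex.I)]
    rw [integral_const_mul, cv_sin hk (by linarith)]
  rw [h1, norm_mul, Complex.norm_real, Real.norm_eq_abs, abs_sinh, abs_mul, abs_of_nonneg hb0]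
  have : 0 ≤ sinh (b * |s|) := sinh_nonneg_iff.2 (by positivity)
  gcongr
  exact norm_sg_le hk him

lemma integral_norm_KU {k b C : ℝ} (hk : 0 < k) (hb0 : 0 ≤ b) (hb : b ≤ k / 2) (hb1 : b ≤ 1)
    (hC : 0 ≤ C) {G : ℝ → ℂ} (h : ∀ r, ‖G r‖ ≤ C * sinh (b * |r|)) {y z : E} (hyz : y ≠ z) :
    ∫ x, ‖(KK k y x : ℂ) * UU G x z‖ ∂(hypVol E) ≤ C * 2 := by
  obtain ⟨h1, h2⟩ := radial_conv (C := 1) hk hb0 (by linarith : b < k)
    (F := fun r => ((sinh (b * r) : ℝ) : ℂ)) (by fun_prop) (fun r => by simp) (fun r => by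
      rw [Complex.norm_real, Real.norm_eq_abs, abs_sinh, abs_mul, abs_of_nonneg hb0, one_mul]
      exact sinh_le_exp _) hyz
  have e : ∀ x, (KK k y x : ℂ) * UU (fun r => ((sinh (b * r) : ℝ) : ℂ)) x z =
      ((KK k y x * (sinh (b * dst x z) / sinh (dst x z)) : ℝ) : ℂ) := by
    intro x; simp [UU]
  simp_rw [e] at h1 h2
  rw [integral_complex_ofReal] at h2
  have h3 := norm_UU_le (by norm_num) hb1 (cv_sinh hk hb0 hb) y z
  rw [← h2] at h3
  have h4 : ∫ x, KK k y x * (sinh (b * dst x z) / sinh (dst x z)) ∂(hypVol E) ≤ 2 := by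
    refine le_trans (le_abs_self _) (le_trans (le_of_eq ?_) h3)
    exact (Complex.norm_real _).symm
  have h5 : Integrable (fun x => KK k y x * (sinh (b * dst x z) / sinh (dst x z))) (hypVol E) := by
    exact h1.re
  calc _ ≤ ∫ x, C * (KK k y x * (sinh (b * dst x z) / sinh (dst x z))) ∂(hypVol E) := by
        refine integral_mono_of_nonneg (Eventually.of_forall fun x => norm_nonneg _)
          (h5.const_mul C) (Eventually.of_forall fun x => ?_)
        have h0 := dst_nonneg x z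
        have h1 : 0 ≤ sinh (dst x z) := sinh_nonneg_iff.2 h0
        have h6 := h (dst x z)
        rw [abs_of_nonneg h0] at h6
        have h7 := KK_nonneg k y x
        simp only [UU, norm_mul, norm_div, Complex.norm_real, Real.norm_of_nonneg h1,
          Real.norm_of_nonneg h7]
        calc _ ≤ KK k y x * (C * sinh (b * dst x z) / sinh (dst x z)) := by gcongr
          _ = _ := by ring
    _ ≤ _ := by rw [integral_const_mul]; gcongr

lemma Sf_BB {k b C : ℝ} (hk : 0 < k) (hb0 : 0 ≤ b) (hb : b ≤ k / 2) (hb1 : b ≤ 1)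
    (hC : 0 ≤ C) {G : ℝ → ℂ} (hG : Measurable G) (hodd : ∀ r, G (-r) = -G r)
    (h : ∀ r, ‖G r‖ ≤ C * sinh (b * |r|)) {f : E → ℂ} (hf : Measurable f)
    (hi : Integrable f (hypVol E)) : Sf k (BB f G) = BB f (cv k G) := by
  ext y
  have hU := measurable_UU (E := E) hG
  have hK := measurable_KK_right (E := E) k y
  have hexp : ∀ r, ‖G r‖ ≤ C * exp (b * |r|) := fun r =>
    (h r).trans (mul_le_mul_of_nonneg_left (sinh_le_exp _) hC)
  have hae : ∀ᵐ z ∂(hypVol E), y ≠ z := by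
    have : ∀ᵐ z ∂(hypVol E), z ∉ ({y} : Set E) := compl_mem_ae_iff.2 (measure_singleton y)
    filter_upwards [this] with z hz using fun h => hz h.symm
  have hm : Measurable fun w : E × E => f w.2 * ((KK k y w.1 : ℂ) * UU G w.1 w.2) :=
    (hf.comp measurable_snd).mul
      ((Complex.measurable_ofReal.comp (hK.comp measurable_fst)).mul hU)
  have hI : Integrable (fun w : E × E => f w.2 * ((KK k y w.1 : ℂ) * UU G w.1 w.2))
      ((hypVol E).prod (hypVol E)) := by
    rw [integrable_prod_iff' hm.aestronglyMeasurable]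
    constructor
    · filter_upwards [hae] with z hz
      exact (radial_conv hk hb0 (by linarith) hG hodd hexp hz).1.const_mul _
    · refine (hi.norm.mul_const (C * 2)).mono'
        (hm.stronglyMeasurable.norm.integral_prod_left').aestronglyMeasurable ?_
      filter_upwards [hae] with z hz
      rw [Real.norm_of_nonneg (integral_nonneg fun x => norm_nonneg _)]
      simp_rw [norm_mul (f z)]
      rw [integral_const_mul]
      gcongr
      exact integral_norm_KU hk hb0 hb hb1 hC h hz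
  unfold Sf BB
  simp_rw [← integral_const_mul, mul_left_comm _ (f _)]
  rw [integral_integral_swap hI]
  apply integral_congr_ae
  filter_upwards [hae] with z hz
  rw [integral_const_mul, (radial_conv hk hb0 (by linarith) hG hodd hexp hz).2]

section Op

variable {p : ℝ≥0∞} [Fact (1 ≤ p)]

/-- the hypercyclic operator -/
def Top (h2 : 2 < p) (ht : p ≠ ⊤) : Lp ℂ p (hypVol E) →L[ℂ] Lp ℂ p (hypVol E) :=
  ContinuousLinearMap.id ℂ _ - (Sop h2 ht).comp (Sop h2 ht)

lemma kp_pos (h2 : 2 < p) (ht : p ≠ ⊤) : 0 < kp p := by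
  have hp := two_lt_toReal h2 ht
  have : 2 / p.toReal < 1 := by rw [div_lt_one (by linarith)]; exact hp
  unfold kp; linarith

lemma kp_half_le : kp p / 2 ≤ 1 := by
  have : 0 ≤ 2 / p.toReal := by positivity
  unfold kp; linarith

lemma coeFn_Top (h2 : 2 < p) (ht : p ≠ ⊤) (F : Lp ℂ p (hypVol E)) {f : E → ℂ}
    (h : F =ᵐ[hypVol E] f) :
    Top h2 ht F =ᵐ[hypVol E] fun x => f x - Sf (kp p) (Sf (kp p) f) x := by
  have h1 := coeFn_Sop h2 ht _ (coeFn_Sop h2 ht F h)
  filter_upwards [Lp.coeFn_sub F (Sop h2 ht (Sop h2 ht F)), h, h1] with x a b c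
  rw [← b, ← c]
  exact a

lemma Sf_BB_WP {k β : ℝ} (hk : 0 < k) (hk1 : k / 2 ≤ 1) (hβ : |β| ≤ k / 2) {a : ℝ → ℂ}
    (ha : Good a) {f : E → ℂ} (hf : Measurable f) (hi : Integrable f (hypVol E)) :
    Sf k (BB f (WP β a)) = BB f (WP β fun x => sg k (lam β x) * a x) := by
  have := NA_nonneg a
  rw [Sf_BB hk (half_pos hk).le le_rfl hk1 (by positivity) (measurable_WP ha.meas β)
    (WP_neg β a) (norm_WP_le ha (half_pos hk) hβ) hf hi, cv_WP hk hβ ha]

lemma Top_BB (h2 : 2 < p) (ht : p ≠ ⊤) {β : ℝ} (hβ : |β| ≤ kp p / 2) {a : ℝ → ℂ} (ha : Good a)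
    {f : E → ℂ} (hf : Measurable f) (hi : Integrable f (hypVol E)) (F : Lp ℂ p (hypVol E))
    (h : F =ᵐ[hypVol E] BB f (WP β a)) :
    Top h2 ht F =ᵐ[hypVol E] BB f (WP β fun x => mm (kp p) (lam β x) * a x) := by
  have hk := kp_pos h2 ht
  have hs : Measurable fun x => sg (kp p) (lam β x) :=
    (measurable_sg _).comp (continuous_lam β).measurable
  have hs2 : ∀ x, ‖sg (kp p) (lam β x)‖ ≤ 2 := fun x => norm_sg_le hk (by rwa [lam_im])
  have ha1 := ha.mul hs hs2
  have ha2 := ha1.mul hs hs2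
  refine (coeFn_Top h2 ht F h).trans (Eventually.of_forall fun x => ?_)
  simp only
  rw [Sf_BB_WP hk kp_half_le hβ ha hf hi, Sf_BB_WP hk kp_half_le hβ ha1 hf hi]
  have n0 := NA_nonneg a
  have n2 := NA_nonneg fun x => sg (kp p) (lam β x) * (sg (kp p) (lam β x) * a x)
  unfold BB
  rw [← integral_sub (integrable_BB hi (measurable_WP ha.meas β) (by positivity) kp_half_le
    (norm_WP_le ha (half_pos hk) hβ) x) (integrable_BB hi (measurable_WP ha2.meas β)
    (by positivity) kp_half_le (norm_WP_le ha2 (half_pos hk) hβ) x)]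
  congr 1
  ext z
  have e : (fun x => mm (kp p) (lam β x) * a x) =
      fun x => a x - sg (kp p) (lam β x) * (sg (kp p) (lam β x) * a x) := by
    ext x; unfold mm; ring
  rw [e, UU, UU, UU, WP_sub ha ha2]
  ring

lemma good_pow (h2 : 2 < p) (ht : p ≠ ⊤) {β : ℝ} (hβ : |β| ≤ kp p / 2) {a : ℝ → ℂ} (ha : Good a)
    (n : ℕ) : Good fun x => mm (kp p) (lam β x) ^ n * a x :=
  ha.mul (((measurable_mm _).comp (continuous_lam β).measurable).pow_const n) (C := 1) fun x => by
    rw [norm_pow]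
    exact pow_le_one₀ (norm_nonneg _) (norm_mm_le (kp_pos h2 ht) (by rwa [lam_im]))

lemma Top_iterate_BB (h2 : 2 < p) (ht : p ≠ ⊤) {β : ℝ} (hβ : |β| ≤ kp p / 2) {a : ℝ → ℂ}
    (ha : Good a) {f : E → ℂ} (hf : Measurable f) (hi : Integrable f (hypVol E))
    (F : Lp ℂ p (hypVol E)) (h : F =ᵐ[hypVol E] BB f (WP β a)) (n : ℕ) :
    (Top h2 ht)^[n] F =ᵐ[hypVol E] BB f (WP β fun x => mm (kp p) (lam β x) ^ n * a x) := by
  induction n with
  | zero => simpa using h
  | succ n ih =>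
    rw [Function.iterate_succ_apply']
    have := Top_BB h2 ht hβ (good_pow h2 ht hβ ha n) hf hi _ ih
    simpa only [pow_succ', mul_assoc] using this

end Op

end Pool.Agent.MP_e4fe74_an

end
end

section

noncomputable section

namespace Pool.Agent.MP_e4fe74_an

open MeasureTheory Set Real Filter Topology FourierTransform SchwartzMap
open scoped ENNReal ContDiff

theorem hc_criterion {X : Type*} [NormedAddCommGroup X] [NormedSpace ℂ X] [CompleteSpace X]
    [SecondCountableTopology X] (T : X →L[ℂ] X) {Y : Set X} (hY : Dense Y)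
    (h1 : ∀ y ∈ Y, Tendsto (fun n => T^[n] y) atTop (𝓝 0))
    (h2 : ∀ y ∈ Y, ∃ x : ℕ → X, Tendsto x atTop (𝓝 0) ∧ ∀ᶠ n in atTop, T^[n] (x n) = y) :
    ∃ F, Dense (range fun n => T^[n] F) := by
  have hd : ∀ V ∈ TopologicalSpace.countableBasis X, Dense (⋃ n : ℕ, T^[n] ⁻¹' V) := by
    intro V hV
    have hVo := TopologicalSpace.isOpen_of_mem_countableBasis hV
    obtain ⟨y1, hy1, hy1'⟩ := hY.inter_open_nonempty V hVo
      (TopologicalSpace.nonempty_of_mem_countableBasis hV)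
    rw [dense_iff_inter_open]
    intro W hW hWn
    obtain ⟨y0, hy0, hy0'⟩ := hY.inter_open_nonempty W hW hWn
    obtain ⟨x, hx, hx'⟩ := h2 y1 hy1'
    have a1 : Tendsto (fun n => y0 + x n) atTop (𝓝 y0) := by simpa using hx.const_add y0
    have a2 : Tendsto (fun n => T^[n] y0 + y1) atTop (𝓝 y1) := by
      simpa using (h1 y0 hy0').add_const y1
    obtain ⟨n, ⟨b1, b2⟩, b3⟩ := (((a1.eventually (hW.mem_nhds hy0)).and
      (a2.eventually (hVo.mem_nhds hy1))).and hx').exists
    refine ⟨y0 + x n, b1, mem_iUnion.2 ⟨n, ?_⟩⟩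
    rw [mem_preimage, iterate_map_add, b3]
    exact b2
  have ho : ∀ V ∈ TopologicalSpace.countableBasis X, IsOpen (⋃ n : ℕ, T^[n] ⁻¹' V) :=
    fun V hV => isOpen_iUnion fun n =>
      (TopologicalSpace.isOpen_of_mem_countableBasis hV).preimage (T.continuous.iterate n)
  obtain ⟨F, hF⟩ := (dense_biInter_of_isOpen ho (TopologicalSpace.countable_countableBasis X)
    hd).nonempty
  refine ⟨F, (TopologicalSpace.isBasis_countableBasis X).dense_iff.2 fun V hV _ => ?_⟩
  obtain ⟨n, hn⟩ := mem_iUnion.1 (mem_iInter₂.1 hF V hV)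
  exact ⟨_, hn, n, rfl⟩

variable {E : Type} [NormedAddCommGroup E] [InnerProductSpace ℝ E] [FiniteDimensional ℝ E]
  [MeasurableSpace E] [BorelSpace E] [Fact (Module.finrank ℝ E = 3)]

set_option linter.unusedSectionVars false

lemma eq_of_lor_le_one {x z : E} (h : lor (lift x) (lift z) ≤ 1) : x = z := by
  have hg := isLorentz_swap z
  rw [← hg.lor_act, act_swap_self, lift_zero, lor_origin_right, lift_fst] at h
  have h1 := x0_sq (act (swap z) x)
  have h2 := x0_pos (act (swap z) x)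
  have h3 : ‖act (swap z) x‖ ^ 2 ≤ 0 := by nlinarith
  have h4 : act (swap z) x = 0 := by
    rw [← norm_eq_zero]; exact pow_eq_zero_iff (two_ne_zero) |>.1 (le_antisymm h3 (by positivity))
  rw [← act_swap_swap z x, h4, act_swap_zero]

lemma norm_le_of_dst {x z : E} (h : dst x z ≤ 1) : ‖x‖ ≤ 2 * cosh 1 * (1 + ‖z‖) := by
  have h1 := one_le_lor_lift x z
  have h2 : lor (lift x) (lift z) ≤ cosh 1 := by
    rw [← cosh_arcosh h1, cosh_le_cosh, abs_one]
    exact (abs_of_nonneg (dst_nonneg x z)).trans_le h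
  rw [lor_lift_lift] at h2
  have h3 := real_inner_le_norm x z
  have h4 := norm_lt_x0 x
  have h5 := norm_lt_x0 z
  have h6 := x0_sq z
  have h7 := norm_nonneg x
  have h8 := norm_nonneg z
  have h9 : x0 x * (x0 z - ‖z‖) ≤ cosh 1 := by nlinarith
  have h10 : x0 x = x0 x * (x0 z - ‖z‖) * (x0 z + ‖z‖) := by
    rw [mul_assoc]; nth_rw 1 [← mul_one (x0 x)]; congr 1; nlinarith
  have h11 : x0 z ≤ 1 + ‖z‖ := by
    apply le_of_sq_le_sq _ (by positivity) |>.trans le_rfl
    nlinarith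
  have h12 : x0 x ≤ cosh 1 * (x0 z + ‖z‖) := by
    rw [h10]; gcongr; linarith
  have h13 := cosh_pos 1
  nlinarith

lemma uniform_dst {f : E → ℂ} (hf : Continuous f) (hc : HasCompactSupport f) :
    ∃ K : Set E, IsCompact K ∧ (∀ x z, x ∉ K → dst x z ≤ 1 → f z = 0 ∧ f x = 0) ∧
      ∀ η > 0, ∃ δ > 0, δ ≤ 1 ∧ ∀ x z, dst x z < δ → ‖f z - f x‖ ≤ η := by
  obtain ⟨R, hR0, hR⟩ := hc.exists_pos_le_norm
  have h1 := one_le_cosh 1
  have hK : ∀ x z : E, x ∉ Metric.closedBall (0 : E) (2 * cosh 1 * (1 + R)) → dst x z ≤ 1 →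
      f z = 0 ∧ f x = 0 := by
    intro x z hx hd
    rw [mem_closedBall_zero_iff, not_le] at hx
    have := norm_le_of_dst hd
    refine ⟨hR z ?_, hR x (by nlinarith)⟩
    by_contra hz
    have : 2 * cosh 1 * (1 + ‖z‖) ≤ 2 * cosh 1 * (1 + R) := by
      gcongr; exact (not_le.1 hz).le
    linarith
  refine ⟨_, isCompact_closedBall _ _, hK, fun η hη => ?_⟩
  set K := Metric.closedBall (0 : E) (2 * cosh 1 * (1 + R))
  have hS : IsCompact ((K ×ˢ K) ∩ {q : E × E | η ≤ ‖f q.2 - f q.1‖}) :=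
    ((isCompact_closedBall _ _).prod (isCompact_closedBall _ _)).inter_right
      (isClosed_le continuous_const (by fun_prop))
  obtain ⟨a, ha, ha'⟩ := hS.exists_forall_le' (continuous_lor_lift (E := E)).continuousOn (a := 1)
    fun q hq => by
      by_contra hle
      have h2 := eq_of_lor_le_one (not_lt.1 hle)
      have h3 : η ≤ ‖f q.2 - f q.1‖ := hq.2
      rw [h2, sub_self, norm_zero] at h3
      linarith
  refine ⟨min 1 (arcosh a), lt_min one_pos (arcosh_pos ha), min_le_left _ _, fun x z hd => ?_⟩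
  have hd1 : dst x z ≤ 1 := hd.le.trans (min_le_left _ _)
  by_cases hx : x ∈ K
  · by_cases hz : z ∈ K
    · by_contra hlt
      have h2 := ha' (x, z) ⟨⟨hx, hz⟩, (not_le.1 hlt).le⟩
      have h3 : arcosh a ≤ dst x z :=
        (arcosh_le_arcosh (by linarith) (by linarith)).2 h2
      exact absurd (hd.trans_le (min_le_right _ _)) (not_lt.2 h3)
    · obtain ⟨a1, a2⟩ := hK z x hz (by rwa [dst_comm])
      simp [a1, a2, hη.le]
  · obtain ⟨a1, a2⟩ := hK x z hx hd1
    simp [a1, a2, hη.le]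

lemma exists_profile {δ : ℝ} (hδ : 0 < δ) : ∃ (G : ℝ → ℂ) (W : ℝ → ℝ), ContDiff ℝ ∞ G ∧
    HasCompactSupport G ∧ (∀ r, G (-r) = -G r) ∧ (∀ r, 0 ≤ W r) ∧ (∀ r, δ ≤ r → W r = 0) ∧
    (∀ r, G r / (sinh r : ℝ) = W r) ∧ ∀ x : E, Integrable (fun z => W (dst x z)) (hypVol E) ∧
      ∫ z, W (dst x z) ∂(hypVol E) = 1 := by
  let χ : ContDiffBump (0 : ℝ) := ⟨δ / 2, δ, by positivity, by linarith⟩
  have hχ := χ.continuous
  let V : ℝ → ℝ := fun r => χ r * |sinh r| / |sinh r|
  have hVm : Measurable V := by unfold V; fun_prop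
  have hV0 : ∀ r, 0 ≤ V r := fun r => div_nonneg (mul_nonneg χ.nonneg (abs_nonneg _)) (abs_nonneg _)
  have hVe : ∀ r, r ≠ 0 → V r = χ r := fun r hr =>
    mul_div_cancel_right₀ _ (abs_ne_zero.2 (sinh_ne_zero.2 hr))
  set J := ∫⁻ r in Ioi (0 : ℝ), ENNReal.ofReal (4 * π * sinh r ^ 2) * ENNReal.ofReal (V r) with hJ
  have hJx : ∀ x : E, ∫⁻ z, ENNReal.ofReal (V (dst x z)) ∂(hypVol E) = J := by
    intro x
    simp_rw [dst_comm x]
    exact lintegral_dst x (fun r => ENNReal.ofReal (V r)) (by fun_prop)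
  have hJ0 : J ≠ 0 := by
    apply ne_of_gt
    rw [hJ, setLIntegral_pos_iff (by fun_prop)]
    refine lt_of_lt_of_le ?_ (measure_mono (s := Ioo 0 δ) fun r hr => ⟨?_, hr.1⟩)
    · simpa using hδ
    · have h1 : 0 < sinh r := sinh_pos_iff.2 hr.1
      have h2 : 0 < χ r := χ.pos_of_mem_ball (by simpa [χ, abs_of_pos hr.1] using hr.2)
      rw [Function.mem_support, hVe r hr.1.ne']
      exact mul_ne_zero (ENNReal.ofReal_pos.2 (by positivity)).ne' (ENNReal.ofReal_pos.2 h2).ne'
  have hJt : J ≠ ⊤ := by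
    have hi : Integrable fun r : ℝ => 4 * π * sinh r ^ 2 * χ r :=
      Continuous.integrable_of_hasCompactSupport (by fun_prop) χ.hasCompactSupport.mul_left
    refine ne_top_of_le_ne_top hi.lintegral_lt_top.ne ?_
    refine le_trans (le_of_eq ?_) (setLIntegral_le_lintegral (Ioi 0) _)
    refine setLIntegral_congr_fun measurableSet_Ioi fun r hr => ?_
    rw [hVe r (ne_of_gt hr), ← ENNReal.ofReal_mul (by positivity)]
  have hI : 0 < J.toReal := ENNReal.toReal_pos hJ0 hJt
  refine ⟨fun r => ((J.toReal⁻¹ * (χ r * sinh r) : ℝ) : ℂ), fun r => J.toReal⁻¹ * V r,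
    Complex.ofRealCLM.contDiff.comp (f := fun r => J.toReal⁻¹ * (χ r * sinh r))
      (contDiff_const.mul (χ.contDiff.mul contDiff_sinh)), ?_, fun r => ?_,
    fun r => mul_nonneg (by positivity) (hV0 r), fun r hr => ?_, fun r => ?_, fun x => ?_⟩
  · exact (χ.hasCompactSupport.mul_right (f' := sinh)).mul_left.comp_left
      (g := fun t : ℝ => (t : ℂ)) (by simp)
  · simp [χ.neg]
  · simp only
    rw [hVe r (hδ.trans_le hr).ne', χ.zero_of_le_dist
      (by simpa [χ, abs_of_pos (hδ.trans_le hr)] using hr), mul_zero]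
  · by_cases hr : r = 0
    · simp [hr, V]
    · have : ((sinh r : ℝ) : ℂ) ≠ 0 := by exact_mod_cast sinh_ne_zero.2 hr
      simp only [hVe r hr]
      rw [div_eq_iff this]
      push_cast; ring
  · have hd : Measurable fun z => dst x z := measurable_dst.of_uncurry_left (f := dst)
    have hm : Measurable fun z => V (dst x z) := hVm.comp hd
    have hi : Integrable (fun z => V (dst x z)) (hypVol E) := by
      refine ⟨hm.aestronglyMeasurable, ?_⟩
      rw [hasFiniteIntegral_iff_ofReal (Eventually.of_forall fun z => hV0 _), hJx]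
      exact hJt.lt_top
    refine ⟨hi.const_mul _, ?_⟩
    rw [integral_const_mul, integral_eq_lintegral_of_nonneg_ae
      (Eventually.of_forall fun z => hV0 _) hm.aestronglyMeasurable, hJx,
      inv_mul_cancel₀ hI.ne']

lemma approx {f : E → ℂ} (hf : Continuous f) (hc : HasCompactSupport f) :
    ∃ K : Set E, IsCompact K ∧ ∀ η > 0, ∃ G : ℝ → ℂ, ContDiff ℝ ∞ G ∧ HasCompactSupport G ∧
      (∀ r, G (-r) = -G r) ∧ ∀ x, ‖BB f G x - f x‖ ≤ K.indicator (fun _ => η) x := by
  obtain ⟨K, hK, h1, h2⟩ := uniform_dst hf hc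
  refine ⟨K, hK, fun η hη => ?_⟩
  obtain ⟨δ, hδ, hδ1, h3⟩ := h2 η hη
  obtain ⟨G, W, g1, g2, g3, w0, w1, w2, w3⟩ := exists_profile (E := E) hδ
  refine ⟨G, g1, g2, g3, fun x => ?_⟩
  obtain ⟨C, hC⟩ := hc.exists_bound_of_continuous hf
  obtain ⟨i1, i2⟩ := w3 x
  have i3 : Integrable (fun z => ((W (dst x z) : ℝ) : ℂ)) (hypVol E) := i1.ofReal
  have e : BB f G x - f x = ∫ z, (f z - f x) * (W (dst x z) : ℝ) ∂(hypVol E) := by
    simp_rw [sub_mul]
    rw [integral_sub (i3.bdd_mul hf.aestronglyMeasurable (Eventually.of_forall hC))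
      (i3.const_mul _), integral_const_mul, integral_complex_ofReal, i2]
    simp only [BB, UU, w2, Complex.ofReal_one, mul_one]
  rw [e]
  refine (norm_integral_le_of_norm_le (i1.const_mul (K.indicator (fun _ => η) x))
    (Eventually.of_forall fun z => ?_)).trans (by rw [integral_const_mul, i2, mul_one])
  rw [norm_mul, Complex.norm_real, Real.norm_of_nonneg (w0 _)]
  by_cases hd : dst x z < δ
  · refine mul_le_mul_of_nonneg_right ?_ (w0 _)
    by_cases hx : x ∈ K
    · rw [indicator_of_mem hx]; exact h3 x z hd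
    · obtain ⟨a1, a2⟩ := h1 x z hx (hd.le.trans hδ1)
      simp [a1, a2, hx]
  · simp [w1 _ (not_lt.1 hd)]

end Pool.Agent.MP_e4fe74_an

end
end

section

noncomputable section

namespace Pool.Agent.MP_e4fe74_an

open MeasureTheory Set Real Filter Topology FourierTransform SchwartzMap
open scoped ENNReal ContDiff

variable {E : Type} [NormedAddCommGroup E] [InnerProductSpace ℝ E] [FiniteDimensional ℝ E]
  [MeasurableSpace E] [BorelSpace E] [Fact (Module.finrank ℝ E = 3)]

set_option linter.unusedSectionVars false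

variable {p : ℝ≥0∞} [Fact (1 ≤ p)]

/-- the dense set of the criterion -/
def YY (E : Type) [NormedAddCommGroup E] [InnerProductSpace ℝ E] [FiniteDimensional ℝ E]
    [MeasurableSpace E] [BorelSpace E] (p : ℝ≥0∞) : Set (Lp ℂ p (hypVol E)) :=
  {F | ∃ (f : E → ℂ) (G : ℝ → ℂ), Continuous f ∧ HasCompactSupport f ∧ ContDiff ℝ ∞ G ∧
    HasCompactSupport G ∧ (∀ r, G (-r) = -G r) ∧ F =ᵐ[hypVol E] BB f G}

lemma dense_YY (ht : p ≠ ⊤) : Dense (YY E p) := by
  rw [Metric.dense_iff]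
  intro F ε hε
  obtain ⟨f, hc, h1, hf, hm⟩ := (Lp.memLp F).exists_hasCompactSupport_eLpNorm_sub_le ht
    (ε := ENNReal.ofReal (ε / 3)) (ENNReal.ofReal_pos.2 (by positivity)).ne'
  obtain ⟨K, hK, h2⟩ := approx hf hc
  set M := hypVol E K ^ (1 / p.toReal) with hM
  have hMt : M ≠ ⊤ := ENNReal.rpow_ne_top_of_nonneg (by positivity) hK.measure_lt_top.ne
  have hM0 : 0 < M.toReal + 1 := by positivity
  obtain ⟨G, g1, g2, g3, g4⟩ := h2 (ε / 3 / (M.toReal + 1)) (by positivity)
  have hB := (stronglyMeasurable_BB hf.measurable g1.continuous.measurable).aestronglyMeasurable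
    (μ := hypVol E)
  have h3 : eLpNorm (BB f G - f) p (hypVol E) ≤ ENNReal.ofReal (ε / 3) := by
    refine (eLpNorm_mono_real (g := K.indicator fun _ => ε / 3 / (M.toReal + 1)) g4).trans
      ((eLpNorm_indicator_const_le _ _).trans ?_)
    rw [← hM, Real.enorm_eq_ofReal (by positivity), ← ENNReal.ofReal_toReal hMt,
      ← ENNReal.ofReal_mul (by positivity), ENNReal.toReal_ofReal ENNReal.toReal_nonneg]
    apply ENNReal.ofReal_le_ofReal
    rw [div_mul_eq_mul_div, div_le_iff₀ hM0]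
    nlinarith
  have h4 : MemLp (BB f G) p (hypVol E) := by
    have : MemLp (BB f G - f) p (hypVol E) :=
      ⟨hB.sub hf.aestronglyMeasurable, h3.trans_lt ENNReal.ofReal_lt_top⟩
    simpa using this.add hm
  refine ⟨h4.toLp _, ?_, f, G, hf, hc, g1, g2, g3, h4.coeFn_toLp⟩
  rw [Metric.mem_ball, Lp.dist_def]
  have h5 : eLpNorm (⇑(h4.toLp _) - ⇑F) p (hypVol E) ≤
      ENNReal.ofReal (ε / 3) + ENNReal.ofReal (ε / 3) := by
    have e : (⇑(h4.toLp _) - ⇑F : E → ℂ) =ᵐ[hypVol E] (BB f G - f) - (⇑F - f) := by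
      filter_upwards [h4.coeFn_toLp] with x hx
      simp [hx]
    rw [eLpNorm_congr_ae e]
    exact (eLpNorm_sub_le (hB.sub hf.aestronglyMeasurable)
      ((Lp.aestronglyMeasurable F).sub hf.aestronglyMeasurable) Fact.out).trans
      (add_le_add h3 h1)
  rw [← ENNReal.ofReal_add (by positivity) (by positivity)] at h5
  exact (ENNReal.toReal_le_of_le_ofReal (by positivity) h5).trans_lt (by linarith)

lemma tendsto_eLpNorm_BB (h2 : 2 < p) (ht : p ≠ ⊤) {f : E → ℂ} (hf : Measurable f)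
    (hi : Integrable f (hypVol E)) {G : ℕ → ℝ → ℂ} (hG : ∀ n, Measurable (G n))
    (h : Tendsto (fun n => Nrm p.toReal (G n)) atTop (𝓝 0)) :
    Tendsto (fun n => eLpNorm (BB f (G n)) p (hypVol E)) atTop (𝓝 0) := by
  have hp := two_lt_toReal h2 ht
  have h0 : p ≠ 0 := (lt_trans (by norm_num) h2).ne'
  obtain ⟨C, hC, hy⟩ := young (p := p.toReal) (by linarith) hf hi
  have h1 : Tendsto (fun n => (C * Nrm p.toReal (G n)) ^ (1 / p.toReal)) atTop (𝓝 0) := by
    have a := ENNReal.Tendsto.const_mul h (Or.inr hC)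
    have b := ((ENNReal.continuous_rpow_const (y := 1 / p.toReal)).tendsto _).comp a
    rwa [mul_zero, ENNReal.zero_rpow_of_pos (by positivity)] at b
  refine tendsto_of_tendsto_of_tendsto_of_le_of_le tendsto_const_nhds h1 (fun _ => zero_le)
    fun n => ?_
  simp only
  rw [eLpNorm_eq_lintegral_rpow_enorm_toReal h0 ht]
  exact ENNReal.rpow_le_rpow (hy _ (hG n)) (by positivity)

lemma tendsto_zero_of_ae {F : ℕ → Lp ℂ p (hypVol E)} {g : ℕ → E → ℂ}
    (h : ∀ᶠ n in atTop, F n =ᵐ[hypVol E] g n)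
    (h' : Tendsto (fun n => eLpNorm (g n) p (hypVol E)) atTop (𝓝 0)) :
    Tendsto F atTop (𝓝 0) := by
  rw [tendsto_zero_iff_norm_tendsto_zero]
  have := (ENNReal.tendsto_toReal ENNReal.zero_ne_top).comp h'
  refine this.congr' ?_
  filter_upwards [h] with n hn
  rw [Lp.norm_def, eLpNorm_congr_ae hn]
  rfl

lemma hypercyclic (h2 : 2 < p) (ht : p ≠ ⊤) :
    ∃ F : Lp ℂ p (hypVol E), Dense (range fun n : ℕ => (Top h2 ht)^[n] F) := by
  have : Fact (p ≠ ⊤) := ⟨ht⟩
  have hp := two_lt_toReal h2 ht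
  have hk := kp_pos h2 ht
  apply hc_criterion (Top h2 ht) (dense_YY ht)
  · rintro F ⟨f, G, hf, hc, g1, g2, g3, hF⟩
    obtain ⟨a, rfl⟩ := exists_WP_eq g1 g2 g3 0
    have hi : Integrable f (hypVol E) := hf.integrable_of_hasCompactSupport hc
    have hβ : |(0 : ℝ)| ≤ kp p / 2 := by rw [abs_zero]; positivity
    exact tendsto_zero_of_ae (Eventually.of_forall fun n =>
      Top_iterate_BB h2 ht hβ (good_schwartz a) hf.measurable hi F hF n)
      (tendsto_eLpNorm_BB h2 ht hf.measurable hi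
        (fun n => measurable_WP (good_pow h2 ht hβ (good_schwartz a) n).meas 0)
        (tendsto_Nrm_forward hp hk (good_schwartz a)))
  · rintro F ⟨f, G, hf, hc, g1, g2, g3, hF⟩
    have hb : kp p / 2 = 1 - 2 / p.toReal := by unfold kp; ring
    obtain ⟨a, rfl⟩ := exists_WP_eq g1 g2 g3 (kp p / 2)
    have hi : Integrable f (hypVol E) := hf.integrable_of_hasCompactSupport hc
    have hβ : |kp p / 2| ≤ kp p / 2 := by rw [abs_of_pos (by positivity)]
    have hc0 : 0 < 2 * π ^ 2 / kp p := by positivity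
    have hm : ∀ n, Measurable (WP (kp p / 2) (amp (2 * π ^ 2 / kp p) a n)) := fun n =>
      measurable_WP (good_schwartz _).meas _
    have h3 := tendsto_eLpNorm_BB h2 ht hf.measurable hi hm
      (by rw [hb]; exact tendsto_Nrm_amp hp hc0 a)
    have h4 : ∀ᶠ n in atTop,
        MemLp (BB f (WP (kp p / 2) (amp (2 * π ^ 2 / kp p) a n))) p (hypVol E) := by
      filter_upwards [h3.eventually (gt_mem_nhds ENNReal.zero_lt_top)] with n hn
      exact ⟨(stronglyMeasurable_BB hf.measurable (hm n)).aestronglyMeasurable, hn⟩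
    classical
    let x : ℕ → Lp ℂ p (hypVol E) := fun n =>
      if h : MemLp (BB f (WP (kp p / 2) (amp (2 * π ^ 2 / kp p) a n))) p (hypVol E) then
        h.toLp _ else 0
    have h5 : ∀ᶠ n in atTop,
        x n =ᵐ[hypVol E] BB f (WP (kp p / 2) (amp (2 * π ^ 2 / kp p) a n)) := by
      filter_upwards [h4] with n hn
      simp only [x, dif_pos hn]
      exact hn.coeFn_toLp
    refine ⟨x, tendsto_zero_of_ae h5 h3, ?_⟩
    filter_upwards [h5] with n hn
    have h6 := Top_iterate_BB h2 ht hβ (good_schwartz _) hf.measurable hi _ hn n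
    have e : (fun y => mm (kp p) (lam (kp p / 2) y) ^ n * amp (2 * π ^ 2 / kp p) a n y) = a := by
      ext y
      rw [amp_apply, ← mul_assoc, ← mul_pow, lam, mm_mul_phase hk, one_pow, one_mul]
    rw [e] at h6
    exact Lp.ext (h6.trans hF.symm)

lemma Top_act (h2 : 2 < p) (ht : p ≠ ⊤) {g : (ℝ × E) →ₗ[ℝ] (ℝ × E)} (hg : IsLorentz g)
    (F H : Lp ℂ p (hypVol E)) (h : H =ᵐ[hypVol E] F ∘ act g) :
    Top h2 ht H =ᵐ[hypVol E] Top h2 ht F ∘ act g := by
  have h1 := hg.measurePreserving.quasiMeasurePreserving.ae_eq_comp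
    (coeFn_Top h2 ht F EventuallyEq.rfl)
  refine (coeFn_Top h2 ht H h).trans (EventuallyEq.trans (Eventually.of_forall fun x => ?_) h1.symm)
  rw [hg.Sf_act, hg.Sf_act]
  rfl

lemma Top_symbol (h2 : 2 < p) (ht : p ≠ ⊤) {f : E → ℂ} (hf : Continuous f)
    (hc : HasCompactSupport f) (F : Lp ℂ p (hypVol E)) (hF : F =ᵐ[hypVol E] f) {l : ℂ}
    (hl : |l.im| ≤ kp p / 2) {b : E} (hb : ‖b‖ = 1) :
    Integrable (fun x => Top h2 ht F x * helgasonKernel l b x) (hypVol E) ∧
      ∫ x, Top h2 ht F x * helgasonKernel l b x ∂hypVol E =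
        mm (kp p) l * ∫ x, f x * helgasonKernel l b x ∂hypVol E := by
  have hk := kp_pos h2 ht
  have hs : |(Complex.I * l - 1 + 1).re| < kp p := by
    simp only [sub_add_cancel, Complex.I_mul_re, abs_neg]; linarith
  have hP : Continuous fun x : E => ((lor (lift x) (1, b) : ℝ) : ℂ) ^ (Complex.I * l - 1) := by
    have : Continuous fun x : E => lor (lift x) (1, b) :=
      continuous_lor.comp (continuous_lift.prodMk continuous_const)
    exact (Complex.continuous_ofReal.comp this).cpow continuous_const fun x =>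
      Complex.ofReal_mem_slitPlane.2 (lor_null_pos hb x)
  have i0 : Integrable (fun x => f x * ((lor (lift x) (1, b) : ℝ) : ℂ) ^ (Complex.I * l - 1))
      (hypVol E) := (hf.mul hP).integrable_of_hasCompactSupport hc.mul_right
  obtain ⟨i1, e1⟩ := symbol_Sf hk hb hs hf.measurable i0
  obtain ⟨i2, e2⟩ := symbol_Sf hk hb hs
    (stronglyMeasurable_Sf _ hf.stronglyMeasurable).measurable i1
  have e : (fun x => Top h2 ht F x * helgasonKernel l b x) =ᵐ[hypVol E] fun x =>
      f x * ((lor (lift x) (1, b) : ℝ) : ℂ) ^ (Complex.I * l - 1) -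
      Sf (kp p) (Sf (kp p) f) x * ((lor (lift x) (1, b) : ℝ) : ℂ) ^ (Complex.I * l - 1) := by
    filter_upwards [coeFn_Top h2 ht F hF] with x hx
    rw [hx, sub_mul]; rfl
  refine ⟨(i0.sub i2).congr e.symm, ?_⟩
  rw [integral_congr_ae e, integral_sub i0 i2, e2, e1]
  have c : (π : ℂ) * (Complex.I * l - 1 + 1) / (2 * kp p) = π * l / (2 * kp p) * Complex.I := by
    ring
  rw [c, Complex.cos_mul_I, mm, sg]
  unfold helgasonKernel
  ring

end Pool.Agent.MP_e4fe74_an

open MeasureTheory in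
theorem Pool.Agent.MP_e4fe74_an.main (E : Type) [NormedAddCommGroup E]
    [InnerProductSpace ℝ E] [FiniteDimensional ℝ E] [MeasurableSpace E] [BorelSpace E]
    (hE : Module.finrank ℝ E = 3) (p : ENNReal) [Fact (1 ≤ p)] (h2 : 2 < p) (ht : p ≠ ⊤) :
    ∃ (T : Lp ℂ p (hypVol E) → Lp ℂ p (hypVol E)) (m : ℂ → ℂ), IsBoundedLinearMap ℂ T ∧
      (∀ g, IsLorentz g → ∀ F H : Lp ℂ p (hypVol E),
        H =ᵐ[hypVol E] F ∘ act g → T H =ᵐ[hypVol E] T F ∘ act g) ∧
      DifferentiableOn ℂ m {l | |l.im| < |2 / p.toReal - 1|} ∧ (∀ l, m (-l) = m l) ∧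
      (∀ l : ℂ, |l.im| ≤ |2 / p.toReal - 1| → ‖m l‖ ≤ 1) ∧
      (∀ f : E → ℂ, Continuous f → HasCompactSupport f →
        ∀ F : Lp ℂ p (hypVol E), F =ᵐ[hypVol E] f → ∀ l : ℂ, |l.im| ≤ |2 / p.toReal - 1| →
          ∀ b : E, ‖b‖ = 1 → Integrable (fun x => T F x * helgasonKernel l b x) (hypVol E) ∧
            ∫ x, T F x * helgasonKernel l b x ∂hypVol E =
              m l * ∫ x, f x * helgasonKernel l b x ∂hypVol E) ∧
      ∃ F : Lp ℂ p (hypVol E), Dense (Set.range fun n : ℕ => T^[n] F) := by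
  have : Fact (Module.finrank ℝ E = 3) := ⟨hE⟩
  have hk := kp_pos h2 ht
  have hb : |2 / p.toReal - 1| = kp p / 2 := by
    rw [abs_sub_comm, abs_of_pos (by unfold kp at hk; linarith)]; unfold kp; ring
  rw [hb]
  exact ⟨Top h2 ht, mm (kp p), (Top h2 ht).isBoundedLinearMap, fun g hg => Top_act h2 ht hg,
    fun l hl => (differentiableAt_mm hk (le_of_lt hl)).differentiableWithinAt, mm_neg _,
    fun l hl => norm_mm_le hk hl,
    fun f hf hc F hF l hl b hb => Top_symbol h2 ht hf hc F hF hl hb, hypercyclic h2 ht⟩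

end
end
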